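import Pool.Agent.Helper8.CB.Lanes

/-!
The lane event: statement, deterministic part and probability.
-/

namespace CB
open Finset H47Perc
open Pool.Agent.Helper69.RSW

/-- the face `f` is in the cell `c` -/
def InC (m : ℤ) (c f : ℤ × ℤ) : Prop :=
  2 * m * c.1 ≤ f.1 ∧ f.1 < 2 * m * (c.1 + 1) ∧ 2 * m * c.2 ≤ f.2 ∧ f.2 < 2 * m * (c.2 + 1)

/-- the face `f` has colour `κ` -/
def Col (κ : ℤ) (f : ℤ × ℤ) : Prop := (2 : ℤ) ∣ f.1 - κ ∧ (2 : ℤ) ∣ f.2 - κ

/-- the lane event: `f i`, `g i` are faces of the colour of the arm `i` in the two feet of the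
`U` around the exit `i`, joined through the `U`; `f i` is joined outside the copies of the box to
`f i'` of the next or the previous copy; two winding circuits above and below. -/
structure LaneEv (q : LP) (m k0 : ℤ) (S : Set (ℤ × ℤ)) : Prop where
  lanes : ∃ f g : ℤ → ℤ × ℤ, ∀ i, 1 ≤ i → i ≤ 2 * q.k →
    InC m (q.fx i, q.fy i) (f i) ∧ InC m (q.fx' i, q.fy i) (g i) ∧
    Col (i + k0) (f i) ∧ Col (i + k0) (g i) ∧
    TA.Conn (fun v => v ∈ S) (Reg m {c | q.U i c}) (f i) (g i) ∧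
    ∃ i' z : ℤ, 1 ≤ i' ∧ i' ≤ 2 * q.k ∧ (z = 1 ∨ z = -1) ∧
      TA.Conn (fun v => v ∈ S) (Reg m q.Out) (f i)
        ((f i').1 + z * (2 * m * q.n), (f i').2 - z * (2 * m * q.n))
  up : ∃ f : ℤ × ℤ, Col k0 f ∧
    TA.Conn (fun v => v ∈ S) (Reg m {c | c ∈ q.Out ∧ 1 ≤ c.1 + c.2}) f
      (f.1 + 2 * m * q.n, f.2 - 2 * m * q.n)
  down : ∃ f : ℤ × ℤ, Col k0 f ∧
    TA.Conn (fun v => v ∈ S) (Reg m {c | c ∈ q.Out ∧ c.1 + c.2 ≤ -3}) f
      (f.1 + 2 * m * q.n, f.2 - 2 * m * q.n)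

lemma conn_mono {M : ℤ × ℤ → Prop} {R R' : Set (ℤ × ℤ)} {f g : ℤ × ℤ}
    (h : TA.Conn M R f g) (hR : R ⊆ R') : TA.Conn M R' f g := by
  unfold TA.Conn at *
  induction h with
  | refl => exact Relation.ReflTransGen.refl
  | tail _ h ih =>
    obtain ⟨v, hv, h⟩ := h
    exact Relation.ReflTransGen.tail ih ⟨v, hR hv, h⟩

namespace LP
variable (q : LP)

lemma U_sub_As {i κ : ℤ} (h1 : 1 ≤ i) (h2 : i ≤ 2 * q.k) (hκ : (2 : ℤ) ∣ i - κ) :
    {c | q.U i c} ⊆ q.As κ := by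
  intro c hc
  have hk := q.hk
  rcases le_or_gt i q.k with h | h
  · refine ⟨0, i, Or.inl ⟨h1, h⟩, hκ, Or.inl ⟨h, Or.inl ?_⟩⟩
    simp only [zero_mul, sub_zero, add_zero]
    exact hc
  · rcases eq_or_lt_of_le h2 with h3 | h3
    · refine ⟨0, i, Or.inr h3, hκ, Or.inr ⟨h3, Or.inl ?_⟩⟩
      simp only [zero_mul, sub_zero, add_zero]
      exact hc
    · refine ⟨-1, 2 * q.k - i, Or.inl ⟨by omega, by omega⟩, by omega,
        Or.inl ⟨by omega, Or.inr (Or.inl ?_)⟩⟩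
      unfold U7
      have e1 : c.1 - -1 * q.n - q.n = c.1 := by ring
      have e2 : c.2 + -1 * q.n + q.n = c.2 := by ring
      have e3 : 2 * q.k - (2 * q.k - i) = i := by ring
      simp only
      rw [e1, e2, e3]
      exact hc

lemma Ln_sub {j κ : ℤ} (h1 : 1 ≤ j) (h2 : j ≤ q.k) (hκ : (2 : ℤ) ∣ j - κ) (z : ℤ) :
    {c : ℤ × ℤ | q.Ln j (c.1 - z * q.n, c.2 + z * q.n)} ⊆ q.As κ ∩ q.Out := by
  intro c hc
  refine ⟨⟨z, j, Or.inl ⟨h1, h2⟩, hκ, Or.inl ⟨h2, Or.inr (Or.inr hc)⟩⟩, ?_⟩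
  have := q.Out_transl z (q.ln_out h1 h2 hc)
  simpa using this

lemma Lo_sub {κ : ℤ} (hκ : (2 : ℤ) ∣ κ) (z : ℤ) :
    {c : ℤ × ℤ | q.Lo (c.1 - z * q.n, c.2 + z * q.n)} ⊆ q.As κ ∩ q.Out := by
  intro c hc
  refine ⟨⟨z, 2 * q.k, Or.inr rfl, by omega, Or.inr ⟨rfl, Or.inr hc⟩⟩, ?_⟩
  have := q.Out_transl z (q.lo_out hc)
  simpa using this

/-- paths from a foot to a foot of the next or the previous copy -/
lemma foot_cp {i κ : ℤ} (h1 : 1 ≤ i) (h2 : i ≤ 2 * q.k) (hκ : (2 : ℤ) ∣ i - κ) :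
    ∃ i' z : ℤ, 1 ≤ i' ∧ i' ≤ 2 * q.k ∧ (2 : ℤ) ∣ i' - κ ∧ (z = 1 ∨ z = -1) ∧
      CP (q.As κ ∩ q.Out) (q.fx i, q.fy i) (q.fx i' + z * q.n, q.fy i' - z * q.n) := by
  have hk := q.hk
  rcases le_or_gt i q.k with h | h
  · refine ⟨2 * q.k - i, 1, by omega, by omega, by omega, Or.inl rfl, ?_⟩
    have h3 := (q.ln_cp h1 h).mono (B := q.As κ ∩ q.Out) (by
      intro c hc
      apply q.Ln_sub h1 h hκ 0
      simpa using hc)
    have e : (q.fx (2 * q.k - i) + 1 * q.n, q.fy (2 * q.k - i) - 1 * q.n)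
        = (q.n + q.fx (2 * q.k - i), -q.n + q.fy (2 * q.k - i)) := by
      ext <;> simp only <;> ring
    rw [e]
    exact h3
  · rcases eq_or_lt_of_le h2 with h3 | h3
    · subst h3
      refine ⟨2 * q.k, 1, by omega, le_rfl, hκ, Or.inl rfl, ?_⟩
      have c1 := q.lo_cp1
      have c2 := q.lo_cp2
      have c3 := (c1.shift q.n (-q.n)).symm
      have d1 := (c1.trans c2).mono (B := q.As κ ∩ q.Out) (by
        intro c hc
        apply q.Lo_sub (by omega) 0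
        simpa using hc)
      have d3 := c3.mono (B := q.As κ ∩ q.Out) (by
        intro c hc
        apply q.Lo_sub (by omega) 1
        simpa using hc)
      have e1 : (-q.W - 4 + q.n, q.h + 1 + 2 * q.k + -q.n)
          = (q.n - q.W - 4, -q.n + q.h + 1 + 2 * q.k) := by
        ext <;> simp only <;> ring
      have e2 : (q.fx (2 * q.k) + q.n, q.fy (2 * q.k) + -q.n)
          = (q.fx (2 * q.k) + 1 * q.n, q.fy (2 * q.k) - 1 * q.n) := by
        ext <;> simp only <;> ring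
      simp only at d3
      rw [e1, e2] at d3
      exact d1.trans d3
    · refine ⟨2 * q.k - i, -1, by omega, by omega, by omega, Or.inr rfl, ?_⟩
      have c1 := (q.ln_cp (j := 2 * q.k - i) (by omega) (by omega)).symm
      have c2 := c1.shift (-q.n) q.n
      have d2 := c2.mono (B := q.As κ ∩ q.Out) (by
        intro c hc
        apply q.Ln_sub (j := 2 * q.k - i) (by omega) (by omega) (by omega) (-1)
        simpa [sub_eq_add_neg] using hc)
      have e1 : (q.n + q.fx (2 * q.k - (2 * q.k - i)) + -q.n,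
          -q.n + q.fy (2 * q.k - (2 * q.k - i)) + q.n) = (q.fx i, q.fy i) := by
        have e3 : 2 * q.k - (2 * q.k - i) = i := by ring
        rw [e3]
        ext <;> simp only <;> ring
      have e2 : (q.fx (2 * q.k - i) + -q.n, q.fy (2 * q.k - i) + q.n)
          = (q.fx (2 * q.k - i) + -1 * q.n, q.fy (2 * q.k - i) - -1 * q.n) := by
        ext <;> simp only <;> ring
      simp only at d2
      rw [e1, e2] at d2
      exact d2

lemma Cu_out {c : ℤ × ℤ} (h : c ∈ q.Cu) : c ∈ q.Out ∧ 1 ≤ c.1 + c.2 := by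
  have hk := q.hk
  have hW := q.hW
  have hh := q.hh
  have hn := q.hn
  have hs := q.s_eq
  unfold Cu at h
  simp only [Set.mem_ofPred_eq] at h
  refine ⟨⟨fun t ht => ?_, ?_, ?_⟩, ?_⟩
  · generalize t * q.n = T at *
    omega
  all_goals omega

lemma Cd_out {c : ℤ × ℤ} (h : c ∈ q.Cd) : c ∈ q.Out ∧ c.1 + c.2 ≤ -3 := by
  have hk := q.hk
  have hW := q.hW
  have hh := q.hh
  have hn := q.hn
  have hs := q.s_eq
  unfold Cd at h
  simp only [Set.mem_ofPred_eq] at h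
  refine ⟨⟨fun t ht => ?_, ?_, ?_⟩, ?_⟩
  · generalize t * q.n = T at *
    omega
  all_goals omega

/-- **deterministic part** -/
theorem laneEv {m : ℤ} (hm : 1 ≤ m) {k0 : ℤ} (hk0 : k0 = 0 ∨ k0 = 1) {S : Set (ℤ × ℤ)}
    (hS : ∀ z : ℤ, ∀ v : ℤ × ℤ,
      (v.1 + z * (2 * m * q.n), v.2 - z * (2 * m * q.n)) ∈ S ↔ v ∈ S)
    (hA : Net k0 m q.B0 S) (hB : Net (1 - k0) m (q.As 1) S) : LaneEv q m k0 S := by
  classical
  have hk := q.hk
  -- colour and net of the class of `i`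
  have hnet : ∀ i : ℤ, ∃ κ' κ : ℤ, (κ = 0 ∨ κ = 1) ∧ (2 : ℤ) ∣ i - κ' ∧
      (2 : ℤ) ∣ i + k0 - κ ∧ Net κ m (q.As κ') S := by
    intro i
    rcases Int.emod_two_eq_zero_or_one i with h | h
    · exact ⟨0, k0, hk0, by omega, by omega, hA.mono Set.subset_union_left⟩
    · exact ⟨1, 1 - k0, by omega, by omega, by omega, hB⟩
  choose cl co hco h2 h3 h4 using hnet
  have ex1 : ∀ i : ℤ, ∃ f, (1 ≤ i → i ≤ 2 * q.k → Hub (co i) m (q.fx i, q.fy i) S f) := by
    intro i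
    by_cases h : 1 ≤ i ∧ i ≤ 2 * q.k
    · obtain ⟨f, hf⟩ := exists_hub hm (h4 i)
        (q.U_sub_As h.1 h.2 (h2 i) (q.U_foot i).1)
      exact ⟨f, fun _ _ => hf⟩
    · exact ⟨(0, 0), fun h5 h6 => absurd ⟨h5, h6⟩ h⟩
  have ex2 : ∀ i : ℤ, ∃ f, (1 ≤ i → i ≤ 2 * q.k → Hub (co i) m (q.fx' i, q.fy i) S f) := by
    intro i
    by_cases h : 1 ≤ i ∧ i ≤ 2 * q.k
    · obtain ⟨f, hf⟩ := exists_hub hm (h4 i)
        (q.U_sub_As h.1 h.2 (h2 i) (q.U_foot i).2)
      exact ⟨f, fun _ _ => hf⟩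
    · exact ⟨(0, 0), fun h5 h6 => absurd ⟨h5, h6⟩ h⟩
  choose f hf using ex1
  choose g hg using ex2
  -- hubs of translated cells
  have htr : ∀ (κ : ℤ) (c f : ℤ × ℤ) (z : ℤ), Hub κ m c S f →
      Hub κ m (c.1 + z * q.n, c.2 - z * q.n) S
        (f.1 + z * (2 * m * q.n), f.2 - z * (2 * m * q.n)) := by
    intro κ c f z h
    have h5 := h.transl (τ := (z * q.n, -(z * q.n))) (by
      intro t
      have := hS z t
      have e : (t.1 + 2 * m * (z * q.n, -(z * q.n)).1, t.2 + 2 * m * (z * q.n, -(z * q.n)).2)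
          = (t.1 + z * (2 * m * q.n), t.2 - z * (2 * m * q.n)) := by
        ext <;> simp only <;> ring
      rw [e]
      exact this)
    have e1 : c + (z * q.n, -(z * q.n)) = (c.1 + z * q.n, c.2 - z * q.n) := by
      ext
      · simp
      · simp [sub_eq_add_neg]
    have e2 : (f.1 + 2 * m * (z * q.n, -(z * q.n)).1, f.2 + 2 * m * (z * q.n, -(z * q.n)).2)
        = (f.1 + z * (2 * m * q.n), f.2 - z * (2 * m * q.n)) := by
      ext <;> simp only <;> ring
    rw [e1, e2] at h5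
    exact h5
  refine ⟨⟨f, g, fun i h5 h6 => ?_⟩, ?_, ?_⟩
  · have m1 := (hf i h5 h6).mem (hco i)
    have m2 := (hg i h5 h6).mem (hco i)
    have hc := h3 i
    refine ⟨⟨m1.1, m1.2.1, m1.2.2.1, m1.2.2.2.1⟩, ⟨m2.1, m2.2.1, m2.2.2.1, m2.2.2.2.1⟩,
      ⟨by omega, by omega⟩, ⟨by omega, by omega⟩, ?_, ?_⟩
    · exact net_conn' (hco i) hm ((h4 i).mono (q.U_sub_As h5 h6 (h2 i))) (q.U_foot i).1
        (q.U_cp i) (hf i h5 h6) (hg i h5 h6)
    · obtain ⟨i', z, a1, a2, a3, a4, a5⟩ := q.foot_cp h5 h6 (h2 i)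
      refine ⟨i', z, a1, a2, a4, ?_⟩
      have hcc : co i' = co i := by
        have b1 := hco i
        have b2 := hco i'
        have b3 := h3 i
        have b4 := h3 i'
        have b5 := h2 i
        omega
      have hf' := hf i' a1 a2
      rw [hcc] at hf'
      have hf2 := htr _ _ _ z hf'
      have hmem : ((q.fx i, q.fy i) : ℤ × ℤ) ∈ q.As (cl i) ∩ q.Out := by
        unfold CP at a5
        rcases Relation.ReflTransGen.cases_head a5 with h | ⟨c, h, _⟩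
        · exfalso
          have e1 := congrArg Prod.fst h
          simp only at e1
          have b1 := q.bounds h5 h6
          have b2 := q.bounds a1 a2
          have hn := q.hn
          have hW := q.hW
          have hh := q.hh
          rcases a4 with rfl | rfl
          · omega
          · omega
        · exact h.1
      exact conn_mono (net_conn' (hco i) hm ((h4 i).mono Set.inter_subset_left) hmem a5
        (hf i h5 h6) hf2) (Reg_mono Set.inter_subset_right)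
  · have hin : (0, q.s) ∈ q.Cu := by
      unfold Cu
      simp only [Set.mem_ofPred_eq]
      omega
    have hnet : Net k0 m q.Cu S :=
      hA.mono (fun c hc => Or.inr (Or.inl hc))
    obtain ⟨f0, hf0⟩ := exists_hub hm hnet hin
    have m1 := hf0.mem hk0
    have hcp : CP q.Cu (0, q.s) (q.n, q.s - q.n) := q.stair' q.Cu q.s (fun c hc => hc)
    have hf1 := htr _ _ _ 1 hf0
    have e1 : ((0 : ℤ) + 1 * q.n, q.s - 1 * q.n) = (q.n, q.s - q.n) := by
      ext <;> simp only <;> ring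
    have e2 : (f0.1 + 1 * (2 * m * q.n), f0.2 - 1 * (2 * m * q.n))
        = (f0.1 + 2 * m * q.n, f0.2 - 2 * m * q.n) := by
      ext <;> simp only <;> ring
    simp only at hf1
    rw [e1, e2] at hf1
    exact ⟨f0, ⟨by omega, by omega⟩, conn_mono (net_conn' hk0 hm hnet hin hcp hf0 hf1)
      (Reg_mono (fun c hc => q.Cu_out hc))⟩
  · have hin : (0, -q.s - 1) ∈ q.Cd := by
      unfold Cd
      simp only [Set.mem_ofPred_eq]
      omega
    have hnet : Net k0 m q.Cd S :=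
      hA.mono (fun c hc => Or.inr (Or.inr hc))
    obtain ⟨f0, hf0⟩ := exists_hub hm hnet hin
    have m1 := hf0.mem hk0
    have hcp : CP q.Cd (0, -q.s - 1) (q.n, -q.s - 1 - q.n) :=
      q.stair' q.Cd (-q.s - 1) (fun c hc => by
        unfold Cd
        simp only [Set.mem_ofPred_eq]
        omega)
    have hf1 := htr _ _ _ 1 hf0
    have e1 : ((0 : ℤ) + 1 * q.n, -q.s - 1 - 1 * q.n) = (q.n, -q.s - 1 - q.n) := by
      ext <;> simp only <;> ring
    have e2 : (f0.1 + 1 * (2 * m * q.n), f0.2 - 1 * (2 * m * q.n))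
        = (f0.1 + 2 * m * q.n, f0.2 - 2 * m * q.n) := by
      ext <;> simp only <;> ring
    simp only at hf1
    rw [e1, e2] at hf1
    exact ⟨f0, ⟨by omega, by omega⟩, conn_mono (net_conn' hk0 hm hnet hin hcp hf0 hf1)
      (Reg_mono (fun c hc => q.Cd_out hc))⟩

/-! ### probability -/

/-- bound for the representatives -/
def RB : ℤ := 2 * q.s

open Classical in
/-- representatives -/
noncomputable def reps (A : Set (ℤ × ℤ)) : Finset (ℤ × ℤ) :=
  (Finset.Icc ((-q.RB, -q.RB) : ℤ × ℤ) (q.RB, q.RB)).filter (fun c => c ∈ A)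

lemma mem_reps {A : Set (ℤ × ℤ)} {c : ℤ × ℤ} : c ∈ q.reps A ↔
    (-q.RB ≤ c.1 ∧ c.1 ≤ q.RB ∧ -q.RB ≤ c.2 ∧ c.2 ≤ q.RB) ∧ c ∈ A := by
  classical
  unfold reps
  rw [Finset.mem_filter, Finset.mem_Icc, Prod.le_def, Prod.le_def]
  tauto

lemma reps_card (A : Set (ℤ × ℤ)) : (q.reps A).card ≤ (2 * q.RB + 1).toNat ^ 2 := by
  classical
  unfold reps
  refine (Finset.card_filter_le _ _).trans ?_
  have h : Finset.Icc ((-q.RB, -q.RB) : ℤ × ℤ) (q.RB, q.RB)
      = Finset.Icc (-q.RB) q.RB ×ˢ Finset.Icc (-q.RB) q.RB := by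
    ext c
    rw [Finset.mem_Icc, Finset.mem_product, Finset.mem_Icc, Finset.mem_Icc, Prod.le_def,
      Prod.le_def]
    tauto
  rw [h, Finset.card_product, Int.card_Icc]
  have : q.RB + 1 - -q.RB = 2 * q.RB + 1 := by ring
  rw [this, sq]

lemma reps_of {ι : Type*} {π : ℤ × ℤ → ι} {m : ℤ}
    (hπ : ∀ z : ℤ, ∀ v : ℤ × ℤ, π (v.1 + z * (2 * m * q.n), v.2 - z * (2 * m * q.n)) = π v)
    {A : Set (ℤ × ℤ)} (htr : ∀ c ∈ A, ∀ z : ℤ, (c.1 + z * q.n, c.2 - z * q.n) ∈ A)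
    (hb : ∀ c ∈ A, ∃ z : ℤ, -q.RB ≤ c.1 + z * q.n ∧ c.1 + z * q.n ≤ q.RB ∧
      -q.RB ≤ c.2 - z * q.n ∧ c.2 - z * q.n ≤ q.RB) : Reps π m A (q.reps A) := by
  refine ⟨fun c hc => (q.mem_reps.1 hc).2, fun c hc => ?_⟩
  obtain ⟨z, h1, h2, h3, h4⟩ := hb c hc
  refine ⟨(c.1 + z * q.n, c.2 - z * q.n), q.mem_reps.2 ⟨⟨h1, h2, h3, h4⟩, htr c hc z⟩,
    (-(z * q.n), z * q.n), ?_, ?_, ?_⟩
  · ext <;> simp
  · intro x hx
    have := htr _ hx z
    have e : ((x + (-(z * q.n), z * q.n)).1 + z * q.n, (x + (-(z * q.n), z * q.n)).2 - z * q.n)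
        = x := by
      ext <;> simp
    rw [e] at this
    exact this
  · intro t
    have := hπ (-z) t
    have e : (t.1 + -z * (2 * m * q.n), t.2 - -z * (2 * m * q.n))
        = (t.1 + 2 * m * (-(z * q.n), z * q.n).1, t.2 + 2 * m * (-(z * q.n), z * q.n).2) := by
      ext <;> simp only <;> ring
    rw [e] at this
    exact this

lemma As_rep {κ : ℤ} {c : ℤ × ℤ} (h : c ∈ q.As κ) :
    ∃ z : ℤ, -q.RB ≤ c.1 + z * q.n ∧ c.1 + z * q.n ≤ q.RB ∧
      -q.RB ≤ c.2 - z * q.n ∧ c.2 - z * q.n ≤ q.RB := by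
  obtain ⟨t, j, h1, h2, h3⟩ := h
  have := q.full_bounds h1 h3
  have hk := q.hk
  have hW := q.hW
  have hh := q.hh
  have hn := q.hn
  have hs := q.s_eq
  have hr : q.RB = 2 * q.s := rfl
  refine ⟨-t, ?_⟩
  have e : -t * q.n = -(t * q.n) := by ring
  rw [e]
  generalize t * q.n = T at *
  omega

lemma circ_rep {c : ℤ × ℤ} (h : c ∈ q.Cu ∪ q.Cd) :
    ∃ z : ℤ, -q.RB ≤ c.1 + z * q.n ∧ c.1 + z * q.n ≤ q.RB ∧
      -q.RB ≤ c.2 - z * q.n ∧ c.2 - z * q.n ≤ q.RB := by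
  have hk := q.hk
  have hW := q.hW
  have hh := q.hh
  have hn := q.hn
  have hs := q.s_eq
  have hr : q.RB = 2 * q.s := rfl
  refine ⟨-(c.1 / q.n), ?_⟩
  have h1 : 0 ≤ c.1 % q.n := Int.emod_nonneg _ (by omega)
  have h2 : c.1 % q.n < q.n := Int.emod_lt_of_pos _ (by omega)
  have h3 : c.1 / q.n * q.n = c.1 - c.1 % q.n := by
    have := Int.ediv_mul_add_emod c.1 q.n
    linarith
  have e : -(c.1 / q.n) * q.n = -(c.1 / q.n * q.n) := by ring
  rw [e, h3]
  have h4 : -q.s - 1 ≤ c.1 + c.2 ∧ c.1 + c.2 ≤ q.s + 1 := by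
    rcases h with h | h
    · unfold Cu at h
      simp only [Set.mem_ofPred_eq] at h
      omega
    · unfold Cd at h
      simp only [Set.mem_ofPred_eq] at h
      omega
  generalize c.1 % q.n = r at *
  omega

/-- the constant -/
noncomputable def lc (q : LP) : ℝ := nc ^ (2 * (2 * q.RB + 1).toNat ^ 2)

lemma lc_pos : 0 < q.lc := pow_pos nc_pos _

/-- **The lane event has positive probability on the cylinder**, uniformly in the scale `m`. -/
theorem lane_prob {ι : Type*} [DecidableEq ι] (Λ : Finset ι) (π : ℤ × ℤ → ι) {m : ℤ}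
    (hm : 1 ≤ m) {k0 : ℤ} (hk0 : k0 = 0 ∨ k0 = 1)
    (hπ : ∀ z : ℤ, ∀ v : ℤ × ℤ, π (v.1 + z * (2 * m * q.n), v.2 - z * (2 * m * q.n)) = π v)
    (hπ' : ∀ v v' : ℤ × ℤ, π v = π v' → ∃ z : ℤ,
      v' = (v.1 + z * (2 * m * q.n), v.2 - z * (2 * m * q.n)))
    (hΛ : ∀ v : ℤ × ℤ, ¬ (2 : ℤ) ∣ v.1 + v.2 → |v.1 + v.2| ≤ 2 * m * (q.s + 4) → π v ∈ Λ) :
    q.lc ≤ P Λ (fun ω => LaneEv q m k0 (pull π ω)) := by
  have hk := q.hk
  have hW := q.hW
  have hh := q.hh
  have hn := q.hn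
  have hs := q.s_eq
  have hB0 : ∀ c ∈ q.B0, -q.s - 1 ≤ c.1 + c.2 ∧ c.1 + c.2 ≤ q.s + 1 := by
    intro c hc
    rcases hc with h | h | h
    · have := q.As_bounds h
      omega
    · unfold Cu at h
      simp only [Set.mem_ofPred_eq] at h
      omega
    · unfold Cd at h
      simp only [Set.mem_ofPred_eq] at h
      omega
  have hreg : ∀ A : Set (ℤ × ℤ), (∀ c ∈ A, -q.s - 1 ≤ c.1 + c.2 ∧ c.1 + c.2 ≤ q.s + 1) →
      ∀ t ∈ Reg m A, ¬ (2 : ℤ) ∣ t.1 + t.2 → π t ∈ Λ := by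
    rintro A hA t ⟨c, hc, h1, h2, h3, h4⟩ h5
    have h6 := hA c hc
    apply hΛ t h5
    rw [abs_le]
    constructor
    · nlinarith
    · nlinarith
  have hrepA : Reps π m q.B0 (q.reps q.B0) := by
    refine q.reps_of hπ (fun c hc z => q.B0_transl z hc) ?_
    intro c hc
    rcases hc with h | h
    · exact q.As_rep h
    · exact q.circ_rep h
  have hrepB : Reps π m (q.As 1) (q.reps (q.As 1)) :=
    q.reps_of hπ (fun c hc z => q.As_transl z hc) (fun c hc => q.As_rep hc)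
  have h := net_probT Λ π hm ?_ ?_ hk0 (κ' := 1 - k0) (by omega) q.B0 (q.As 1)
    (q.reps q.B0) (q.reps (q.As 1)) hrepA hrepB (hreg _ hB0)
    (hreg _ (fun c hc => by have := q.As_bounds hc; omega)) ?_
  · refine le_trans ?_ (h.trans (P_mono ?_))
    · unfold lc
      apply pow_le_pow_of_le_one nc_pos.le nc_le_one
      have h1 := q.reps_card q.B0
      have h2 := q.reps_card (q.As 1)
      omega
    · rintro ω _ ⟨h1, h2⟩
      refine q.laneEv hm hk0 ?_ h1 h2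
      intro z v
      rw [mem_pull, mem_pull, hπ z v]
  · intro t t' htt
    obtain ⟨z, rfl⟩ := hπ' t t' htt
    simp only
    refine ⟨-(z * (m * q.n)), by ring⟩
  · intro t t' htt h1 h2
    obtain ⟨z, rfl⟩ := hπ' t t' htt
    simp only at h1 h2
    have e : t.1 - (t.1 + z * (2 * m * q.n)) = -(z * (2 * m * q.n)) := by ring
    rw [e, abs_neg, abs_lt] at h1
    have hmn : 0 ≤ 2 * m * q.n := by
      have : 0 ≤ q.n := by omega
      positivity
    have hz : z = 0 := by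
      rcases lt_trichotomy z 0 with h | h | h
      · exfalso
        have h3 : z * (2 * m * q.n) ≤ -1 * (2 * m * q.n) :=
          mul_le_mul_of_nonneg_right (by omega) hmn
        nlinarith
      · exact h
      · exfalso
        have h3 : 1 * (2 * m * q.n) ≤ z * (2 * m * q.n) :=
          mul_le_mul_of_nonneg_right (by omega) hmn
        nlinarith
    subst hz
    simp
  · rintro t ht t' ht' htt
    obtain ⟨z, rfl⟩ := hπ' t t' htt
    rw [mem_Reg' hm] at ht ht'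
    have h2m : (2 * m) ≠ 0 := by omega
    have e1 : (t.1 + z * (2 * m * q.n)) / (2 * m) = t.1 / (2 * m) + z * q.n := by
      have : t.1 + z * (2 * m * q.n) = t.1 + (2 * m) * (z * q.n) := by ring
      rw [this, Int.add_mul_ediv_left _ _ h2m]
    have e2 : (t.2 - z * (2 * m * q.n)) / (2 * m) = t.2 / (2 * m) - z * q.n := by
      have : t.2 - z * (2 * m * q.n) = t.2 + (2 * m) * (-(z * q.n)) := by ring
      rw [this, Int.add_mul_ediv_left _ _ h2m, ← sub_eq_add_neg]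
    simp only at ht'
    rw [e1, e2] at ht'
    exact q.B_disj ht ht' z rfl

end LP

end CB
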