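import Pool.Agent.Helper46.RSW.RSW

/-!
Colour-blind coordinates.  Faces are the points `(X,Y)` with `X = Y mod 2` (both even: vertices of
the lattice, both odd: dual vertices), tiles are the points with `X + Y` odd.  A configuration is
the set `S` of the tiles in state H (joining the faces on the left and on the right); the other
tiles join the faces below and above.
-/

namespace CB
open Finset H47Perc
open Pool.Agent.Helper69.RSW

/-- the tile `t` joins the faces `f` and `g` -/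
def Thru (S : Set (ℤ × ℤ)) (t f g : ℤ × ℤ) : Prop :=
  (t ∈ S ∧ ((f = (t.1 - 1, t.2) ∧ g = (t.1 + 1, t.2)) ∨
    (f = (t.1 + 1, t.2) ∧ g = (t.1 - 1, t.2)))) ∨
  (t ∉ S ∧ ((f = (t.1, t.2 - 1) ∧ g = (t.1, t.2 + 1)) ∨
    (f = (t.1, t.2 + 1) ∧ g = (t.1, t.2 - 1))))

/-- connection of faces through tiles of `R` -/
def Cn (S R : Set (ℤ × ℤ)) : ℤ × ℤ → ℤ × ℤ → Prop :=
  Relation.ReflTransGen (fun f g => ∃ t ∈ R, Thru S t f g)

lemma Thru.symm {S : Set (ℤ × ℤ)} {t f g : ℤ × ℤ} (h : Thru S t f g) : Thru S t g f := by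
  unfold Thru at *
  tauto

lemma Cn.symm {S R : Set (ℤ × ℤ)} {f g : ℤ × ℤ} (h : Cn S R f g) : Cn S R g f := by
  unfold Cn at *
  induction h with
  | refl => exact Relation.ReflTransGen.refl
  | tail _ h ih =>
    obtain ⟨t, ht, h⟩ := h
    exact Relation.ReflTransGen.head ⟨t, ht, h.symm⟩ ih

lemma Cn.trans {S R : Set (ℤ × ℤ)} {f g k : ℤ × ℤ} (h : Cn S R f g) (h' : Cn S R g k) :
    Cn S R f k := Relation.ReflTransGen.trans h h'

lemma Cn.congr' {S S' R R' : Set (ℤ × ℤ)} (hR : R ⊆ R') (hS : ∀ t ∈ R, (t ∈ S ↔ t ∈ S'))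
    {f g : ℤ × ℤ} (h : Cn S R f g) : Cn S' R' f g := by
  unfold Cn at *
  induction h with
  | refl => exact Relation.ReflTransGen.refl
  | tail _ h ih =>
    obtain ⟨t, ht, h⟩ := h
    refine Relation.ReflTransGen.tail ih ⟨t, hR ht, ?_⟩
    unfold Thru at *
    rw [← hS t ht]
    exact h

lemma Cn.mono {S R R' : Set (ℤ × ℤ)} (hR : R ⊆ R') {f g : ℤ × ℤ} (h : Cn S R f g) :
    Cn S R' f g := h.congr' hR (fun _ _ => Iff.rfl)

lemma Cn.congr {S S' R : Set (ℤ × ℤ)} (hS : ∀ t ∈ R, (t ∈ S ↔ t ∈ S')) {f g : ℤ × ℤ}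
    (h : Cn S R f g) : Cn S' R f g := h.congr' (fun _ h => h) hS

/-- horizontal edges -/
def IsH (e : Sym2 (ℤ × ℤ)) : Prop := ∃ x y : ℤ, e = hE x y

/-- the tile of an edge of the lattice of colour `κ` -/
def tl (κ : ℤ) : Sym2 (ℤ × ℤ) → ℤ × ℤ :=
  Sym2.lift ⟨fun u v => (u.1 + v.1 + κ, u.2 + v.2 + κ), fun u v => by
    simp only [add_comm u.1, add_comm u.2]⟩

lemma tl_hE (κ x y : ℤ) : tl κ (hE x y) = (2 * x + 1 + κ, 2 * y + κ) := by
  unfold tl hE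
  rw [Sym2.lift_mk]
  simp only
  ext <;> simp <;> ring

lemma tl_vE (κ x y : ℤ) : tl κ (vE x y) = (2 * x + κ, 2 * y + 1 + κ) := by
  unfold tl vE
  rw [Sym2.lift_mk]
  simp only
  ext <;> simp <;> ring

lemma isH_hE (x y : ℤ) : IsH (hE x y) := ⟨x, y, rfl⟩

lemma not_isH_vE (x y : ℤ) : ¬ IsH (vE x y) := by
  rintro ⟨x', y', h⟩
  have h1 := tl_vE 0 x y
  rw [h, tl_hE] at h1
  have := congrArg Prod.fst h1
  simp only at this
  omega

lemma tl_inj (κ : ℤ) (G : Finset (ℤ × ℤ)) : Set.InjOn (tl κ) (edgesIn G : Set (Sym2 (ℤ × ℤ))) := by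
  intro e he e' he' h
  rcases edgesIn_cases (Finset.mem_coe.1 he) with ⟨x, y, rfl⟩ | ⟨x, y, rfl⟩ <;>
  rcases edgesIn_cases (Finset.mem_coe.1 he') with ⟨x', y', rfl⟩ | ⟨x', y', rfl⟩
  · rw [tl_hE, tl_hE] at h
    have h1 := congrArg Prod.fst h
    have h2 := congrArg Prod.snd h
    simp only at h1 h2
    have h3 : x = x' := by omega
    have h4 : y = y' := by omega
    rw [h3, h4]
  · rw [tl_hE, tl_vE] at h
    have h1 := congrArg Prod.fst h
    simp only at h1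
    omega
  · rw [tl_hE, tl_vE] at h
    have h1 := congrArg Prod.fst h
    simp only at h1
    omega
  · rw [tl_vE, tl_vE] at h
    have h1 := congrArg Prod.fst h
    have h2 := congrArg Prod.snd h
    simp only at h1 h2
    have h3 : x = x' := by omega
    have h4 : y = y' := by omega
    rw [h3, h4]

open Classical in
/-- the open edges of colour `κ` -/
noncomputable def op (κ : ℤ) (F : Finset (Sym2 (ℤ × ℤ))) (S : Set (ℤ × ℤ)) :
    Finset (Sym2 (ℤ × ℤ)) :=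
  F.filter (fun e => (IsH e ↔ tl κ e ∈ S))

lemma mem_op {κ : ℤ} {F : Finset (Sym2 (ℤ × ℤ))} {S : Set (ℤ × ℤ)} {e : Sym2 (ℤ × ℤ)} :
    e ∈ op κ F S ↔ e ∈ F ∧ (IsH e ↔ tl κ e ∈ S) := by
  classical
  unfold op
  rw [Finset.mem_filter]

lemma op_mono {κ : ℤ} {F F' : Finset (Sym2 (ℤ × ℤ))} (h : F ⊆ F') (S : Set (ℤ × ℤ)) :
    op κ F S ⊆ op κ F' S := by
  intro e he
  rw [mem_op] at he ⊢
  exact ⟨h he.1, he.2⟩

lemma op_subset {κ : ℤ} {F : Finset (Sym2 (ℤ × ℤ))} {S : Set (ℤ × ℤ)} : op κ F S ⊆ F := by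
  intro e he
  exact (mem_op.1 he).1

lemma op_congr {κ : ℤ} {F : Finset (Sym2 (ℤ × ℤ))} {S S' : Set (ℤ × ℤ)}
    (h : ∀ e ∈ F, (tl κ e ∈ S ↔ tl κ e ∈ S')) : op κ F S = op κ F S' := by
  ext e
  rw [mem_op, mem_op]
  refine and_congr_right fun he => ?_
  rw [h e he]

/-- the face of a vertex of the lattice of colour `κ` -/
def fa (κ : ℤ) (u : ℤ × ℤ) : ℤ × ℤ := (2 * u.1 + κ, 2 * u.2 + κ)

lemma thru_of_op {κ : ℤ} {G : Finset (ℤ × ℤ)} {S : Set (ℤ × ℤ)} {u v : ℤ × ℤ}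
    (h : s(u, v) ∈ op κ (edgesIn G) S) : Thru S (tl κ s(u, v)) (fa κ u) (fa κ v) := by
  obtain ⟨h1, h2⟩ := mem_op.1 h
  have hh : ∀ x y : ℤ, (IsH (hE x y) ↔ tl κ (hE x y) ∈ S) →
      Thru S (tl κ (hE x y)) (fa κ (x, y)) (fa κ (x + 1, y)) := by
    intro x y h
    refine Or.inl ⟨h.1 (isH_hE x y), Or.inl ?_⟩
    rw [tl_hE]
    unfold fa
    refine ⟨?_, ?_⟩ <;> ext <;> simp <;> ring
  have hv : ∀ x y : ℤ, (IsH (vE x y) ↔ tl κ (vE x y) ∈ S) →
      Thru S (tl κ (vE x y)) (fa κ (x, y)) (fa κ (x, y + 1)) := by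
    intro x y h
    refine Or.inr ⟨fun h' => not_isH_vE x y (h.2 h'), Or.inl ?_⟩
    rw [tl_vE]
    unfold fa
    refine ⟨?_, ?_⟩ <;> ext <;> simp <;> ring
  rcases edgesIn_cases h1 with ⟨x, y, h⟩ | ⟨x, y, h⟩
  · have h3 := h
    unfold hE at h3
    rw [Sym2.eq_iff] at h3
    rcases h3 with ⟨rfl, rfl⟩ | ⟨rfl, rfl⟩
    · rw [h] at h2 ⊢
      exact hh _ _ h2
    · rw [h] at h2 ⊢
      exact (hh _ _ h2).symm
  · have h3 := h
    unfold vE at h3
    rw [Sym2.eq_iff] at h3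
    rcases h3 with ⟨rfl, rfl⟩ | ⟨rfl, rfl⟩
    · rw [h] at h2 ⊢
      exact hv _ _ h2
    · rw [h] at h2 ⊢
      exact (hv _ _ h2).symm

/-- open paths of colour `κ` are paths of faces -/
theorem cn_of_joined {κ : ℤ} {G : Finset (ℤ × ℤ)} {S : Set (ℤ × ℤ)} {u v : ℤ × ℤ}
    (h : H47Perc.Joined (op κ (edgesIn G) S) u v) :
    Cn S ((edgesIn G).image (tl κ) : Finset (ℤ × ℤ)) (fa κ u) (fa κ v) := by
  unfold H47Perc.Joined at h
  rw [SimpleGraph.reachable_iff_reflTransGen] at h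
  induction h with
  | refl => exact Relation.ReflTransGen.refl
  | tail _ h ih =>
    rw [SimpleGraph.fromEdgeSet_adj] at h
    refine Relation.ReflTransGen.tail ih ⟨_, ?_, thru_of_op (Finset.mem_coe.1 h.1)⟩
    exact Finset.mem_coe.2 (Finset.mem_image_of_mem _ (mem_op.1 (Finset.mem_coe.1 h.1)).1)

/-- the tiles of a box of the lattice of colour `κ` -/
noncomputable def TB (κ a b c d : ℤ) : Finset (ℤ × ℤ) := (edgesIn (box a b c d)).image (tl κ)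

lemma mem_TB {κ a b c d : ℤ} {t : ℤ × ℤ} : t ∈ TB κ a b c d ↔
    (∃ x y, t = (2 * x + 1 + κ, 2 * y + κ) ∧ a ≤ x ∧ x + 1 ≤ b ∧ c ≤ y ∧ y ≤ d) ∨
    (∃ x y, t = (2 * x + κ, 2 * y + 1 + κ) ∧ a ≤ x ∧ x ≤ b ∧ c ≤ y ∧ y + 1 ≤ d) := by
  unfold TB
  rw [Finset.mem_image]
  constructor
  · rintro ⟨e, he, rfl⟩
    rcases edgesIn_cases he with ⟨x, y, rfl⟩ | ⟨x, y, rfl⟩
    · left
      rw [hE_mem, mem_box, mem_box] at he
      refine ⟨x, y, tl_hE κ x y, ?_⟩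
      simp only at he
      omega
    · right
      rw [vE_mem, mem_box, mem_box] at he
      refine ⟨x, y, tl_vE κ x y, ?_⟩
      simp only at he
      omega
  · rintro (⟨x, y, rfl, h⟩ | ⟨x, y, rfl, h⟩)
    · refine ⟨hE x y, ?_, tl_hE κ x y⟩
      rw [hE_mem, mem_box, mem_box]
      simp only
      omega
    · refine ⟨vE x y, ?_, tl_vE κ x y⟩
      rw [vE_mem, mem_box, mem_box]
      simp only
      omega

end CB
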