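import Pool.Agent.Helper8.CB.NetP
import Pool.Agent.Helper69.TwoArm.Defs

/-!
Nets in the notation of `TA`.
-/

namespace CB

lemma stpV_of_thru {S : Set (ℤ × ℤ)} {t f g : ℤ × ℤ} (h : Thru S t f g) :
    TA.StpV (fun v => v ∈ S) f g t := by
  unfold TA.StpV TA.Opp
  rcases h with ⟨h, ⟨rfl, rfl⟩ | ⟨rfl, rfl⟩⟩ | ⟨h, ⟨rfl, rfl⟩ | ⟨rfl, rfl⟩⟩
  · exact ⟨Or.inl ⟨rfl, rfl, Or.inl ⟨rfl, rfl⟩⟩, iff_of_true h rfl⟩
  · exact ⟨Or.inl ⟨rfl, rfl, Or.inr ⟨rfl, rfl⟩⟩, iff_of_true h rfl⟩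
  · exact ⟨Or.inr ⟨rfl, rfl, Or.inl ⟨rfl, rfl⟩⟩, iff_of_false h (by simp)⟩
  · exact ⟨Or.inr ⟨rfl, rfl, Or.inr ⟨rfl, rfl⟩⟩, iff_of_false h (by simp)⟩

theorem conn_of_cn {S R : Set (ℤ × ℤ)} {f g : ℤ × ℤ} (h : Cn S R f g) :
    TA.Conn (fun v => v ∈ S) R f g := by
  unfold Cn at h
  unfold TA.Conn
  induction h with
  | refl => exact Relation.ReflTransGen.refl
  | tail _ h ih =>
    obtain ⟨t, ht, h⟩ := h
    exact Relation.ReflTransGen.tail ih ⟨t, ht, stpV_of_thru h⟩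

/-- the tiles of a set of cells -/
lemma mem_Reg {m : ℤ} {A : Set (ℤ × ℤ)} {t : ℤ × ℤ} : t ∈ Reg m A ↔ ∃ c ∈ A,
    2 * m * c.1 ≤ t.1 ∧ t.1 < 2 * m * (c.1 + 1) ∧ 2 * m * c.2 ≤ t.2 ∧
      t.2 < 2 * m * (c.2 + 1) := Iff.rfl

/-- the cell of a tile -/
lemma mem_Reg' {m : ℤ} (hm : 1 ≤ m) {A : Set (ℤ × ℤ)} {t : ℤ × ℤ} :
    t ∈ Reg m A ↔ (t.1 / (2 * m), t.2 / (2 * m)) ∈ A := by
  have h2 : 0 < 2 * m := by omega
  rw [mem_Reg]
  constructor
  · rintro ⟨c, hc, h3, h4, h5, h6⟩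
    have e1 : t.1 / (2 * m) = c.1 := by
      apply le_antisymm
      · have := (Int.ediv_lt_iff_lt_mul h2).2 (show t.1 < (c.1 + 1) * (2 * m) by linarith)
        omega
      · exact (Int.le_ediv_iff_mul_le h2).2 (by linarith)
    have e2 : t.2 / (2 * m) = c.2 := by
      apply le_antisymm
      · have := (Int.ediv_lt_iff_lt_mul h2).2 (show t.2 < (c.2 + 1) * (2 * m) by linarith)
        omega
      · exact (Int.le_ediv_iff_mul_le h2).2 (by linarith)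
    rw [e1, e2]
    exact hc
  · intro h
    refine ⟨_, h, ?_⟩
    simp only
    refine ⟨?_, ?_, ?_, ?_⟩
    · exact Int.mul_ediv_self_le (by omega)
    · have := Int.lt_mul_ediv_self_add (x := t.1) h2
      linarith
    · exact Int.mul_ediv_self_le (by omega)
    · have := Int.lt_mul_ediv_self_add (x := t.2) h2
      linarith

/-- **connected nets, in the notation of `TA`** -/
theorem net_conn' {κ m : ℤ} (hκ : κ = 0 ∨ κ = 1) (hm : 1 ≤ m) {A S : Set (ℤ × ℤ)}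
    (h : Net κ m A S) {c c' f g : ℤ × ℤ} (hc : c ∈ A) (hp : CP A c c')
    (hf : Hub κ m c S f) (hg : Hub κ m c' S g) : TA.Conn (fun v => v ∈ S) (Reg m A) f g :=
  conn_of_cn (net_conn hκ hm h hc hp hf hg)

lemma cp_hline {A : Set (ℤ × ℤ)} {x x' y : ℤ} (hx : x ≤ x')
    (h : ∀ z, x ≤ z → z ≤ x' → (z, y) ∈ A) : CP A (x, y) (x', y) := by
  obtain ⟨n, rfl⟩ : ∃ n : ℕ, x' = x + n := ⟨(x' - x).toNat, by omega⟩
  clear hx
  induction n with
  | zero =>
    simp only [Nat.cast_zero, add_zero]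
    exact Relation.ReflTransGen.refl
  | succ n ih =>
    have h1 := ih (fun z h1 h2 => h z h1 (by push_cast; omega))
    refine Relation.ReflTransGen.tail h1 ⟨h _ (by omega) (by push_cast; omega),
      h _ (by push_cast; omega) le_rfl, Or.inl ?_⟩
    simp only
    push_cast
    ext
    · simp only; ring
    · rfl

lemma cp_vline {A : Set (ℤ × ℤ)} {x y y' : ℤ} (hy : y ≤ y')
    (h : ∀ z, y ≤ z → z ≤ y' → (x, z) ∈ A) : CP A (x, y) (x, y') := by
  obtain ⟨n, rfl⟩ : ∃ n : ℕ, y' = y + n := ⟨(y' - y).toNat, by omega⟩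
  clear hy
  induction n with
  | zero =>
    simp only [Nat.cast_zero, add_zero]
    exact Relation.ReflTransGen.refl
  | succ n ih =>
    have h1 := ih (fun z h1 h2 => h z h1 (by push_cast; omega))
    refine Relation.ReflTransGen.tail h1 ⟨h _ (by omega) (by push_cast; omega),
      h _ (by push_cast; omega) le_rfl, Or.inr (Or.inr (Or.inl ?_))⟩
    simp only
    push_cast
    ext
    · rfl
    · simp only; ring

lemma Nb.symm {c c' : ℤ × ℤ} (h : Nb c c') : Nb c' c := by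
  unfold Nb at *
  tauto

lemma CP.symm {A : Set (ℤ × ℤ)} {c c' : ℤ × ℤ} (h : CP A c c') : CP A c' c := by
  unfold CP at *
  induction h with
  | refl => exact Relation.ReflTransGen.refl
  | tail _ h ih => exact Relation.ReflTransGen.head ⟨h.2.1, h.1, h.2.2.symm⟩ ih

lemma CP.trans {A : Set (ℤ × ℤ)} {c c' c'' : ℤ × ℤ} (h : CP A c c') (h' : CP A c' c'') :
    CP A c c'' := Relation.ReflTransGen.trans h h'

lemma CP.mono {A B : Set (ℤ × ℤ)} (hAB : A ⊆ B) {c c' : ℤ × ℤ} (h : CP A c c') :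
    CP B c c' := by
  unfold CP at *
  induction h with
  | refl => exact Relation.ReflTransGen.refl
  | tail _ h ih => exact Relation.ReflTransGen.tail ih ⟨hAB h.1, hAB h.2.1, h.2.2⟩

end CB
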