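import Pool.Agent.Helper8.CB.LaneEv
import Pool.Agent.Helper81.Tile.TA

/-!
The cylinder in colour-blind coordinates: reduction modulo `(L, -L)` and the fundamental domain.
-/

set_option autoImplicit false

namespace CB
open Finset

/-- the number of the period of `v` -/
def cylZ (L : ℤ) (v : ℤ × ℤ) : ℤ := (v.1 - v.2 + L) / (2 * L)

/-- reduction modulo `(L, -L)` -/
def cylP (L : ℤ) (v : ℤ × ℤ) : ℤ × ℤ := (v.1 - cylZ L v * L, v.2 + cylZ L v * L)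

/-- the fundamental domain -/
noncomputable def cylF (L H : ℤ) : Finset (ℤ × ℤ) :=
  (Finset.Icc ((-(L + H), -(L + H)) : ℤ × ℤ) (L + H, L + H)).filter
    (fun v => (-L ≤ v.1 - v.2 ∧ v.1 - v.2 < L) ∧ -H ≤ v.1 + v.2 ∧ v.1 + v.2 ≤ H)

lemma mem_cylF {L H : ℤ} {v : ℤ × ℤ} : v ∈ cylF L H ↔
    (-L ≤ v.1 - v.2 ∧ v.1 - v.2 < L) ∧ -H ≤ v.1 + v.2 ∧ v.1 + v.2 ≤ H := by
  unfold cylF
  rw [Finset.mem_filter, Finset.mem_Icc, Prod.le_def, Prod.le_def]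
  simp only
  constructor
  · rintro ⟨-, h⟩
    exact h
  · intro h
    refine ⟨⟨⟨?_, ?_⟩, ?_, ?_⟩, h⟩ <;> omega

lemma cylP_sum (L : ℤ) (v : ℤ × ℤ) : (cylP L v).1 + (cylP L v).2 = v.1 + v.2 := by
  unfold cylP
  simp only
  ring

lemma cylP_diff {L : ℤ} (hL : 1 ≤ L) (v : ℤ × ℤ) :
    -L ≤ (cylP L v).1 - (cylP L v).2 ∧ (cylP L v).1 - (cylP L v).2 < L := by
  have h1 := Int.emod_nonneg (v.1 - v.2 + L) (show 2 * L ≠ 0 by omega)
  have h2 := Int.emod_lt_of_pos (v.1 - v.2 + L) (show 0 < 2 * L by omega)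
  have h3 := Int.mul_ediv_add_emod (v.1 - v.2 + L) (2 * L)
  have e : (cylP L v).1 - (cylP L v).2 = v.1 - v.2 - 2 * L * cylZ L v := by
    unfold cylP
    simp only
    ring
  rw [e]
  unfold cylZ
  constructor <;> linarith

lemma cylP_mem {L H : ℤ} (hL : 1 ≤ L) {v : ℤ × ℤ} (h : |v.1 + v.2| ≤ H) :
    cylP L v ∈ cylF L H := by
  rw [mem_cylF]
  have := abs_le.1 h
  rw [cylP_sum]
  exact ⟨cylP_diff hL v, this.1, this.2⟩

lemma cylZ_shift {L : ℤ} (hL : 1 ≤ L) (z : ℤ) (v : ℤ × ℤ) :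
    cylZ L (v.1 + z * L, v.2 - z * L) = cylZ L v + z := by
  unfold cylZ
  simp only
  rw [show v.1 + z * L - (v.2 - z * L) + L = v.1 - v.2 + L + (2 * L) * z by ring,
    Int.add_mul_ediv_left _ _ (by omega)]

lemma cylP_shift {L : ℤ} (hL : 1 ≤ L) (z : ℤ) (v : ℤ × ℤ) :
    cylP L (v.1 + z * L, v.2 - z * L) = cylP L v := by
  unfold cylP
  rw [cylZ_shift hL]
  ext <;> simp only <;> ring

lemma cylP_eq {L : ℤ} {v v' : ℤ × ℤ} (h : cylP L v = cylP L v') :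
    ∃ z : ℤ, v' = (v.1 + z * L, v.2 - z * L) := by
  unfold cylP at h
  rw [Prod.mk.injEq] at h
  refine ⟨cylZ L v' - cylZ L v, ?_⟩
  ext
  · simp only
    linarith [h.1]
  · simp only
    linarith [h.2]

lemma cylP_id {L : ℤ} {v : ℤ × ℤ} (h1 : -L ≤ v.1 - v.2) (h2 : v.1 - v.2 < L) :
    cylP L v = v := by
  have hz : cylZ L v = 0 := by
    unfold cylZ
    apply Int.ediv_eq_zero_of_lt
    · linarith
    · linarith
  unfold cylP
  rw [hz]
  ext <;> simp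

lemma cylP_idem {L : ℤ} (hL : 1 ≤ L) (v : ℤ × ℤ) : cylP L (cylP L v) = cylP L v :=
  cylP_id (cylP_diff hL v).1 (cylP_diff hL v).2

/-- the hypotheses of helper81's theorem `arm_of_conn` for the periodic configuration of `S` -/
def GCyl (L k N : ℕ) (S : Finset (ℤ × ℤ)) : Prop :=
  H81Tile.Wind (H81Tile.tcM (fun v => cylP L v ∈ S)) L 0 N ∧
  H81Tile.Wind (H81Tile.tcM (fun v => cylP L v ∈ S)) L (-N) 0 ∧
  ∀ (d : H81Tile.DS) (x : ℤ), 0 ≤ x → x < k → (d = H81Tile.up x 0 ∨ d = H81Tile.dn x 0) →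
    H81Tile.ToOdd (H81Tile.tcM (fun v => cylP L v ∈ S)) L k N (H81Tile.lc d, H81Tile.mk d) ∧
    H81Tile.ToOdd (H81Tile.tcM (fun v => cylP L v ∈ S)) L k N (H81Tile.rc d, H81Tile.mk d)

/-- the lane event has positive probability on the cylinder `cylF` -/
theorem LP.lane_cyl (q : LP) {m : ℤ} (hm : 1 ≤ m) {k0 : ℤ} (hk0 : k0 = 0 ∨ k0 = 1) {H : ℤ}
    (hH : 2 * m * (q.s + 4) ≤ H) :
    q.lc ≤ Pool.Agent.Helper69.RSW.P (cylF (2 * m * q.n) H)
      (fun ω => LaneEv q m k0 (pull (cylP (2 * m * q.n)) ω)) := by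
  have hn : 1 ≤ q.n := by
    have := q.hn
    have := q.hW
    have := q.hh
    have := q.hk
    omega
  have hL : 1 ≤ 2 * m * q.n := by nlinarith
  refine q.lane_prob _ _ hm hk0 (fun z v => cylP_shift hL z v) (fun v v' h => cylP_eq h) ?_
  intro v _ h
  exact cylP_mem hL (h.trans hH)

end CB
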