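import Pool.Agent.Helper8.CB.Cyl
import Pool.Agent.Helper81.Tile.Link

/-!
The probability of the event `GCyl` of the cylinder is at most the exact arm probability.
-/

set_option autoImplicit false

namespace CB
open Finset
open H81Tile (TC DS fT fT_tile exists_fT tcM tcM_true Wind ToOdd MConn MStep CConn Jn rows Red cfg
  cfg_per cfg_up cfg_dn P_le_arf arm_of_conn Per)
open Pool.Agent.Helper69.RSW (P_mono P_restrict Dep)

/-- the hypotheses of `arm_of_conn` for the configuration `t` -/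
def GQ (L k N : ℕ) (t : TC) : Prop :=
  Wind t L 0 N ∧ Wind t L (-N) 0 ∧
  ∀ (d : DS) (x : ℤ), 0 ≤ x → x < k → (d = H81Tile.up x 0 ∨ d = H81Tile.dn x 0) →
    ToOdd t L k N (H81Tile.lc d, H81Tile.mk d) ∧ ToOdd t L k N (H81Tile.rc d, H81Tile.mk d)

lemma gCyl_iff {L k N : ℕ} {S : Finset (ℤ × ℤ)} :
    GCyl L k N S ↔ GQ L k N (tcM (fun v => cylP L v ∈ S)) := Iff.rfl

lemma jn_congr {t t' : TC} {p u v : ℤ × ℤ} (h : t p = t' p) (hj : Jn t p u v) : Jn t' p u v := by
  unfold Jn at *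
  rw [← h]
  exact hj

lemma cconn_congr {t t' : TC} {R : Set (ℤ × ℤ)} (h : ∀ p ∈ R, t p = t' p) {u v : ℤ × ℤ}
    (hc : CConn t R u v) : CConn t' R u v := by
  unfold CConn at *
  induction hc with
  | refl => exact Relation.ReflTransGen.refl
  | tail _ h2 ih =>
    obtain ⟨p, hp, h3⟩ := h2
    exact ih.tail ⟨p, hp, jn_congr (h p hp) h3⟩

lemma mconn_congr {t t' : TC} {L k N : ℕ} (h : ∀ p ∈ rows (-(N : ℤ)) N, t p = t' p)
    {u v : (ℤ × ℤ) × Bool} (hc : MConn t L k N u v) : MConn t' L k N u v := by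
  unfold MConn at *
  induction hc with
  | refl => exact Relation.ReflTransGen.refl
  | tail _ h2 ih =>
    refine ih.tail ?_
    rcases h2 with ⟨p, hp, h3, h4, h5⟩ | h2
    · exact Or.inl ⟨p, hp, h3, h4, jn_congr (h p hp) h5⟩
    · exact Or.inr h2

lemma gq_congr {L k N : ℕ} (t t' : TC) (h : ∀ p ∈ rows (-(N : ℤ)) N, t p = t' p)
    (hQ : GQ L k N t) : GQ L k N t' := by
  obtain ⟨⟨u, hu⟩, ⟨v, hv⟩, hd⟩ := hQ
  refine ⟨⟨u, cconn_congr (fun p hp => h p ?_) hu⟩, ⟨v, cconn_congr (fun p hp => h p ?_) hv⟩, ?_⟩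
  · exact ⟨by have := hp.1; omega, hp.2⟩
  · exact ⟨hp.1, by have := hp.2; omega⟩
  · intro d x h0 h1 h2
    obtain ⟨⟨j, s, a1, a2, a3, bb, a4⟩, ⟨j', s', b1, b2, b3, bb', b4⟩⟩ := hd d x h0 h1 h2
    exact ⟨⟨j, s, a1, a2, a3, bb, mconn_congr h a4⟩, ⟨j', s', b1, b2, b3, bb', mconn_congr h b4⟩⟩

open Classical in
/-- the tiles of the fundamental domain -/
noncomputable def cylO (L H : ℤ) : Finset (ℤ × ℤ) := (cylF L H).filter (fun v => TA.IsTile v)

open Classical in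
lemma mem_cylO {L H : ℤ} {v : ℤ × ℤ} : v ∈ cylO L H ↔
    ((-L ≤ v.1 - v.2 ∧ v.1 - v.2 < L) ∧ -H ≤ v.1 + v.2 ∧ v.1 + v.2 ≤ H) ∧ TA.IsTile v := by
  unfold cylO
  rw [mem_filter, mem_cylF]

lemma cylP_tile {L : ℤ} {v : ℤ × ℤ} (h : TA.IsTile v) : TA.IsTile (cylP L v) := by
  unfold TA.IsTile at *
  rw [cylP_sum]
  exact h

lemma red_cyl {L N : ℕ} (hL : 0 < L) : Red L N (cylP L) (cylO L (2 * N - 1)) where
  iff := by
    rintro ⟨a, b⟩ ⟨a', b'⟩ - -
    constructor
    · intro h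
      obtain ⟨z, hz⟩ := cylP_eq h
      unfold fT at hz
      simp only [Prod.mk.injEq] at hz
      obtain ⟨h1, h2⟩ := hz
      refine ⟨by simp only; omega, ?_⟩
      have h3 : a' = a + z * L := by omega
      simp only
      rw [h3, Int.add_mul_emod_self_right]
    · rintro ⟨h1, h2⟩
      simp only at h1 h2
      subst h1
      have h3 : (L : ℤ) ∣ a' - a := by
        apply Int.dvd_of_emod_eq_zero
        rw [Int.sub_emod, h2]
        simp
      obtain ⟨z, hz⟩ := h3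
      have h4 : fT (a', b) = ((fT (a, b)).1 + z * L, (fT (a, b)).2 - z * L) := by
        unfold fT
        simp only
        have : a' = a + z * L := by rw [mul_comm] at hz; omega
        rw [this]
        ext <;> simp only <;> ring
      rw [h4, cylP_shift (by exact_mod_cast hL)]
  mem := by
    intro x
    rw [mem_cylO]
    constructor
    · rintro ⟨⟨⟨h1, h2⟩, h3, h4⟩, h5⟩
      obtain ⟨p, hp⟩ := exists_fT h5
      refine ⟨p, ?_, ?_⟩
      · rw [hp] at h3 h4
        unfold fT at h3 h4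
        unfold rows
        simp only [Set.mem_ofPred_eq] at h3 h4 ⊢
        omega
      · rw [← hp, cylP_id h1 h2]
    · rintro ⟨p, ⟨h1, h2⟩, rfl⟩
      have h3 := cylP_diff (show (1 : ℤ) ≤ L by exact_mod_cast hL) (fT p)
      refine ⟨⟨h3, ?_⟩, cylP_tile (fT_tile p)⟩
      rw [cylP_sum]
      unfold fT
      simp only
      omega

/-- **probability link** -/
theorem gCyl_le {L k N : ℕ} (hL : 0 < L) (hN : 0 < N) (hk : k ≤ L) :
    Pool.Agent.Helper69.RSW.P (cylF L (2 * N - 1)) (GCyl L k N) ≤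
      IPC.bil (IPC.arf k k) (IPC.P L (fun _ => 0)) (IPC.P L (fun _ => 0)) := by
  classical
  have hsub : cylO (L : ℤ) (2 * N - 1) ⊆ cylF (L : ℤ) (2 * N - 1) := by
    unfold cylO
    exact filter_subset _ _
  have hR := red_cyl (N := N) hL
  have hdep : Dep (cylO (L : ℤ) (2 * N - 1)) (GCyl L k N) := by
    intro S
    have key : ∀ p ∈ rows (-(N : ℤ)) N, tcM (fun v => cylP L v ∈ S) p =
        tcM (fun v => cylP L v ∈ S ∩ cylO (L : ℤ) (2 * N - 1)) p := by
      intro p hp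
      have h1 : cylP L (fT p) ∈ cylO (L : ℤ) (2 * N - 1) := (hR.mem _).2 ⟨p, hp, rfl⟩
      have e : ∀ b b' : Bool, (b = true ↔ b' = true) → b = b' := by decide
      apply e
      rw [tcM_true, tcM_true, mem_inter]
      exact ⟨fun h => ⟨h, h1⟩, fun h => h.1⟩
    rw [gCyl_iff, gCyl_iff]
    exact ⟨gq_congr _ _ key, gq_congr _ _ (fun p hp => (key p hp).symm)⟩
  rw [P_restrict hsub hdep]
  refine P_le_arf hL (k := k) (Q := GQ L k N) hR (fun t t' h hQ => gq_congr t t' h hQ) ?_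
  intro A B hQ σ hσ τ hτ
  exact arm_of_conn hL hN hk (cfg_per L A B) (fun j _ i hi => cfg_up hi)
    (fun j _ i hi => cfg_dn hi) hσ hτ hQ.1 hQ.2.1 hQ.2.2

end CB
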