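import Pool.Agent.Helper8.CB.LaneEv
import Pool.Agent.Helper47.Arms.KDefs

/-!
Clockwise enumeration of the `2k` exits of a box; the lane data of the exits.
-/

set_option autoImplicit false

namespace CB
open Finset TA

/-- sorting a finite set by an injective key -/
lemma exists_sorting {β : Type*} (I : Finset β) (key : β → ℤ)
    (hkey : ∀ p ∈ I, ∀ p' ∈ I, key p = key p' → p = p') {N : ℤ} (hN : (I.card : ℤ) = N)
    (hne : I.Nonempty) :
    ∃ e : ℤ → β, (∀ i, 1 ≤ i → i ≤ N → e i ∈ I) ∧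
      (∀ p ∈ I, ∃ i, 1 ≤ i ∧ i ≤ N ∧ e i = p) ∧
      (∀ i j, 1 ≤ i → i < j → j ≤ N → key (e i) < key (e j)) := by
  classical
  obtain ⟨p0, hp0⟩ := hne
  have hcard : (I.image key).card = I.card := card_image_of_injOn (fun a ha b hb h =>
    hkey a ha b hb h)
  obtain ⟨E, hE⟩ : ∃ E : Fin I.card ↪o ℤ, E = (I.image key).orderEmbOfFin hcard := ⟨_, rfl⟩
  have hmem : ∀ x : Fin I.card, ∃ p ∈ I, key p = E x := by
    intro x
    have h1 : (I.image key).orderEmbOfFin hcard x ∈ I.image key := orderEmbOfFin_mem _ _ _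
    rw [← hE, mem_image] at h1
    exact h1
  have hran : ∀ p ∈ I, ∃ x : Fin I.card, E x = key p := by
    intro p hp
    have h1 : key p ∈ (I.image key : Set ℤ) := by
      rw [mem_coe, mem_image]
      exact ⟨p, hp, rfl⟩
    rw [← range_orderEmbOfFin (I.image key) hcard, ← hE] at h1
    exact h1
  choose φ hφ1 hφ2 using hmem
  have hpos : 0 < I.card := card_pos.2 ⟨p0, hp0⟩
  refine ⟨fun i => if h : 1 ≤ i ∧ i ≤ N then φ ⟨(i - 1).toNat, by omega⟩ else p0, ?_, ?_, ?_⟩
  · intro i h1 h2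
    simp only
    rw [dif_pos ⟨h1, h2⟩]
    exact hφ1 _
  · intro p hp
    obtain ⟨x, hx⟩ := hran p hp
    have hx2 := x.2
    refine ⟨(x : ℕ) + 1, by omega, by omega, ?_⟩
    simp only
    rw [dif_pos ⟨by omega, by omega⟩]
    apply hkey _ (hφ1 _) _ hp
    rw [hφ2, ← hx]
    congr 1
    apply Fin.ext
    simp
  · intro i j h1 h2 h3
    simp only
    rw [dif_pos ⟨h1, by omega⟩, dif_pos ⟨by omega, h3⟩, hφ2, hφ2]
    apply E.strictMono
    rw [Fin.lt_def]
    simp only
    omega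

/-- the clockwise enumeration of the exits: the end `(ej i, eb i)` is the exit `i` of the lane
data `q` -/
structure Enum (q : LP) (m : ℤ) (r r' : ℤ → Ray) (ej : ℤ → ℤ) (eb : ℤ → Bool) : Prop where
  mem : ∀ i, 1 ≤ i → i ≤ 2 * q.k → 1 ≤ ej i ∧ ej i ≤ q.k
  surj : ∀ j, 1 ≤ j → j ≤ q.k → ∀ b, ∃ i, 1 ≤ i ∧ i ≤ 2 * q.k ∧ ej i = j ∧ eb i = b
  inj : ∀ i i', 1 ≤ i → i ≤ 2 * q.k → 1 ≤ i' → i' ≤ 2 * q.k → ej i = ej i' → eb i = eb i' → i = i'
  cell : ∀ i, 1 ≤ i → i ≤ 2 * q.k → 2 * m * q.x i ≤ (er r r' (ej i) (eb i)).col ∧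
    (er r r' (ej i) (eb i)).col < 2 * m * (q.x i + 1)
  up : ∀ i, 1 ≤ i → i ≤ 2 * q.k → ((er r r' (ej i) (eb i)).up = true ↔ i ≤ q.a)

/-- **the lane data of the exits** -/
theorem exists_enum {k W h n m : ℤ} (hk : 1 ≤ k) (hh : 5 ≤ h) (hW : 5 ≤ W)
    (hn : 2 * W + 2 * h + 10 * k + 30 ≤ n) (hm : 1 ≤ m) {r r' : ℤ → Ray}
    (hcol : ∀ j, 1 ≤ j → j ≤ k → ∀ b, -(2 * m * W) ≤ (er r r' j b).col ∧
      (er r r' j b).col < 2 * m * W)
    (hfar : ∀ j b j' b', 1 ≤ j → j ≤ k → 1 ≤ j' → j' ≤ k → (j, b) ≠ (j', b') →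
      (er r r' j b).up = (er r r' j' b').up →
      (er r r' j b).col / (2 * m) + 6 ≤ (er r r' j' b').col / (2 * m) ∨
      (er r r' j' b').col / (2 * m) + 6 ≤ (er r r' j b).col / (2 * m)) :
    ∃ (q : LP) (ej : ℤ → ℤ) (eb : ℤ → Bool), q.k = k ∧ q.W = W ∧ q.h = h ∧ q.n = n ∧
      Enum q m r r' ej eb := by
  classical
  obtain ⟨I, hI⟩ : ∃ I : Finset (ℤ × Bool), I = Icc 1 k ×ˢ univ := ⟨_, rfl⟩
  have memI : ∀ j b, (j, b) ∈ I ↔ 1 ≤ j ∧ j ≤ k := by
    intro j b
    rw [hI, mem_product, mem_Icc]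
    simp
  have cardI : (I.card : ℤ) = 2 * k := by
    rw [hI, card_product, Int.card_Icc, card_univ, Fintype.card_bool]
    push_cast
    omega
  obtain ⟨X, hX⟩ : ∃ X : ℤ × Bool → ℤ, X = fun p => (er r r' p.1 p.2).col / (2 * m) := ⟨_, rfl⟩
  obtain ⟨u, hu⟩ : ∃ u : ℤ × Bool → Bool, u = fun p => (er r r' p.1 p.2).up := ⟨_, rfl⟩
  have hXb : ∀ p ∈ I, 2 * m * X p ≤ (er r r' p.1 p.2).col ∧
      (er r r' p.1 p.2).col < 2 * m * (X p + 1) ∧ -W ≤ X p ∧ X p < W := by
    intro p hp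
    obtain ⟨h1, h2⟩ := (memI p.1 p.2).1 hp
    obtain ⟨h3, h4⟩ := hcol p.1 h1 h2 p.2
    rw [hX]
    simp only
    have h2m : 0 < 2 * m := by omega
    refine ⟨Int.mul_ediv_self_le (by omega), Int.lt_mul_ediv_self_add h2m |>.trans_eq (by ring),
      ?_, ?_⟩
    · rw [Int.le_ediv_iff_mul_le h2m]
      linarith
    · rw [Int.ediv_lt_iff_lt_mul h2m]
      linarith
  have hXf : ∀ p ∈ I, ∀ p' ∈ I, p ≠ p' → u p = u p' → X p + 6 ≤ X p' ∨ X p' + 6 ≤ X p := by
    intro p hp p' hp' hne hup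
    obtain ⟨h1, h2⟩ := (memI p.1 p.2).1 hp
    obtain ⟨h3, h4⟩ := (memI p'.1 p'.2).1 hp'
    rw [hX]
    rw [hu] at hup
    exact hfar p.1 p.2 p'.1 p'.2 h1 h2 h3 h4 hne hup
  obtain ⟨key, hkey⟩ : ∃ key : ℤ × Bool → ℤ, key = fun p => if u p = true then X p
      else 3 * W - X p := ⟨_, rfl⟩
  have hk1 : ∀ p ∈ I, u p = true → key p = X p ∧ key p < W := by
    intro p hp h
    have := (hXb p hp).2.2
    rw [hkey]
    simp only
    rw [if_pos h]
    omega
  have hk2 : ∀ p ∈ I, ¬ u p = true → key p = 3 * W - X p ∧ 2 * W < key p := by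
    intro p hp h
    have := (hXb p hp).2.2
    rw [hkey]
    simp only
    rw [if_neg h]
    omega
  have hinj : ∀ p ∈ I, ∀ p' ∈ I, key p = key p' → p = p' := by
    intro p hp p' hp' h
    by_contra hne
    by_cases h1 : u p = true <;> by_cases h2 : u p' = true
    · have a1 := hk1 p hp h1
      have a2 := hk1 p' hp' h2
      have := hXf p hp p' hp' hne (by rw [h1, h2])
      omega
    · have a1 := hk1 p hp h1
      have a2 := hk2 p' hp' h2
      omega
    · have a1 := hk2 p hp h1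
      have a2 := hk1 p' hp' h2
      omega
    · have a1 := hk2 p hp h1
      have a2 := hk2 p' hp' h2
      have := hXf p hp p' hp' hne (by
        rw [Bool.not_eq_true] at h1 h2
        rw [h1, h2])
      omega
  obtain ⟨e, he1, he2, he3⟩ := exists_sorting I key hinj cardI
    ⟨(1, true), (memI _ _).2 ⟨le_rfl, hk⟩⟩
  -- the number of exits at the top
  obtain ⟨a, ha0, ha2, ha⟩ : ∃ a : ℤ, 0 ≤ a ∧ a ≤ 2 * k ∧
      ∀ i, 1 ≤ i → i ≤ 2 * k → (u (e i) = true ↔ i ≤ a) := by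
    have hmono : ∀ i j, 1 ≤ i → i < j → j ≤ 2 * k → u (e j) = true → u (e i) = true := by
      intro i j h1 h2 h3 h4
      by_contra h5
      have a1 := hk1 _ (he1 j (by omega) h3) h4
      have a2 := hk2 _ (he1 i h1 (by omega)) h5
      have a3 := he3 i j h1 h2 h3
      omega
    by_cases hex : ∃ i : ℕ, 1 ≤ (i : ℤ) ∧ (i : ℤ) ≤ 2 * k ∧ ¬ u (e i) = true
    · obtain ⟨h1, h2, h3⟩ := Nat.find_spec hex
      have hmin := fun j hj => Nat.find_min hex (m := j) hj
      generalize Nat.find hex = i0 at *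
      refine ⟨(i0 : ℤ) - 1, by omega, by omega, fun i h4 h5 => ⟨fun h6 => ?_, fun h6 => ?_⟩⟩
      · by_contra h7
        rcases eq_or_lt_of_le (show (i0 : ℤ) ≤ i by omega) with h8 | h8
        · rw [h8] at h3
          exact h3 h6
        · exact h3 (hmono _ _ h1 h8 h5 h6)
      · by_contra h7
        have := hmin i.toNat (by omega)
        apply this
        rw [Int.toNat_of_nonneg (by omega)]
        exact ⟨h4, h5, h7⟩
    · push Not at hex
      refine ⟨2 * k, by omega, le_rfl, fun i h4 h5 => ⟨fun _ => h5, fun _ => ?_⟩⟩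
      have := hex i.toNat
      rw [Int.toNat_of_nonneg (by omega)] at this
      exact this h4 h5
  have hxx : ∀ i, 1 ≤ i → i ≤ 2 * k → -W ≤ X (e i) ∧ X (e i) < W := fun i h1 h2 =>
    (hXb _ (he1 i h1 h2)).2.2
  have hne : ∀ i j, 1 ≤ i → i < j → j ≤ 2 * k → e i ≠ e j := by
    intro i j h1 h2 h3 h4
    have := he3 i j h1 h2 h3
    rw [h4] at this
    omega
  let q : LP :=
    { k := k, W := W, h := h, n := n, a := a, x := fun i => X (e i), hk := hk, hh := hh, hW := hW,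
      hn := hn, ha := ha0, ha' := ha2, hx := hxx,
      htop := by
        intro i j h1 h2 h3
        have u1 := (ha i h1 (by omega)).2 (by omega)
        have u2 := (ha j (by omega) (by omega)).2 h3
        have a1 := hk1 _ (he1 i h1 (by omega)) u1
        have a2 := hk1 _ (he1 j (by omega) (by omega)) u2
        have a3 := he3 i j h1 h2 (by omega)
        have a4 := hXf _ (he1 i h1 (by omega)) _ (he1 j (by omega) (by omega))
          (hne i j h1 h2 (by omega)) (by rw [u1, u2])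
        omega
      hbot := by
        intro i j h1 h2 h3
        have u1 : ¬ u (e i) = true := fun h => by
          have := (ha i (by omega) (by omega)).1 h
          omega
        have u2 : ¬ u (e j) = true := fun h => by
          have := (ha j (by omega) (by omega)).1 h
          omega
        have a1 := hk2 _ (he1 i (by omega) (by omega)) u1
        have a2 := hk2 _ (he1 j (by omega) (by omega)) u2
        have a3 := he3 i j (by omega) h2 (by omega)
        have a4 := hXf _ (he1 i (by omega) (by omega)) _ (he1 j (by omega) (by omega))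
          (hne i j (by omega) h2 (by omega)) (by
            rw [Bool.not_eq_true] at u1 u2
            rw [u1, u2])
        omega }
  refine ⟨q, fun i => (e i).1, fun i => (e i).2, rfl, rfl, rfl, rfl, ?_, ?_, ?_, ?_, ?_⟩
  · intro i h1 h2
    exact (memI _ _).1 (he1 i h1 h2)
  · intro j h1 h2 b
    obtain ⟨i, h3, h4, h5⟩ := he2 (j, b) ((memI _ _).2 ⟨h1, h2⟩)
    exact ⟨i, h3, h4, by rw [h5], by rw [h5]⟩
  · intro i i' h1 h2 h3 h4 h5 h6
    rcases lt_trichotomy i i' with h | h | h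
    · exact absurd (Prod.ext h5 h6) (hne i i' h1 h h4)
    · exact h
    · exact absurd (Prod.ext h5 h6).symm (hne i' i h3 h h2)
  · intro i h1 h2
    have := hXb _ (he1 i h1 h2)
    exact ⟨this.1, this.2.1⟩
  · intro i h1 h2
    have := ha i h1 h2
    rw [hu] at this
    exact this

end CB
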