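import Pool.Agent.Helper8.CB.FarDet
import Pool.Agent.Helper57.Arm.Final

/-!
The far hypothesis of helper57, and the upper bound of the probability of `2k` arms.
-/

set_option autoImplicit false

namespace CB
open Finset
open Arm57 (bx SdX NearX mix mem_bx FarHyp fA Expl)
open TA (Arms explK)
open Pool.Agent.Helper69.RSW (P P_mono)

/-- **the far hypothesis** -/
theorem farHyp {k : ℕ} (hk : 1 ≤ k) {α : ℝ} (hα : 0 ≤ α) {C : ℝ} (hC : 0 ≤ C)
    (hb : ∀ L : ℕ, k ≤ L → IPC.bil (IPC.arf k k) (IPC.P L (fun _ => 0)) (IPC.P L (fun _ => 0)) ≤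
      C * (L : ℝ) ^ (-α)) : FarHyp k (explK k) α := by
  intro W
  obtain ⟨W', hW'⟩ : ∃ W' : ℤ, W' = max W 5 := ⟨_, rfl⟩
  have hW1 : W ≤ W' := hW' ▸ le_max_left _ _
  have hW2 : 5 ≤ W' := hW' ▸ le_max_right _ _
  obtain ⟨n, hn⟩ : ∃ n : ℤ, n = 4 * W' + 10 * k + 30 := ⟨_, rfl⟩
  have hk' : (1 : ℤ) ≤ k := by exact_mod_cast hk
  have hn1 : 1 ≤ n := by omega
  refine ⟨fun m => cylF ((2 * m * n).toNat : ℤ) (2 * ((m * (2 * n + 4) + 1).toNat : ℤ) - 1),
    fun m => GCyl (2 * m * n).toNat k (m * (2 * n + 4) + 1).toNat, C, ?_, ?_, ?_⟩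
  · intro m hm v hv
    have e1 : ((2 * m * n).toNat : ℤ) = 2 * m * n := Int.toNat_of_nonneg (by positivity)
    have e2 : ((m * (2 * n + 4) + 1).toNat : ℤ) = m * (2 * n + 4) + 1 :=
      Int.toNat_of_nonneg (by positivity)
    rw [mem_cylF, e1, e2]
    refine ⟨bx_central (n := n) hm (by omega) hv, ?_⟩
    rw [mem_bx] at hv
    have h1 : m * (2 * W) ≤ m * (2 * n + 4) := mul_le_mul_of_nonneg_left (by omega) (by omega)
    have h2 : m * (2 * W) = 2 * m * W := by ring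
    have h3 : 0 ≤ m * (2 * n + 4) := by positivity
    constructor <;> omega
  · intro m hm
    have hmn : 1 ≤ 2 * m * n := by nlinarith
    have hmk : (k : ℤ) ≤ 2 * m * n := by nlinarith
    have hmm : m ≤ 2 * m * n := by nlinarith
    have e1 : ((2 * m * n).toNat : ℤ) = 2 * m * n := Int.toNat_of_nonneg (by omega)
    have h3 : 0 ≤ m * (2 * n + 4) := by positivity
    refine (gCyl_le (by omega) (by omega) (by omega)).trans ((hb _ (by omega)).trans ?_)
    apply mul_le_mul_of_nonneg_left _ hC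
    have hmr : (0 : ℝ) < m := by exact_mod_cast (show (0 : ℤ) < m by omega)
    have hLr : (m : ℝ) ≤ ((2 * m * n).toNat : ℝ) := by
      have : ((m : ℤ) : ℝ) ≤ (((2 * m * n).toNat : ℤ) : ℝ) := by
        rw [e1]
        exact_mod_cast hmm
      exact_mod_cast this
    exact Real.rpow_le_rpow_of_nonpos hmr hLr (by linarith)
  · intro w h hh hw hwW
    refine ⟨nc ^ (2 * (2 * (2 * (n + 2 * w + 2 * h + 10 * k + 30)) + 1).toNat ^ 2),
      pow_pos nc_pos _, ?_⟩
    intro m hkm S hS c nn t ha hs hN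
    have hm : 1 ≤ m := by omega
    have hn2 : 2 * w + 2 * h + 10 * (k : ℤ) + 30 ≤ n := by omega
    obtain ⟨q, k0, qk, qW, qh, qn, hk0, hdet⟩ := far_det hk' hkm hh hw hn2 ha hs hN
    have e1 : ((2 * m * n).toNat : ℤ) = 2 * m * n := Int.toNat_of_nonneg (by positivity)
    have e2 : ((m * (2 * n + 4) + 1).toNat : ℤ) = m * (2 * n + 4) + 1 :=
      Int.toNat_of_nonneg (by positivity)
    have hs1 : q.s = n + 2 * w + 2 * h + 10 * k + 30 := by
      rw [q.s_eq, qn, qW, qh, qk]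
    have hs2 : q.s + 4 ≤ 2 * n + 4 := by omega
    have h4 : m * (q.s + 4) ≤ m * (2 * n + 4) := mul_le_mul_of_nonneg_left hs2 (by omega)
    have hlc : q.lc = nc ^ (2 * (2 * (2 * (n + 2 * w + 2 * h + 10 * k + 30)) + 1).toNat ^ 2) := by
      unfold LP.lc LP.RB
      rw [hs1]
    rw [← hlc]
    have h5 := q.lane_cyl hm hk0 (H := 2 * ((m * (2 * n + 4) + 1).toNat : ℤ) - 1) (by
      rw [e2]
      have : 2 * m * (q.s + 4) = 2 * (m * (q.s + 4)) := by ring
      omega)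
    have h6 : 2 * m * q.n = ((2 * m * n).toNat : ℤ) := by rw [e1, qn]
    rw [h6] at h5
    refine h5.trans (P_mono ?_)
    intro S2 _ hl
    refine hdet S2 ?_ _ _ _ e1 rfl ?_
    · rw [h6]
      exact hl
    · rw [e2]
      omega

/-- **upper bound of the probability of `2k` arms**, given the upper bound of the exact value -/
theorem arm_upper_of {k : ℕ} (hk : 1 ≤ k) {α : ℝ} (hα : 0 < α) {C : ℝ} (hC : 0 ≤ C)
    (hb : ∀ L : ℕ, k ≤ L → IPC.bil (IPC.arf k k) (IPC.P L (fun _ => 0)) (IPC.P L (fun _ => 0)) ≤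
      C * (L : ℝ) ^ (-α)) :
    ∃ C' : ℝ, 0 < C' ∧ ∀ n : ℕ, 1 ≤ n → fA k n ≤ C' * (n : ℝ) ^ (-α) :=
  Arm57.arm_upper (Arm57.expl_explK k) (by exact_mod_cast hk) hα (farHyp hk hα.le hC hb)

end CB
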