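import Pool.Agent.Helper8.CB.CylLink
import Pool.Agent.Helper8.CB.Enum
import Pool.Agent.Helper47.Arms.KGap
import Pool.Agent.Helper47.Arms.KAsm
import Pool.Agent.Helper57.Arm.Main

/-!
Far exits: the lane event gives the event `GCyl` for the resampled configuration.
-/

set_option autoImplicit false

namespace CB
open Finset
open Arm57 (bx SdX NearX mix armsE_std mem_bx)
open TA (Arms ArmsE explK er ray0 rayN visited)

/-- the central box is not wrapped around the cylinder -/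
lemma bx_central {m w h n : ℤ} (hm : 1 ≤ m) (hn : w + h ≤ n) {v : ℤ × ℤ} (hv : v ∈ bx m w h) :
    -(2 * m * n) ≤ v.1 - v.2 ∧ v.1 - v.2 < 2 * m * n := by
  rw [mem_bx] at hv
  have h1 : 2 * m * (w + h) ≤ 2 * m * n := mul_le_mul_of_nonneg_left hn (by omega)
  have h2 : 2 * m * (w + h) = 2 * m * w + 2 * m * h := by ring
  constructor <;> omega

/-- tiles of cells outside the boxes are not in the box after reduction -/
lemma out_not_bx (q : LP) {m : ℤ} (hm : 1 ≤ m) {v : ℤ × ℤ} (hv : v ∈ Reg m q.Out) :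
    cylP (2 * m * q.n) v ∉ bx m q.W q.h := by
  intro hb
  rw [mem_bx] at hb
  obtain ⟨c, hc, v1, v2, v3, v4⟩ := hv
  obtain ⟨z, hz⟩ : ∃ z, z = cylZ (2 * m * q.n) v := ⟨_, rfl⟩
  unfold cylP at hb
  rw [← hz] at hb
  simp only at hb
  obtain ⟨b1, b2, b3, b4⟩ := hb
  have e1 : z * (2 * m * q.n) = 2 * m * (z * q.n) := by ring
  rw [e1] at b1 b2 b3 b4
  have hT := hc.1 z
  apply hT
  generalize z * q.n = T at *
  clear hz e1 hT
  have hlt : ∀ a b : ℤ, 2 * m * a < 2 * m * b → a < b := fun a b h => lt_of_mul_lt_mul_left h (by omega)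
  refine ⟨?_, ?_, ?_, ?_⟩
  · have : -q.W < c.1 - T + 1 := by
      apply hlt
      have e2 : 2 * m * (c.1 - T + 1) = 2 * m * (c.1 + 1) - 2 * m * T := by ring
      have e3 : 2 * m * -q.W = -(2 * m * q.W) := by ring
      omega
    omega
  · apply hlt
    have e2 : 2 * m * (c.1 - T) = 2 * m * c.1 - 2 * m * T := by ring
    omega
  · have : -q.h < c.2 + T + 1 := by
      apply hlt
      have e2 : 2 * m * (c.2 + T + 1) = 2 * m * (c.2 + 1) + 2 * m * T := by ring
      have e3 : 2 * m * -q.h = -(2 * m * q.h) := by ring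
      omega
    omega
  · apply hlt
    have e2 : 2 * m * (c.2 + T) = 2 * m * c.2 + 2 * m * T := by ring
    omega

/-- the tiles of the `U` are central -/
lemma u_central (q : LP) {m : ℤ} (hm : 1 ≤ m) {i : ℤ} (h1 : 1 ≤ i) (h2 : i ≤ 2 * q.k) {v : ℤ × ℤ}
    (hv : v ∈ Reg m {c | q.U i c}) :
    -(2 * m * q.n) ≤ v.1 - v.2 ∧ v.1 - v.2 < 2 * m * q.n := by
  obtain ⟨c, hc, v1, v2, v3, v4⟩ := hv
  have hx := q.hx i h1 h2
  have hn := q.hn
  have hW := q.hW
  have hh := q.hh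
  have hk := q.hk
  have hb : -q.n + 1 ≤ c.1 - c.2 ∧ c.1 - c.2 ≤ q.n - 1 := by
    simp only [Set.mem_ofPred_eq] at hc
    unfold LP.U Rc LP.fx LP.fx' LP.ulo LP.uhi LP.uy at hc
    split_ifs at hc <;> omega
  have m1 := mul_le_mul_of_nonneg_left hb.1 (show 0 ≤ 2 * m by omega)
  have m2 := mul_le_mul_of_nonneg_left hb.2 (show 0 ≤ 2 * m by omega)
  have e1 : 2 * m * (c.1 - c.2) = 2 * m * c.1 - 2 * m * c.2 := by ring
  have e2 : 2 * m * (-q.n + 1) = -(2 * m * q.n) + 2 * m := by ring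
  have e3 : 2 * m * (q.n - 1) = 2 * m * q.n - 2 * m := by ring
  have e4 : 2 * m * (c.1 + 1) = 2 * m * c.1 + 2 * m := by ring
  have e5 : 2 * m * (c.2 + 1) = 2 * m * c.2 + 2 * m := by ring
  omega

/-- **deterministic part of the far step** -/
theorem far_det {k m w h n : ℤ} (hk : 1 ≤ k) (hkm : k + 2 ≤ m) (hh : 5 ≤ h) (hw : h ≤ w)
    (hn : 2 * w + 2 * h + 10 * k + 30 ≤ n) {S : Finset (ℤ × ℤ)} {c : ℤ → ℕ → ℤ × ℤ} {nn t : ℤ → ℕ}
    (ha : Arms (· ∈ S) k (bx m w h : Set (ℤ × ℤ)) c nn t) (hs : ¬ SdX (2 * m * w - 1) k c nn)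
    (hN : ¬ NearX m k c nn) :
    ∃ (q : LP) (k0 : ℤ), q.k = k ∧ q.W = w ∧ q.h = h ∧ q.n = n ∧ (k0 = 0 ∨ k0 = 1) ∧
      ∀ S2 : Finset (ℤ × ℤ), LaneEv q m k0 (pull (cylP (2 * m * q.n)) S2) →
      ∀ (L kk N : ℕ), (L : ℤ) = 2 * m * n → (kk : ℤ) = k → m * (q.s + 4) ≤ N →
      GCyl L kk N (mix (explK k (bx m w h) S) S S2) := by
  have hm : 1 ≤ m := by omega
  have hE := armsE_std hk hkm (by omega) (by omega) ha hs
  have hcol : ∀ j, 1 ≤ j → j ≤ k → ∀ b,
      -(2 * m * w) ≤ (er (fun j => ray0 (c j)) (fun j => rayN (c j) (nn j)) j b).col ∧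
      (er (fun j => ray0 (c j)) (fun j => rayN (c j) (nn j)) j b).col < 2 * m * w := by
    intro j h1 h2 b
    have h3 := Arm57.ArmsE.exit hE h1 h2 b
    unfold SdX at hs
    push Not at hs
    have h4 := hs j b h1 h2
    obtain ⟨g1, g2, -, -⟩ := h3
    constructor <;> omega
  have hfar : ∀ j b j' b', 1 ≤ j → j ≤ k → 1 ≤ j' → j' ≤ k → (j, b) ≠ (j', b') →
      (er (fun j => ray0 (c j)) (fun j => rayN (c j) (nn j)) j b).up =
        (er (fun j => ray0 (c j)) (fun j => rayN (c j) (nn j)) j' b').up →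
      (er (fun j => ray0 (c j)) (fun j => rayN (c j) (nn j)) j b).col / (2 * m) + 6 ≤
        (er (fun j => ray0 (c j)) (fun j => rayN (c j) (nn j)) j' b').col / (2 * m) ∨
      (er (fun j => ray0 (c j)) (fun j => rayN (c j) (nn j)) j' b').col / (2 * m) + 6 ≤
        (er (fun j => ray0 (c j)) (fun j => rayN (c j) (nn j)) j b).col / (2 * m) := by
    intro j b j' b' h1 h2 h3 h4 hne hup
    by_contra hcon
    push Not at hcon
    obtain ⟨g1, g2⟩ := hcon
    apply hN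
    rcases le_total ((er (fun j => ray0 (c j)) (fun j => rayN (c j) (nn j)) j b).col / (2 * m))
      ((er (fun j => ray0 (c j)) (fun j => rayN (c j) (nn j)) j' b').col / (2 * m)) with h5 | h5
    · exact ⟨j, j', b, b', hne, ⟨h1, h2⟩, ⟨h3, h4⟩, hup, h5, by omega⟩
    · exact ⟨j', j, b', b, fun h => hne h.symm, ⟨h3, h4⟩, ⟨h1, h2⟩, hup.symm, h5, by omega⟩
  obtain ⟨q, ej, eb, rfl, rfl, rfl, rfl, E⟩ := exists_enum hk hh (by omega) hn hm hcol hfar
  have q1 : 2 * m * (q.h - 2) = 2 * m * q.h - 4 * m := by ring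
  have q2 : 2 * m * 2 ≤ 2 * m * (q.h - 3) := mul_le_mul_of_nonneg_left (by omega) (by omega)
  obtain ⟨k0, hk0, hatt⟩ := TA.gap_stmt hm hE E (by omega) (by omega) (by omega)
  refine ⟨q, k0, rfl, rfl, rfl, rfl, hk0, fun S2 hlane L kk N hL hkk hNN => ?_⟩
  have hn' : 1 ≤ q.n := by omega
  have hL1 : 1 ≤ 2 * m * q.n := by nlinarith
  -- the configuration on the central tiles
  have hvis : ∀ v ∈ visited q.k c nn, (cylP (2 * m * q.n) v ∈
      mix (explK q.k (bx m q.W q.h) S) S S2 ↔ v ∈ S) := by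
    intro v hv
    have hv' : v ∈ bx m q.W q.h := Finset.mem_coe.1 (ha.visited_sub hv)
    obtain ⟨c1, c2⟩ := bx_central (n := q.n) hm (by omega) hv'
    rw [cylP_id c1 c2]
    exact TA.mix_visited ha v hv
  have hfin := TA.far_final (q := q) (m := m)
    (M := fun v => cylP (2 * m * q.n) v ∈ mix (explK q.k (bx m q.W q.h) S) S S2)
    (D := (bx m q.W q.h : Set (ℤ × ℤ))) (c := c) (n := nn) (t := t)
    (S2 := pull (cylP (2 * m * q.n)) S2) hm (by omega) (fun z v => by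
      unfold TA.trs
      rw [cylP_shift hL1]) (ha.congr hvis) (by
      intro v hv
      rw [mem_coe, mem_bx] at hv
      omega) (by
      intro v hv
      have h1 := out_not_bx q hm hv
      rw [mem_pull]
      exact TA.mix_off (fun h => h1 (TA.explK_subset _ _ _ h))) (k0 := k0) hlane (by
      intro f g hfg
      obtain ⟨r1, r2⟩ := hatt (fun v => v ∈ pull (cylP (2 * m * q.n)) S2)
        (fun v => cylP (2 * m * q.n) v ∈ mix (explK q.k (bx m q.W q.h) S) S S2) f g hvis (by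
          intro i i1 i2 v hv hvn
          obtain ⟨c1, c2⟩ := u_central q hm i1 i2 hv
          rw [mem_pull, cylP_id c1 c2]
          exact TA.mix_unvisited ha hvn) (by
          intro i i1 i2
          obtain ⟨a1, a2, a3, a4, a5⟩ := hfg i i1 i2
          exact ⟨a1, a2, a3, a5⟩)
      exact ⟨r1, r2⟩) (L := L) (kk := kk) (mm := N) hL hkk hNN
  rw [← hL] at hfin
  exact ⟨hfin.2.1, hfin.2.2.1, hfin.2.2.2⟩

end CB
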