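import Pool.Agent.Helper8.CB.Bridge

/-!
Lanes on the cylinder of period `(n,-n)` (in cells) for `2k` exits of a box: definitions and
disjointness.
-/

namespace CB

/-- the data: `2k` exits of the box `[-W,W) × [-h,h)` in clockwise order, the first `a` at the top -/
structure LP where
  k : ℤ
  W : ℤ
  h : ℤ
  n : ℤ
  a : ℤ
  x : ℤ → ℤ
  hk : 1 ≤ k
  hh : 5 ≤ h
  hW : 5 ≤ W
  hn : 2 * W + 2 * h + 10 * k + 30 ≤ n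
  ha : 0 ≤ a
  ha' : a ≤ 2 * k
  hx : ∀ i, 1 ≤ i → i ≤ 2 * k → -W ≤ x i ∧ x i < W
  htop : ∀ i j, 1 ≤ i → i < j → j ≤ a → x i + 6 ≤ x j
  hbot : ∀ i j, a < i → i < j → j ≤ 2 * k → x j + 6 ≤ x i

/-- rectangle of cells -/
def Rc (u u' v v' : ℤ) (c : ℤ × ℤ) : Prop := u ≤ c.1 ∧ c.1 ≤ u' ∧ v ≤ c.2 ∧ c.2 ≤ v'

namespace LP
variable (q : LP)

/-- column of the clockwise foot -/
def fx (i : ℤ) : ℤ := if i ≤ q.a then q.x i + 2 else q.x i - 2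
/-- row of the feet -/
def fy (i : ℤ) : ℤ := if i ≤ q.a then q.h else -q.h - 1
/-- column of the other foot -/
def fx' (i : ℤ) : ℤ := if i ≤ q.a then q.x i - 2 else q.x i + 2
/-- height of the lane -/
def et (i : ℤ) : ℤ := if i ≤ q.a then q.h + 1 + 2 * q.k - i else -q.h - 2 - i
/-- depth of the `U` -/
def uy (i : ℤ) : ℤ := if i ≤ q.a then q.h - 3 else -q.h + 2
/-- rows of the `U` -/
def ulo (i : ℤ) : ℤ := if i ≤ q.a then q.h - 3 else -q.h - 1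
def uhi (i : ℤ) : ℤ := if i ≤ q.a then q.h else -q.h + 2
/-- rows of the beginning of the lane -/
def lo1 (i : ℤ) : ℤ := if i ≤ q.a then q.h else q.et i
def hi1 (i : ℤ) : ℤ := if i ≤ q.a then q.et i else -q.h - 1

/-- the `U` around the exit `i` -/
def U (i : ℤ) (c : ℤ × ℤ) : Prop :=
  Rc (q.fx i) (q.fx i) (q.ulo i) (q.uhi i) c ∨
  Rc (q.x i - 2) (q.x i + 2) (q.uy i) (q.uy i) c ∨
  Rc (q.fx' i) (q.fx' i) (q.ulo i) (q.uhi i) c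

/-- the beginning of the lane `i` -/
def R1 (i : ℤ) (c : ℤ × ℤ) : Prop := Rc (q.fx i) (q.fx i) (q.lo1 i) (q.hi1 i) c
def R2 (j : ℤ) (c : ℤ × ℤ) : Prop := Rc (q.fx j) (q.n - q.W - 4 - j) (q.et j) (q.et j) c
def R3 (j : ℤ) (c : ℤ × ℤ) : Prop :=
  Rc (q.n - q.W - 4 - j) (q.n - q.W - 4 - j) (-q.n - q.h - 2 - 2 * q.k - j) (q.et j) c
def R4 (j : ℤ) (c : ℤ × ℤ) : Prop :=
  Rc (q.n - q.W - 4 - j) (q.n + q.W + 1 + j) (-q.n - q.h - 2 - 2 * q.k - j)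
    (-q.n - q.h - 2 - 2 * q.k - j) c
def R5 (j : ℤ) (c : ℤ × ℤ) : Prop :=
  Rc (q.n + q.W + 1 + j) (q.n + q.W + 1 + j) (-q.n - q.h - 2 - 2 * q.k - j)
    (-q.n + q.et (2 * q.k - j)) c
def R6 (j : ℤ) (c : ℤ × ℤ) : Prop :=
  Rc (q.n + q.fx (2 * q.k - j)) (q.n + q.W + 1 + j) (-q.n + q.et (2 * q.k - j))
    (-q.n + q.et (2 * q.k - j)) c
def R7 (j : ℤ) (c : ℤ × ℤ) : Prop := q.R1 (2 * q.k - j) (c.1 - q.n, c.2 + q.n)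
def U7 (j : ℤ) (c : ℤ × ℤ) : Prop := q.U (2 * q.k - j) (c.1 - q.n, c.2 + q.n)

/-- the lane from the exit `j` to the exit `2k-j` of the next copy, `1 ≤ j ≤ k` -/
def Ln (j : ℤ) (c : ℤ × ℤ) : Prop :=
  q.R1 j c ∨ q.R2 j c ∨ q.R3 j c ∨ q.R4 j c ∨ q.R5 j c ∨ q.R6 j c ∨ q.R7 j c

/-- the lane of the exit `2k` -/
def Lo (c : ℤ × ℤ) : Prop :=
  (q.a < 2 * q.k ∧ (Rc (q.fx (2 * q.k)) (q.fx (2 * q.k)) (-q.h - 2) (-q.h - 1) c ∨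
    Rc (-q.W - 3) (q.fx (2 * q.k)) (-q.h - 2) (-q.h - 2) c)) ∨
  (q.a = 2 * q.k ∧ (Rc (q.fx (2 * q.k)) (q.fx (2 * q.k)) q.h (q.h + 1) c ∨
    Rc (q.fx (2 * q.k)) (q.W + 1) (q.h + 1) (q.h + 1) c ∨
    Rc (q.W + 1) (q.W + 1) (-q.h - 2) (q.h + 1) c ∨
    Rc (-q.W - 3) (q.W + 1) (-q.h - 2) (-q.h - 2) c)) ∨
  (Rc (-q.W - 3) (-q.W - 3) (-q.h - 2) (q.h + 1 + 2 * q.k) c ∨
    Rc (-q.W - 4) (q.n - q.W - 4) (q.h + 1 + 2 * q.k) (q.h + 1 + 2 * q.k) c ∨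
    Rc (q.n - q.W - 4) (q.n - q.W - 4) (-q.n + q.h + 1 + 2 * q.k) (q.h + 1 + 2 * q.k) c)

/-- everything that belongs to the lane `j` (`1 ≤ j ≤ k` or `j = 2k`) -/
def Full (j : ℤ) (c : ℤ × ℤ) : Prop :=
  (j ≤ q.k ∧ (q.U j c ∨ q.U7 j c ∨ q.Ln j c)) ∨ (j = 2 * q.k ∧ (q.U j c ∨ q.Lo c))

/-- rectangle around the exit `i` -/
def Ft (i : ℤ) (c : ℤ × ℤ) : Prop :=
  Rc (q.x i - 2) (q.x i + 2) (if i ≤ q.a then q.h - 3 else q.et i)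
    (if i ≤ q.a then q.et i else -q.h + 2) c

/-- simplified lanes -/
def Ls (j : ℤ) (c : ℤ × ℤ) : Prop :=
  q.Ft j c ∨ q.Ft (2 * q.k - j) (c.1 - q.n, c.2 + q.n) ∨ q.R2 j c ∨ q.R3 j c ∨ q.R4 j c ∨
    q.R5 j c ∨ q.R6 j c

def Lt (c : ℤ × ℤ) : Prop :=
  q.Ft (2 * q.k) c ∨
  (q.a < 2 * q.k ∧ (Rc (-q.W - 3) (q.fx (2 * q.k)) (-q.h - 2) (-q.h - 2) c)) ∨
  (q.a = 2 * q.k ∧ (Rc (q.fx (2 * q.k)) (q.W + 1) (q.h + 1) (q.h + 1) c ∨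
    Rc (q.W + 1) (q.W + 1) (-q.h - 2) (q.h + 1) c ∨
    Rc (-q.W - 3) (q.W + 1) (-q.h - 2) (-q.h - 2) c)) ∨
  (Rc (-q.W - 3) (-q.W - 3) (-q.h - 2) (q.h + 1 + 2 * q.k) c ∨
    Rc (-q.W - 4) (q.n - q.W - 4) (q.h + 1 + 2 * q.k) (q.h + 1 + 2 * q.k) c ∨
    Rc (q.n - q.W - 4) (q.n - q.W - 4) (-q.n + q.h + 1 + 2 * q.k) (q.h + 1 + 2 * q.k) c)

lemma ft_of_U {i : ℤ} (h1 : 1 ≤ i) (h2 : i ≤ 2 * q.k) {c : ℤ × ℤ} (h : q.U i c) : q.Ft i c := by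
  unfold U at h
  unfold Ft
  unfold Rc fx fx' ulo uhi uy et at *
  have := q.hk
  split_ifs at * <;> omega

lemma ft_of_R1 {i : ℤ} (h1 : 1 ≤ i) (h2 : i ≤ 2 * q.k) {c : ℤ × ℤ} (h : q.R1 i c) :
    q.Ft i c := by
  unfold R1 at h
  unfold Ft
  unfold Rc fx lo1 hi1 et at *
  have := q.hk
  have := q.hh
  split_ifs at * <;> omega

lemma ls_of_full {j : ℤ} (h1 : 1 ≤ j) (h2 : j ≤ q.k) {c : ℤ × ℤ} (h : q.Full j c) :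
    q.Ls j c := by
  have hk := q.hk
  rcases h with ⟨_, h | h | h⟩ | ⟨h, _⟩
  · exact Or.inl (q.ft_of_U h1 (by omega) h)
  · exact Or.inr (Or.inl (q.ft_of_U (by omega) (by omega) h))
  · rcases h with h | h | h | h | h | h | h
    · exact Or.inl (q.ft_of_R1 h1 (by omega) h)
    · exact Or.inr (Or.inr (Or.inl h))
    · exact Or.inr (Or.inr (Or.inr (Or.inl h)))
    · exact Or.inr (Or.inr (Or.inr (Or.inr (Or.inl h))))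
    · exact Or.inr (Or.inr (Or.inr (Or.inr (Or.inr (Or.inl h)))))
    · exact Or.inr (Or.inr (Or.inr (Or.inr (Or.inr (Or.inr h)))))
    · exact Or.inr (Or.inl (q.ft_of_R1 (by omega) (by omega) h))
  · omega

lemma lt_of_full {c : ℤ × ℤ} (h : q.Full (2 * q.k) c) : q.Lt c := by
  have hk := q.hk
  have hh := q.hh
  rcases h with ⟨h, _⟩ | ⟨_, h | h⟩
  · omega
  · exact Or.inl (q.ft_of_U (by omega) (by omega) h)
  · rcases h with ⟨h0, h | h⟩ | ⟨h0, h | h | h | h⟩ | h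
    · left
      unfold Ft
      unfold Rc fx et at *
      split_ifs at * <;> omega
    · exact Or.inr (Or.inl ⟨h0, h⟩)
    · left
      unfold Ft
      unfold Rc fx et at *
      split_ifs at * <;> omega
    · exact Or.inr (Or.inr (Or.inl ⟨h0, Or.inl h⟩))
    · exact Or.inr (Or.inr (Or.inl ⟨h0, Or.inr (Or.inl h)⟩))
    · exact Or.inr (Or.inr (Or.inl ⟨h0, Or.inr (Or.inr h)⟩))
    · exact Or.inr (Or.inr (Or.inr h))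

end LP

end CB
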