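import Pool.Agent.Helper8.CB.LaneDefs

/-!
Different lanes are disjoint.
-/

namespace CB
namespace LP
variable (q : LP)

/-- near part of the lane `i` -/
def Nr (i : ℤ) (u v : ℤ) : Prop := q.Ft i (u, v) ∨ (v = q.et i ∧ q.fx i ≤ u)

lemma nr_disj {i i' : ℤ} (h1 : 1 ≤ i) (h2 : i < i') (h3 : i' ≤ 2 * q.k) {u v : ℤ}
    (h : q.Nr i u v) (h' : q.Nr i' u v) : False := by
  have hk := q.hk
  have hh := q.hh
  have x1 := q.hx i h1 (by omega)
  have x2 := q.hx i' (by omega) h3
  have t := q.htop i i' h1 h2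
  have b := fun h => q.hbot i i' h h2 h3
  unfold Nr Ft at h h'
  unfold Rc fx et at h h'
  simp only at h h'
  by_cases e : i ≤ q.a <;> by_cases e' : i' ≤ q.a
  · simp only [if_pos e] at h
    simp only [if_pos e'] at h'
    have t := t e'
    clear b
    rcases h with h | h <;> rcases h' with h' | h' <;> omega
  · simp only [if_pos e] at h
    simp only [if_neg e'] at h'
    clear b t
    rcases h with h | h <;> rcases h' with h' | h' <;> omega
  · omega
  · simp only [if_neg e] at h
    simp only [if_neg e'] at h'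
    have b := b (by omega)
    clear t
    rcases h with h | h <;> rcases h' with h' | h' <;> omega

/-- bounds for the lane `i` -/
lemma bounds {i : ℤ} (h1 : 1 ≤ i) (h3 : i ≤ 2 * q.k) :
    -q.W - 2 ≤ q.fx i ∧ q.fx i ≤ q.W + 1 ∧ -q.h - 2 - 2 * q.k ≤ q.et i ∧
      q.et i ≤ q.h + 2 * q.k := by
  have hk := q.hk
  have hh := q.hh
  have x1 := q.hx i h1 (by omega)
  unfold fx et
  split_ifs <;> omega

lemma et_anti {i i' : ℤ} (h2 : i < i') (h3 : i' ≤ 2 * q.k) :
    q.et i' < q.et i := by
  have hk := q.hk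
  have hh := q.hh
  unfold et
  split_ifs <;> omega

lemma ft_bounds {i : ℤ} (h1 : 1 ≤ i) (h3 : i ≤ 2 * q.k) {c : ℤ × ℤ} (h : q.Ft i c) :
    -q.W - 2 ≤ c.1 ∧ c.1 ≤ q.W + 1 ∧ -q.h - 2 - 2 * q.k ≤ c.2 ∧ c.2 ≤ q.h + 2 * q.k := by
  have hk := q.hk
  have hh := q.hh
  have x1 := q.hx i h1 (by omega)
  unfold Ft at h
  unfold Rc et at h
  split_ifs at h <;> omega

theorem disj1 {j j' T : ℤ} (h1 : 1 ≤ j) (h2 : j < j') (h3 : j' ≤ q.k)
    (hT : T = 0 ∨ T = q.n ∨ T = -q.n) {u v : ℤ} (hc : q.Ls j (u + T, v - T))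
    (hc' : q.Ls j' (u, v)) : False := by
  have hk := q.hk
  have hh := q.hh
  have hW := q.hW
  have hn := q.hn
  have n1 := @nr_disj q j j' h1 h2 (by omega)
  have n2 := @nr_disj q (2 * q.k - j') (2 * q.k - j) (by omega) (by omega) (by omega)
  have n3 := @nr_disj q j' (2 * q.k - j) (by omega) (by omega) (by omega)
  have n4 := @nr_disj q j (2 * q.k - j') (by omega) (by omega) (by omega)
  have b1 := q.bounds (i := j) (by omega) (by omega)
  have b2 := q.bounds (i := j') (by omega) (by omega)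
  have b3 := q.bounds (i := 2 * q.k - j') (by omega) (by omega)
  have b4 := q.bounds (i := 2 * q.k - j) (by omega) (by omega)
  have a1 := q.et_anti (i := j) (i' := j') h2 (by omega)
  have a2 := q.et_anti (i := 2 * q.k - j') (i' := 2 * q.k - j) (by omega) (by omega)
  have a3 := q.et_anti (i := j') (i' := 2 * q.k - j) (by omega) (by omega)
  have a4 := q.et_anti (i := j) (i' := 2 * q.k - j') (by omega) (by omega)
  have c1 := fun c => @ft_bounds q j (by omega) (by omega) c
  have c2 := fun c => @ft_bounds q j' (by omega) (by omega) c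
  have c3 := fun c => @ft_bounds q (2 * q.k - j') (by omega) (by omega) c
  have c4 := fun c => @ft_bounds q (2 * q.k - j) (by omega) (by omega) c
  unfold Nr at n1 n2 n3 n4
  unfold Ls R2 R3 R4 R5 R6 at hc hc'
  unfold Rc at hc hc'
  simp only at hc hc'
  generalize q.et j = E1 at *
  generalize q.et j' = E2 at *
  generalize q.et (2 * q.k - j') = E3 at *
  generalize q.et (2 * q.k - j) = E4 at *
  generalize q.fx j = F1 at *
  generalize q.fx j' = F2 at *
  generalize q.fx (2 * q.k - j') = F3 at *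
  generalize q.fx (2 * q.k - j) = F4 at *
  generalize q.Ft j = G1 at *
  generalize q.Ft j' = G2 at *
  generalize q.Ft (2 * q.k - j') = G3 at *
  generalize q.Ft (2 * q.k - j) = G4 at *
  generalize q.k = k at *
  generalize q.h = h at *
  generalize q.W = W at *
  generalize q.n = n at *
  replace hc := Or.imp (fun h => And.intro h (c1 _ h)) (Or.imp (fun h => And.intro h (c4 _ h)) id) hc
  replace hc' := Or.imp (fun h => And.intro h (c2 _ h)) (Or.imp (fun h => And.intro h (c3 _ h)) id) hc'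
  clear c1 c2 c3 c4
  rcases hT with rfl | rfl | rfl
  · simp only [add_zero, sub_zero] at hc
    clear n3 n4
    rcases hc with h | h | h | h | h | h | h <;>
    rcases hc' with g | g | g | g | g | g | g <;>
    first
      | omega
      | exact n1 (Or.inl h.1) (Or.inl g.1)
      | exact n1 (Or.inl h.1) (Or.inr ⟨by omega, by omega⟩)
      | exact n1 (Or.inr ⟨by omega, by omega⟩) (Or.inl g.1)
      | exact n2 (Or.inl g.1) (Or.inl h.1)
      | exact n2 (Or.inl g.1) (Or.inr ⟨by omega, by omega⟩)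
      | exact n2 (Or.inr ⟨by omega, by omega⟩) (Or.inl h.1)
  · have e1 : u + T - T = u := by ring
    have e2 : v - T + T = v := by ring
    rw [e1, e2] at hc
    clear n1 n2 n4
    rcases hc with h | h | h | h | h | h | h <;>
    rcases hc' with g | g | g | g | g | g | g <;>
    first
      | omega
      | exact n3 (Or.inl g.1) (Or.inl h.1)
      | exact n3 (Or.inl g.1) (Or.inr ⟨by omega, by omega⟩)
      | exact n3 (Or.inr ⟨by omega, by omega⟩) (Or.inl h.1)
  · have e1 : u + -n = u - n := by ring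
    have e2 : v - -n = v + n := by ring
    rw [e1, e2] at hc
    clear n1 n2 n3
    rcases hc with h | h | h | h | h | h | h <;>
    rcases hc' with g | g | g | g | g | g | g <;>
    first
      | omega
      | exact n4 (Or.inl h.1) (Or.inl g.1)
      | exact n4 (Or.inl h.1) (Or.inr ⟨by omega, by omega⟩)
      | exact n4 (Or.inr ⟨by omega, by omega⟩) (Or.inl g.1)

/-- near part of the lane `2k` -/
def No (u v : ℤ) : Prop :=
  q.Ft (2 * q.k) (u, v) ∨
  (q.a < 2 * q.k ∧ u ≤ q.fx (2 * q.k) ∧ v = -q.h - 2) ∨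
  (q.a = 2 * q.k ∧ (q.fx (2 * q.k) ≤ u ∧ u ≤ q.W + 1 ∧ v = q.h + 1 ∨
    u = q.W + 1 ∧ -q.h - 2 ≤ v ∧ v ≤ q.h + 1 ∨
    u ≤ q.W + 1 ∧ v = -q.h - 2)) ∨
  (u = -q.W - 3)

lemma no_disj {i : ℤ} (h1 : 1 ≤ i) (h2 : i < 2 * q.k) {u v : ℤ}
    (h : q.Nr i u v) (h' : q.No u v) : False := by
  have hk := q.hk
  have hh := q.hh
  have x1 := q.hx i h1 (by omega)
  have x2 := q.hx (2 * q.k) (by omega) (by omega)
  have t := q.htop i (2 * q.k) h1 h2
  have b := fun h => q.hbot i (2 * q.k) h h2 le_rfl
  have ha' := q.ha'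
  rcases h' with h' | h'
  · exact q.nr_disj h1 h2 le_rfl h (Or.inl h')
  unfold Nr Ft at h
  unfold Rc fx et at h
  unfold fx at h'
  simp only at h h'
  by_cases e : i ≤ q.a <;> by_cases e' : 2 * q.k ≤ q.a
  · simp only [if_pos e] at h
    simp only [if_pos e'] at h'
    have t := t e'
    clear b
    rcases h with h | h <;> rcases h' with h' | h' | h' <;> omega
  · simp only [if_pos e] at h
    simp only [if_neg e'] at h'
    clear b t
    rcases h with h | h <;> rcases h' with h' | h' | h' <;> omega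
  · omega
  · simp only [if_neg e] at h
    simp only [if_neg e'] at h'
    have b := b (by omega)
    clear t
    rcases h with h | h <;> rcases h' with h' | h' | h' <;> omega

lemma lt_split {u v : ℤ} (h : q.Lt (u, v)) :
    (q.No u v ∧ -q.W - 3 ≤ u ∧ u ≤ q.W + 1 ∧ -q.h - 2 - 2 * q.k ≤ v ∧
      v ≤ q.h + 1 + 2 * q.k) ∨
    (-q.W - 4 ≤ u ∧ u ≤ q.n - q.W - 4 ∧ v = q.h + 1 + 2 * q.k) ∨
    (u = q.n - q.W - 4 ∧ -q.n + q.h + 1 + 2 * q.k ≤ v ∧ v ≤ q.h + 1 + 2 * q.k) := by
  have hk := q.hk
  have hh := q.hh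
  have b := q.bounds (i := 2 * q.k) (by omega) le_rfl
  rcases h with h | ⟨h0, h⟩ | ⟨h0, h | h | h⟩ | h | h | h
  · have := q.ft_bounds (by omega) le_rfl h
    simp only at this
    exact Or.inl ⟨Or.inl h, by omega⟩
  · unfold Rc at h
    simp only at h
    exact Or.inl ⟨Or.inr (Or.inl ⟨h0, by omega⟩), by omega⟩
  · unfold Rc at h
    simp only at h
    exact Or.inl ⟨Or.inr (Or.inr (Or.inl ⟨h0, Or.inl (by omega)⟩)), by omega⟩
  · unfold Rc at h
    simp only at h
    exact Or.inl ⟨Or.inr (Or.inr (Or.inl ⟨h0, Or.inr (Or.inl (by omega))⟩)), by omega⟩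
  · unfold Rc at h
    simp only at h
    exact Or.inl ⟨Or.inr (Or.inr (Or.inl ⟨h0, Or.inr (Or.inr (by omega))⟩)), by omega⟩
  · unfold Rc at h
    simp only at h
    exact Or.inl ⟨Or.inr (Or.inr (Or.inr (by omega))), by omega⟩
  · unfold Rc at h
    simp only at h
    exact Or.inr (Or.inl (by omega))
  · unfold Rc at h
    simp only at h
    exact Or.inr (Or.inr (by omega))

theorem disj2 {j T : ℤ} (h1 : 1 ≤ j) (h3 : j ≤ q.k)
    (hT : T = 0 ∨ T = q.n ∨ T = -q.n) {u v : ℤ} (hc : q.Ls j (u + T, v - T))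
    (hc' : q.Lt (u, v)) : False := by
  have hk := q.hk
  have hh := q.hh
  have hW := q.hW
  have hn := q.hn
  have n1 := @no_disj q j h1 (by omega)
  have n2 := @no_disj q (2 * q.k - j) (by omega) (by omega)
  have b1 := q.bounds (i := j) (by omega) (by omega)
  have b4 := q.bounds (i := 2 * q.k - j) (by omega) (by omega)
  have a1 := q.et_anti (i := 2 * q.k - j) (i' := 2 * q.k) (by omega) (by omega)
  have c1 := fun c => @ft_bounds q j (by omega) (by omega) c
  have c4 := fun c => @ft_bounds q (2 * q.k - j) (by omega) (by omega) c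
  have hc' := q.lt_split hc'
  have r4 : q.et (2 * q.k - j) ≤ q.h + 2 * q.k := by omega
  unfold Nr at n1 n2
  unfold Ls R2 R3 R4 R5 R6 at hc
  unfold Rc at hc
  simp only at hc
  generalize q.et j = E1 at *
  generalize q.et (2 * q.k - j) = E4 at *
  generalize q.et (2 * q.k) = E5 at *
  generalize q.fx j = F1 at *
  generalize q.fx (2 * q.k - j) = F4 at *
  generalize q.Ft j = G1 at *
  generalize q.Ft (2 * q.k - j) = G4 at *
  generalize q.No = N at *
  generalize q.k = k at *
  generalize q.h = h at *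
  generalize q.W = W at *
  generalize q.n = n at *
  replace hc := Or.imp (fun h => And.intro h (c1 _ h)) (Or.imp (fun h => And.intro h (c4 _ h)) id) hc
  clear c1 c4
  rcases hT with rfl | rfl | rfl
  · simp only [add_zero, sub_zero] at hc
    rcases hc with h | h | h | h | h | h | h <;>
    rcases hc' with g | g | g <;>
    first
      | omega
      | exact n1 (Or.inl h.1) g.1
      | exact n1 (Or.inr ⟨by omega, by omega⟩) g.1
  · have e1 : u + T - T = u := by ring
    have e2 : v - T + T = v := by ring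
    rw [e1, e2] at hc
    rcases hc with h | h | h | h | h | h | h <;>
    rcases hc' with g | g | g <;>
    first
      | omega
      | exact n2 (Or.inl h.1) g.1
      | exact n2 (Or.inr ⟨by omega, by omega⟩) g.1
  · have e1 : u + -n = u - n := by ring
    have e2 : v - -n = v + n := by ring
    rw [e1, e2] at hc
    rcases hc with h | h | h | h | h | h | h <;>
    rcases hc' with g | g | g <;>
    omega

lemma ls_bounds {j : ℤ} (h1 : 1 ≤ j) (h3 : j ≤ q.k) {u v : ℤ} (h : q.Ls j (u, v)) :
    -q.W - 4 ≤ u ∧ u ≤ q.n + q.W + 1 + q.k ∧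
    -q.W - q.h - 4 * q.k - 6 ≤ u + v ∧ u + v ≤ q.n + q.W + q.h + 4 * q.k + 1 ∧
    -q.n - q.h - 2 - 3 * q.k ≤ v ∧ v ≤ q.h + 1 + 2 * q.k := by
  have hk := q.hk
  have hh := q.hh
  have hW := q.hW
  have hn := q.hn
  have b1 := q.bounds (i := j) (by omega) (by omega)
  have b4 := q.bounds (i := 2 * q.k - j) (by omega) (by omega)
  have c1 := fun c => @ft_bounds q j (by omega) (by omega) c
  have c4 := fun c => @ft_bounds q (2 * q.k - j) (by omega) (by omega) c
  unfold Ls R2 R3 R4 R5 R6 at h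
  unfold Rc at h
  simp only at h
  rcases h with h | h | h | h | h | h | h
  · have := c1 _ h
    simp only at this
    omega
  · have := c4 _ h
    simp only at this
    omega
  all_goals omega

lemma lt_bounds {u v : ℤ} (h : q.Lt (u, v)) :
    -q.W - 4 ≤ u ∧ u ≤ q.n + q.W + 1 + q.k ∧
    -q.W - q.h - 4 * q.k - 6 ≤ u + v ∧ u + v ≤ q.n + q.W + q.h + 4 * q.k + 1 ∧
    -q.n - q.h - 2 - 3 * q.k ≤ v ∧ v ≤ q.h + 1 + 2 * q.k := by
  have hk := q.hk
  have hh := q.hh
  have hW := q.hW
  have hn := q.hn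
  rcases q.lt_split h with h | h | h <;> omega

/-- the indices of the lanes -/
def Idx (j : ℤ) : Prop := (1 ≤ j ∧ j ≤ q.k) ∨ j = 2 * q.k

lemma full_bounds {j : ℤ} (hj : q.Idx j) {u v : ℤ} (h : q.Full j (u, v)) :
    -q.W - 4 ≤ u ∧ u ≤ q.n + q.W + 1 + q.k ∧
    -q.W - q.h - 4 * q.k - 6 ≤ u + v ∧ u + v ≤ q.n + q.W + q.h + 4 * q.k + 1 ∧
    -q.n - q.h - 2 - 3 * q.k ≤ v ∧ v ≤ q.h + 1 + 2 * q.k := by
  rcases hj with ⟨h1, h2⟩ | rfl
  · exact q.ls_bounds h1 h2 (q.ls_of_full h1 h2 h)
  · exact q.lt_bounds (q.lt_of_full h)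

lemma mul_cases (n t : ℤ) (hn : 0 ≤ n) : t * n = 0 ∨ t * n = n ∨ t * n = -n ∨ 2 * n ≤ t * n ∨
    t * n ≤ -(2 * n) := by
  rcases lt_trichotomy t 0 with h | h | h
  · rcases eq_or_lt_of_le (show t ≤ -1 by omega) with h1 | h1
    · subst h1
      right; right; left
      ring
    · right; right; right; right
      nlinarith
  · subst h
    left
    ring
  · rcases eq_or_lt_of_le (show 1 ≤ t by omega) with h1 | h1
    · subst h1
      right; left
      ring
    · right; right; right; left
      nlinarith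

/-- **Different lanes (and their translates) are disjoint.** -/
theorem full_disj {j j' : ℤ} (hj : q.Idx j) (hj' : q.Idx j') (hne : j ≠ j') (t : ℤ) {u v : ℤ}
    (h : q.Full j (u + t * q.n, v - t * q.n)) (h' : q.Full j' (u, v)) : False := by
  have hk := q.hk
  have hh := q.hh
  have hW := q.hW
  have hn := q.hn
  have b := q.full_bounds hj h
  have b' := q.full_bounds hj' h'
  have hT := mul_cases q.n t (by omega)
  have hT' : t * q.n = 0 ∨ t * q.n = q.n ∨ t * q.n = -q.n := by omega
  clear b b' hT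
  generalize t * q.n = T at *
  rcases hj with ⟨h1, h2⟩ | rfl
  · have g := q.ls_of_full h1 h2 h
    rcases hj' with ⟨h1', h2'⟩ | rfl
    · have g' := q.ls_of_full h1' h2' h'
      rcases lt_or_gt_of_ne hne with h3 | h3
      · exact q.disj1 h1 h3 h2' hT' g g'
      · refine q.disj1 (T := -T) h1' h3 h2 (by omega) (u := u + T) (v := v - T) ?_ g
        have e1 : u + T + -T = u := by ring
        have e2 : v - T - -T = v := by ring
        rw [e1, e2]
        exact g'
    · exact q.disj2 h1 h2 hT' g (q.lt_of_full h')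
  · have g := q.lt_of_full h
    rcases hj' with ⟨h1', h2'⟩ | rfl
    · have g' := q.ls_of_full h1' h2' h'
      refine q.disj2 (T := -T) h1' h2' (by omega) (u := u + T) (v := v - T) ?_ g
      have e1 : u + T + -T = u := by ring
      have e2 : v - T - -T = v := by ring
      rw [e1, e2]
      exact g'
    · exact hne rfl

end LP
end CB
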