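import Pool.Agent.Helper8.CB.LaneDisj

/-!
Lanes for `2k` exits on the cylinder have positive probability.
-/

namespace CB
open Finset H47Perc
open Pool.Agent.Helper69.RSW

/-! ### periodicity of hubs -/

lemma Hub.transl {κ m : ℤ} {c : ℤ × ℤ} {S : Set (ℤ × ℤ)} {f τ : ℤ × ℤ}
    (hS : ∀ t : ℤ × ℤ, (t.1 + 2 * m * τ.1, t.2 + 2 * m * τ.2) ∈ S ↔ t ∈ S)
    (h : Hub κ m c S f) : Hub κ m (c + τ) S (f.1 + 2 * m * τ.1, f.2 + 2 * m * τ.2) := by
  have hS' : ∀ t : ℤ × ℤ, (t.1 + 2 * (m * τ.1, m * τ.2).1, t.2 + 2 * (m * τ.1, m * τ.2).2) ∈ S ↔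
      t ∈ S := by
    intro t
    rw [← hS t]
    simp only
    have e1 : 2 * (m * τ.1) = 2 * m * τ.1 := by ring
    have e2 : 2 * (m * τ.2) = 2 * m * τ.2 := by ring
    rw [e1, e2]
  obtain ⟨u, rfl, h0, ⟨l, l1, l2, l3⟩, ⟨r, r1, r2, r3⟩, ⟨b, b1, b2, b3⟩, ⟨t, t1, t2, t3⟩⟩ := h
  have e1 : m * (c + τ).1 = m * c.1 + m * τ.1 := by rw [Prod.fst_add]; ring
  have e2 : m * (c + τ).2 = m * c.2 + m * τ.2 := by rw [Prod.snd_add]; ring
  have key : ∀ v : ℤ × ℤ, Joined (op κ (edgesIn (cb m c)) S) u v →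
      Joined (op κ (edgesIn (cb m (c + τ))) S) (u.1 + m * τ.1, u.2 + m * τ.2)
        (v.1 + m * τ.1, v.2 + m * τ.2) := by
    intro v hv
    rw [cb_transl, op_transl hS']
    have := joined_map_of (f := H47Perc.transl (m * τ.1, m * τ.2)) hv
    simpa [H47Perc.transl, Prod.add_def] using this
  refine ⟨(u.1 + m * τ.1, u.2 + m * τ.2), ?_, ?_, ?_, ?_, ?_, ?_⟩
  · unfold fa
    simp only
    ext <;> simp only <;> ring
  · rw [cb_transl, Finset.mem_map]
    refine ⟨u, h0, ?_⟩
    simp [H47Perc.transl, Prod.add_def]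
  · refine ⟨l + m * τ.2, by omega, by omega, ?_⟩
    rw [e1]
    exact key _ l3
  · refine ⟨r + m * τ.2, by omega, by omega, ?_⟩
    have : m * (c + τ).1 + m - 1 = (m * c.1 + m - 1) + m * τ.1 := by rw [e1]; ring
    rw [this]
    exact key _ r3
  · refine ⟨b + m * τ.1, by omega, by omega, ?_⟩
    rw [e2]
    exact key _ b3
  · refine ⟨t + m * τ.1, by omega, by omega, ?_⟩
    have : m * (c + τ).2 + m - 1 = (m * c.2 + m - 1) + m * τ.2 := by rw [e2]; ring
    rw [this]
    exact key _ t3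

lemma CP.shift {A : Set (ℤ × ℤ)} {c c' : ℤ × ℤ} (h : CP A c c') (a b : ℤ) :
    CP {x | (x.1 - a, x.2 - b) ∈ A} (c.1 + a, c.2 + b) (c'.1 + a, c'.2 + b) := by
  unfold CP at *
  induction h with
  | refl => exact Relation.ReflTransGen.refl
  | tail _ h ih =>
    refine Relation.ReflTransGen.tail ih ⟨?_, ?_, ?_⟩
    · simp only [Set.mem_ofPred_eq, add_sub_cancel_right]
      exact h.1
    · simp only [Set.mem_ofPred_eq, add_sub_cancel_right]
      exact h.2.1
    · rcases h.2.2 with h | h | h | h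
      · left
        rw [h]
        ext <;> simp only ; ring
      · right; left
        rw [h]
        ext <;> simp only ; ring
      · right; right; left
        rw [h]
        ext <;> simp only ; ring
      · right; right; right
        rw [h]
        ext <;> simp only ; ring

lemma cp_h {A : Set (ℤ × ℤ)} {x x' y : ℤ}
    (h : ∀ z, min x x' ≤ z → z ≤ max x x' → (z, y) ∈ A) : CP A (x, y) (x', y) := by
  rcases le_total x x' with hx | hx
  · exact cp_hline hx (fun z h1 h2 => h z (by omega) (by omega))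
  · exact (cp_hline hx (fun z h1 h2 => h z (by omega) (by omega))).symm

lemma cp_v {A : Set (ℤ × ℤ)} {x y y' : ℤ}
    (h : ∀ z, min y y' ≤ z → z ≤ max y y' → (x, z) ∈ A) : CP A (x, y) (x, y') := by
  rcases le_total y y' with hx | hx
  · exact cp_vline hx (fun z h1 h2 => h z (by omega) (by omega))
  · exact (cp_vline hx (fun z h1 h2 => h z (by omega) (by omega))).symm

namespace LP
variable (q : LP)

/-- height of the circuits -/
def s : ℤ := q.n + 2 * q.W + 2 * q.h + 10 * q.k + 30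

lemma s_eq : q.s = q.n + 2 * q.W + 2 * q.h + 10 * q.k + 30 := rfl

/-- cells outside the translates of the box -/
def Out : Set (ℤ × ℤ) := {c | (∀ t : ℤ, ¬ (-q.W ≤ c.1 - t * q.n ∧ c.1 - t * q.n < q.W ∧
  -q.h ≤ c.2 + t * q.n ∧ c.2 + t * q.n < q.h)) ∧ -q.s - 1 ≤ c.1 + c.2 ∧ c.1 + c.2 ≤ q.s + 1}

/-- cells of the lanes of class `κ` -/
def As (κ : ℤ) : Set (ℤ × ℤ) :=
  {c | ∃ t j : ℤ, q.Idx j ∧ (2 : ℤ) ∣ j - κ ∧ q.Full j (c.1 - t * q.n, c.2 + t * q.n)}

def Cu : Set (ℤ × ℤ) := {c | c.1 + c.2 = q.s ∨ c.1 + c.2 = q.s + 1}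
def Cd : Set (ℤ × ℤ) := {c | c.1 + c.2 = -q.s ∨ c.1 + c.2 = -q.s - 1}

/-- cells of the first colour -/
def B0 : Set (ℤ × ℤ) := q.As 0 ∪ (q.Cu ∪ q.Cd)

lemma As_transl {κ : ℤ} {c : ℤ × ℤ} (z : ℤ) (h : c ∈ q.As κ) :
    (c.1 + z * q.n, c.2 - z * q.n) ∈ q.As κ := by
  obtain ⟨t, j, h1, h2, h3⟩ := h
  refine ⟨t + z, j, h1, h2, ?_⟩
  have e1 : c.1 + z * q.n - (t + z) * q.n = c.1 - t * q.n := by ring
  have e2 : c.2 - z * q.n + (t + z) * q.n = c.2 + t * q.n := by ring
  simp only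
  rw [e1, e2]
  exact h3

lemma B0_transl {c : ℤ × ℤ} (z : ℤ) (h : c ∈ q.B0) :
    (c.1 + z * q.n, c.2 - z * q.n) ∈ q.B0 := by
  rcases h with h | h | h
  · exact Or.inl (q.As_transl z h)
  · refine Or.inr (Or.inl ?_)
    unfold Cu at *
    simp only [Set.mem_ofPred_eq] at *
    have : c.1 + z * q.n + (c.2 - z * q.n) = c.1 + c.2 := by ring
    rw [this]
    exact h
  · refine Or.inr (Or.inr ?_)
    unfold Cd at *
    simp only [Set.mem_ofPred_eq] at *
    have : c.1 + z * q.n + (c.2 - z * q.n) = c.1 + c.2 := by ring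
    rw [this]
    exact h

lemma Out_transl {c : ℤ × ℤ} (z : ℤ) (h : c ∈ q.Out) :
    (c.1 + z * q.n, c.2 - z * q.n) ∈ q.Out := by
  obtain ⟨h1, h2, h3⟩ := h
  refine ⟨fun t ht => h1 (t - z) ?_, ?_, ?_⟩
  · have e1 : c.1 + z * q.n - t * q.n = c.1 - (t - z) * q.n := by ring
    have e2 : c.2 - z * q.n + t * q.n = c.2 + (t - z) * q.n := by ring
    simp only at ht
    rw [e1, e2] at ht
    exact ht
  · simp only
    linarith
  · simp only
    linarith

lemma As_bounds {κ : ℤ} {c : ℤ × ℤ} (h : c ∈ q.As κ) : -q.s < c.1 + c.2 ∧ c.1 + c.2 < q.s := by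
  obtain ⟨t, j, h1, h2, h3⟩ := h
  have := q.full_bounds h1 h3
  have hk := q.hk
  have hh := q.hh
  have hW := q.hW
  have hn := q.hn
  unfold s
  have e : c.1 - t * q.n + (c.2 + t * q.n) = c.1 + c.2 := by ring
  rw [e] at this
  omega

/-- the two colours are disjoint -/
theorem B_disj {c c' : ℤ × ℤ} (h : c ∈ q.B0) (h' : c' ∈ q.As 1) (z : ℤ)
    (hc : c' = (c.1 + z * q.n, c.2 - z * q.n)) : False := by
  subst hc
  rcases h with h | h | h
  · obtain ⟨t, j, h1, h2, h3⟩ := h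
    obtain ⟨t', j', h1', h2', h3'⟩ := h'
    refine q.full_disj h1' h1 (by omega) (z + t - t') (u := c.1 - t * q.n) (v := c.2 + t * q.n)
      ?_ h3
    have e1 : c.1 + z * q.n - t' * q.n = c.1 - t * q.n + (z + t - t') * q.n := by ring
    have e2 : c.2 - z * q.n + t' * q.n = c.2 + t * q.n - (z + t - t') * q.n := by ring
    simp only at h3'
    rw [e1, e2] at h3'
    exact h3'
  · have := q.As_bounds h'
    simp only at this
    unfold Cu at h
    simp only [Set.mem_ofPred_eq] at h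
    generalize z * q.n = Z at *
    omega
  · have := q.As_bounds h'
    simp only at this
    unfold Cd at h
    simp only [Set.mem_ofPred_eq] at h
    generalize z * q.n = Z at *
    omega

/-! ### the lanes are outside the box -/

lemma out_of {c : ℤ × ℤ} (h1 : -q.n + q.W ≤ c.1) (h2 : c.1 < 2 * q.n - q.W)
    (h3 : ¬ (-q.W ≤ c.1 ∧ c.1 < q.W ∧ -q.h ≤ c.2 ∧ c.2 < q.h))
    (h4 : ¬ (-q.W ≤ c.1 - q.n ∧ c.1 - q.n < q.W ∧ -q.h ≤ c.2 + q.n ∧ c.2 + q.n < q.h))
    (h5 : -q.s - 1 ≤ c.1 + c.2) (h6 : c.1 + c.2 ≤ q.s + 1) : c ∈ q.Out := by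
  refine ⟨fun t ht => ?_, h5, h6⟩
  have hW := q.hW
  have hn := q.hn
  have hk := q.hk
  have hh := q.hh
  have hT := mul_cases q.n t (by omega)
  generalize t * q.n = T at *
  rcases hT with hT | hT | hT | hT | hT
  · subst hT
    apply h3
    omega
  · subst hT
    exact h4 ht
  · omega
  · omega
  · omega

lemma ln_out {j : ℤ} (hj1 : 1 ≤ j) (hj2 : j ≤ q.k) {c : ℤ × ℤ} (h : q.Ln j c) : c ∈ q.Out := by
  have hW := q.hW
  have hn := q.hn
  have hk := q.hk
  have hh := q.hh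
  have b1 := q.bounds (i := j) (by omega) (by omega)
  have b4 := q.bounds (i := 2 * q.k - j) (by omega) (by omega)
  have e1 : q.h + 1 ≤ q.et j ∧ q.lo1 j = q.h ∧ q.hi1 j = q.et j ∨
      q.et j ≤ -q.h - 3 ∧ q.lo1 j = q.et j ∧ q.hi1 j = -q.h - 1 := by
    unfold lo1 hi1 et
    split_ifs <;> omega
  have e4 : q.h + 1 ≤ q.et (2 * q.k - j) ∧ q.lo1 (2 * q.k - j) = q.h ∧
      q.hi1 (2 * q.k - j) = q.et (2 * q.k - j) ∨
      q.et (2 * q.k - j) ≤ -q.h - 3 ∧ q.lo1 (2 * q.k - j) = q.et (2 * q.k - j) ∧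
      q.hi1 (2 * q.k - j) = -q.h - 1 := by
    unfold lo1 hi1 et
    split_ifs <;> omega
  unfold Ln R7 R1 R2 R3 R4 R5 R6 Rc at h
  simp only at h
  have hs := q.s_eq
  apply q.out_of <;>
    generalize q.s = s0 at * <;>
    generalize q.et j = E1 at * <;>
    generalize q.et (2 * q.k - j) = E4 at * <;>
    generalize q.fx j = F1 at * <;>
    generalize q.fx (2 * q.k - j) = F4 at * <;>
    generalize q.lo1 j = L1 at * <;>
    generalize q.lo1 (2 * q.k - j) = L4 at * <;>
    generalize q.hi1 j = H1 at * <;>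
    generalize q.hi1 (2 * q.k - j) = H4 at * <;>
    rcases h with h | h | h | h | h | h | h <;> omega

lemma lo_out {c : ℤ × ℤ} (h : q.Lo c) : c ∈ q.Out := by
  have hW := q.hW
  have hn := q.hn
  have hk := q.hk
  have hh := q.hh
  have b1 := q.bounds (i := 2 * q.k) (by omega) (by omega)
  unfold Lo Rc at h
  have hs := q.s_eq
  apply q.out_of <;>
    generalize q.s = s0 at * <;>
    generalize q.fx (2 * q.k) = F1 at * <;>
    rcases h with ⟨h0, h | h⟩ | ⟨h0, h | h | h | h⟩ | h | h | h <;> omega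

/-! ### paths of cells -/

lemma ln_cp {j : ℤ} (h1 : 1 ≤ j) (h2 : j ≤ q.k) :
    CP {c | q.Ln j c} (q.fx j, q.fy j)
      (q.n + q.fx (2 * q.k - j), -q.n + q.fy (2 * q.k - j)) := by
  have hW := q.hW
  have hn := q.hn
  have hk := q.hk
  have hh := q.hh
  have b1 := q.bounds (i := j) (by omega) (by omega)
  have b4 := q.bounds (i := 2 * q.k - j) (by omega) (by omega)
  have e1 : ∀ i, 1 ≤ i → i ≤ 2 * q.k →
      (q.lo1 i = min (q.fy i) (q.et i) ∧ q.hi1 i = max (q.fy i) (q.et i)) := by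
    intro i h3 h4
    unfold lo1 hi1 fy et
    split_ifs <;> omega
  have f1 := e1 j h1 (by omega)
  have f4 := e1 (2 * q.k - j) (by omega) (by omega)
  have s1 : CP {c | q.Ln j c} (q.fx j, q.fy j) (q.fx j, q.et j) := by
    apply cp_v
    intro z z1 z2
    left
    unfold R1 Rc
    simp only
    omega
  have s2 : CP {c | q.Ln j c} (q.fx j, q.et j) (q.n - q.W - 4 - j, q.et j) := by
    apply cp_h
    intro z z1 z2
    right; left
    unfold R2 Rc
    simp only
    omega
  have s3 : CP {c | q.Ln j c} (q.n - q.W - 4 - j, q.et j)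
      (q.n - q.W - 4 - j, -q.n - q.h - 2 - 2 * q.k - j) := by
    apply cp_v
    intro z z1 z2
    right; right; left
    unfold R3 Rc
    simp only
    omega
  have s4 : CP {c | q.Ln j c} (q.n - q.W - 4 - j, -q.n - q.h - 2 - 2 * q.k - j)
      (q.n + q.W + 1 + j, -q.n - q.h - 2 - 2 * q.k - j) := by
    apply cp_h
    intro z z1 z2
    right; right; right; left
    unfold R4 Rc
    simp only
    omega
  have s5 : CP {c | q.Ln j c} (q.n + q.W + 1 + j, -q.n - q.h - 2 - 2 * q.k - j)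
      (q.n + q.W + 1 + j, -q.n + q.et (2 * q.k - j)) := by
    apply cp_v
    intro z z1 z2
    right; right; right; right; left
    unfold R5 Rc
    simp only
    omega
  have s6 : CP {c | q.Ln j c} (q.n + q.W + 1 + j, -q.n + q.et (2 * q.k - j))
      (q.n + q.fx (2 * q.k - j), -q.n + q.et (2 * q.k - j)) := by
    apply cp_h
    intro z z1 z2
    right; right; right; right; right; left
    unfold R6 Rc
    simp only
    omega
  have s7 : CP {c | q.Ln j c} (q.n + q.fx (2 * q.k - j), -q.n + q.et (2 * q.k - j))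
      (q.n + q.fx (2 * q.k - j), -q.n + q.fy (2 * q.k - j)) := by
    apply cp_v
    intro z z1 z2
    right; right; right; right; right; right
    unfold R7 R1 Rc
    simp only
    omega
  exact s1.trans (s2.trans (s3.trans (s4.trans (s5.trans (s6.trans s7)))))

lemma U_cp (i : ℤ) : CP {c | q.U i c} (q.fx i, q.fy i) (q.fx' i, q.fy i) := by
  have hh := q.hh
  have e : (q.ulo i = min (q.fy i) (q.uy i) ∧ q.uhi i = max (q.fy i) (q.uy i)) ∧
      (q.x i - 2 ≤ q.fx i ∧ q.fx i ≤ q.x i + 2 ∧ q.x i - 2 ≤ q.fx' i ∧ q.fx' i ≤ q.x i + 2) := by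
    unfold ulo uhi fy uy fx fx'
    split_ifs <;> omega
  have s1 : CP {c | q.U i c} (q.fx i, q.fy i) (q.fx i, q.uy i) := by
    apply cp_v
    intro z z1 z2
    left
    unfold Rc
    simp only
    omega
  have s2 : CP {c | q.U i c} (q.fx i, q.uy i) (q.fx' i, q.uy i) := by
    apply cp_h
    intro z z1 z2
    right; left
    unfold Rc
    simp only
    omega
  have s3 : CP {c | q.U i c} (q.fx' i, q.uy i) (q.fx' i, q.fy i) := by
    apply cp_v
    intro z z1 z2
    right; right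
    unfold Rc
    simp only
    omega
  exact s1.trans (s2.trans s3)

lemma U_foot (i : ℤ) : q.U i (q.fx i, q.fy i) ∧ q.U i (q.fx' i, q.fy i) := by
  have hh := q.hh
  have e : (q.ulo i = min (q.fy i) (q.uy i) ∧ q.uhi i = max (q.fy i) (q.uy i)) := by
    unfold ulo uhi fy uy
    split_ifs <;> omega
  constructor
  · left
    unfold Rc
    simp only
    omega
  · right; right
    unfold Rc
    simp only
    omega

lemma lo_cp1 : CP {c | q.Lo c} (q.fx (2 * q.k), q.fy (2 * q.k))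
    (-q.W - 4, q.h + 1 + 2 * q.k) := by
  have hW := q.hW
  have hn := q.hn
  have hk := q.hk
  have hh := q.hh
  have ha' := q.ha'
  have b1 := q.bounds (i := 2 * q.k) (by omega) (by omega)
  have key : CP {c | q.Lo c} (q.fx (2 * q.k), q.fy (2 * q.k)) (-q.W - 3, -q.h - 2) := by
    rcases lt_or_eq_of_le ha' with h | h
    · have e : q.fy (2 * q.k) = -q.h - 1 := by unfold fy; rw [if_neg (by omega)]
      rw [e]
      have s1 : CP {c | q.Lo c} (q.fx (2 * q.k), -q.h - 1) (q.fx (2 * q.k), -q.h - 2) := by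
        apply cp_v
        intro z z1 z2
        refine Or.inl ⟨h, Or.inl ?_⟩
        unfold Rc
        simp only
        omega
      have s2 : CP {c | q.Lo c} (q.fx (2 * q.k), -q.h - 2) (-q.W - 3, -q.h - 2) := by
        apply cp_h
        intro z z1 z2
        refine Or.inl ⟨h, Or.inr ?_⟩
        unfold Rc
        simp only
        omega
      exact s1.trans s2
    · have e : q.fy (2 * q.k) = q.h := by unfold fy; rw [if_pos (by omega)]
      rw [e]
      have s1 : CP {c | q.Lo c} (q.fx (2 * q.k), q.h) (q.fx (2 * q.k), q.h + 1) := by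
        apply cp_v
        intro z z1 z2
        refine Or.inr (Or.inl ⟨h, Or.inl ?_⟩)
        unfold Rc
        simp only
        omega
      have s2 : CP {c | q.Lo c} (q.fx (2 * q.k), q.h + 1) (q.W + 1, q.h + 1) := by
        apply cp_h
        intro z z1 z2
        refine Or.inr (Or.inl ⟨h, Or.inr (Or.inl ?_)⟩)
        unfold Rc
        simp only
        omega
      have s3 : CP {c | q.Lo c} (q.W + 1, q.h + 1) (q.W + 1, -q.h - 2) := by
        apply cp_v
        intro z z1 z2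
        refine Or.inr (Or.inl ⟨h, Or.inr (Or.inr (Or.inl ?_))⟩)
        unfold Rc
        simp only
        omega
      have s4 : CP {c | q.Lo c} (q.W + 1, -q.h - 2) (-q.W - 3, -q.h - 2) := by
        apply cp_h
        intro z z1 z2
        refine Or.inr (Or.inl ⟨h, Or.inr (Or.inr (Or.inr ?_))⟩)
        unfold Rc
        simp only
        omega
      exact s1.trans (s2.trans (s3.trans s4))
  have s5 : CP {c | q.Lo c} (-q.W - 3, -q.h - 2) (-q.W - 3, q.h + 1 + 2 * q.k) := by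
    apply cp_v
    intro z z1 z2
    refine Or.inr (Or.inr (Or.inl ?_))
    unfold Rc
    simp only
    omega
  have s6 : CP {c | q.Lo c} (-q.W - 3, q.h + 1 + 2 * q.k) (-q.W - 4, q.h + 1 + 2 * q.k) := by
    apply cp_h
    intro z z1 z2
    refine Or.inr (Or.inr (Or.inr (Or.inl ?_)))
    unfold Rc
    simp only
    omega
  exact key.trans (s5.trans s6)

lemma lo_cp2 : CP {c | q.Lo c} (-q.W - 4, q.h + 1 + 2 * q.k)
    (q.n - q.W - 4, -q.n + q.h + 1 + 2 * q.k) := by
  have hW := q.hW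
  have hn := q.hn
  have hk := q.hk
  have hh := q.hh
  have s1 : CP {c | q.Lo c} (-q.W - 4, q.h + 1 + 2 * q.k) (q.n - q.W - 4, q.h + 1 + 2 * q.k) := by
    apply cp_h
    intro z z1 z2
    refine Or.inr (Or.inr (Or.inr (Or.inl ?_)))
    unfold Rc
    simp only
    omega
  have s2 : CP {c | q.Lo c} (q.n - q.W - 4, q.h + 1 + 2 * q.k)
      (q.n - q.W - 4, -q.n + q.h + 1 + 2 * q.k) := by
    apply cp_v
    intro z z1 z2
    refine Or.inr (Or.inr (Or.inr (Or.inr ?_)))
    unfold Rc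
    simp only
    omega
  exact s1.trans s2

lemma stair (A : Set (ℤ × ℤ)) (r : ℤ) (hA : ∀ c : ℤ × ℤ, c.1 + c.2 = r ∨ c.1 + c.2 = r + 1 → c ∈ A)
    (t : ℕ) : CP A (0, r) (t, r - t) := by
  induction t with
  | zero =>
    simp only [Nat.cast_zero, sub_zero]
    exact Relation.ReflTransGen.refl
  | succ t ih =>
    refine ih.trans ?_
    have s1 : CP A ((t : ℤ), r - t) ((t : ℤ) + 1, r - t) := by
      apply cp_h
      intro z z1 z2
      apply hA
      simp only
      omega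
    have s2 : CP A ((t : ℤ) + 1, r - t) ((t : ℤ) + 1, r - t - 1) := by
      apply cp_v
      intro z z1 z2
      apply hA
      simp only
      omega
    have e : (((t + 1 : ℕ) : ℤ), r - ((t + 1 : ℕ) : ℤ)) = ((t : ℤ) + 1, r - t - 1) := by
      push_cast
      ext <;> simp only ; ring
    rw [e]
    exact s1.trans s2

lemma stair' (A : Set (ℤ × ℤ)) (r : ℤ)
    (hA : ∀ c : ℤ × ℤ, c.1 + c.2 = r ∨ c.1 + c.2 = r + 1 → c ∈ A) :
    CP A (0, r) (q.n, r - q.n) := by
  have hW := q.hW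
  have hn := q.hn
  have hk := q.hk
  have hh := q.hh
  have h := stair A r hA q.n.toNat
  have e : (q.n.toNat : ℤ) = q.n := Int.toNat_of_nonneg (by omega)
  rw [e] at h
  exact h

end LP

end CB
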