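import Pool.Agent.Helper8.CB.PItems
import Pool.Agent.Helper47.Perc.Aspect

/-!
Nets: connected sets of macroscopic cells crossed in all directions by paths of one colour.
-/

namespace CB
open Finset H47Perc
open Pool.Agent.Helper69.RSW

/-- the lattice box of a cell -/
noncomputable def cb (m : ℤ) (c : ℤ × ℤ) : Finset (ℤ × ℤ) :=
  box (m * c.1) (m * c.1 + m - 1) (m * c.2) (m * c.2 + m - 1)

/-- the lattice box of two horizontal neighbours -/
noncomputable def hb (m : ℤ) (c : ℤ × ℤ) : Finset (ℤ × ℤ) :=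
  box (m * c.1) (m * c.1 + 2 * m - 1) (m * c.2) (m * c.2 + m - 1)

/-- the lattice box of two vertical neighbours -/
noncomputable def vb (m : ℤ) (c : ℤ × ℤ) : Finset (ℤ × ℤ) :=
  box (m * c.1) (m * c.1 + m - 1) (m * c.2) (m * c.2 + 2 * m - 1)

/-- the tiles of a set of cells -/
def Reg (m : ℤ) (A : Set (ℤ × ℤ)) : Set (ℤ × ℤ) :=
  {t | ∃ c ∈ A, 2 * m * c.1 ≤ t.1 ∧ t.1 < 2 * m * (c.1 + 1) ∧
    2 * m * c.2 ≤ t.2 ∧ t.2 < 2 * m * (c.2 + 1)}

/-- the cells of `A` are crossed by colour `κ` in all directions -/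
def Net (κ m : ℤ) (A : Set (ℤ × ℤ)) (S : Set (ℤ × ℤ)) : Prop :=
  ∀ c ∈ A,
    LR (m * c.1) (m * c.1 + m - 1) (m * c.2) (m * c.2 + m - 1) (op κ (edgesIn (cb m c)) S) ∧
    BT (m * c.1) (m * c.1 + m - 1) (m * c.2) (m * c.2 + m - 1) (op κ (edgesIn (cb m c)) S) ∧
    ((c.1 + 1, c.2) ∈ A →
      LR (m * c.1) (m * c.1 + 2 * m - 1) (m * c.2) (m * c.2 + m - 1)
        (op κ (edgesIn (hb m c)) S)) ∧
    ((c.1, c.2 + 1) ∈ A →
      BT (m * c.1) (m * c.1 + m - 1) (m * c.2) (m * c.2 + 2 * m - 1)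
        (op κ (edgesIn (vb m c)) S))

/-- the vertex `u` is joined to the four sides of the cell -/
def HubV (κ m : ℤ) (c : ℤ × ℤ) (S : Set (ℤ × ℤ)) (u : ℤ × ℤ) : Prop :=
  u ∈ cb m c ∧
  (∃ l, m * c.2 ≤ l ∧ l ≤ m * c.2 + m - 1 ∧ Joined (op κ (edgesIn (cb m c)) S) u (m * c.1, l)) ∧
  (∃ r, m * c.2 ≤ r ∧ r ≤ m * c.2 + m - 1 ∧
    Joined (op κ (edgesIn (cb m c)) S) u (m * c.1 + m - 1, r)) ∧
  (∃ b, m * c.1 ≤ b ∧ b ≤ m * c.1 + m - 1 ∧ Joined (op κ (edgesIn (cb m c)) S) u (b, m * c.2)) ∧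
  (∃ t, m * c.1 ≤ t ∧ t ≤ m * c.1 + m - 1 ∧
    Joined (op κ (edgesIn (cb m c)) S) u (t, m * c.2 + m - 1))

/-- a horizontal and a vertical crossing meet -/
theorem cross_joined {κ : ℤ} {S : Set (ℤ × ℤ)} {G : Finset (ℤ × ℤ)}
    {a b c d a' b' c' d' x x' y y' : ℤ} (h1 : box a b c d ⊆ G) (h2 : box a' b' c' d' ⊆ G)
    (j1 : Joined (op κ (edgesIn (box a b c d)) S) (a, y) (b, y')) (hy : c ≤ y) (hy' : y ≤ d)
    (j2 : Joined (op κ (edgesIn (box a' b' c' d')) S) (x, c') (x', d')) (hx : a' ≤ x)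
    (hx' : x ≤ b') (ha : a ≤ a') (hb : b' ≤ b) (hc : c' ≤ c) (hd : d ≤ d')
    (hab : a ≤ b) (hcd : c' ≤ d') :
    Joined (op κ (edgesIn G) S) (a, y) (x, c') := by
  classical
  have m1 := op_mono (κ := κ) (edgesIn_mono h1) S
  have m2 := op_mono (κ := κ) (edgesIn_mono h2) S
  obtain ⟨q, hq1, hq2⟩ := joined_walk_in (op_subset (κ := κ) (S := S))
    (by rw [mem_box]; simp only; omega) j1
  obtain ⟨p, hp1, hp2⟩ := joined_walk_in (op_subset (κ := κ) (S := S))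
    (by rw [mem_box]; simp only; omega) j2
  rcases eq_or_lt_of_le hcd with h | h
  · have e1 : c' = c := by omega
    have e2 : d' = c := by omega
    have e3 : d = c := by omega
    have e4 : y = c := by omega
    obtain ⟨w, hw⟩ : ∃ w, w ∈ q.support ∧ w.1 = x := by
      by_contra hcon
      have : ∀ w ∈ q.support, w.1 < x := by
        intro w hw
        have h5 : Joined (op κ (edgesIn (box a b c d)) S) (a, y) w :=
          walk_joined (q.takeUntil w hw) (fun e he => hq1 e (q.edges_takeUntil_subset_edges hw he))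
        have key : ∀ (u v : ℤ × ℤ) (r : lattice.Walk u v), u.1 < x →
            (∀ z ∈ r.support, z.1 ≠ x) → v.1 < x := by
          intro u v r
          induction r with
          | nil => intro h _; exact h
          | @cons u1 v1 w1 hadj r ih =>
            intro h hz
            apply ih
            · have h6 := hz v1 (by
                rw [SimpleGraph.Walk.support_cons]
                exact List.mem_cons_of_mem _ r.start_mem_support)
              have h7 : v1.1 ≤ u1.1 + 1 := by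
                rcases hadj with ⟨h, _⟩ | ⟨_, h⟩
                · omega
                · have := abs_le.1 (le_of_eq h)
                  omega
              omega
            · intro z hz'
              exact hz z (by
                rw [SimpleGraph.Walk.support_cons]
                exact List.mem_cons_of_mem _ hz')
        apply key _ _ (q.takeUntil w hw)
        · have h8 := hq2 _ q.start_mem_support
          have h9 : (a, y) ∈ q.support := q.start_mem_support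
          have h10 : a ≠ x := fun h => hcon ⟨_, h9, h⟩
          simp only
          omega
        · intro z hz h11
          exact hcon ⟨z, q.support_takeUntil_subset_support hw hz, h11⟩
      have := this _ q.end_mem_support
      simp only at this
      omega
    obtain ⟨hw1, hw2⟩ := hw
    have hw3 := hq2 w hw1
    rw [mem_box] at hw3
    have hw4 : w = (x, c') := by
      ext
      · exact hw2
      · simp only; omega
    rw [← hw4]
    exact joined_mono m1 (walk_joined (q.takeUntil w hw1)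
      (fun e he => hq1 e (q.edges_takeUntil_subset_edges hw1 he)))
  · obtain ⟨w, hw1, hw2⟩ := crossing_walks p.reverse q (by simpa using h)
      (fun w hw => by have := hq2 w hw; rw [mem_box] at this; simp only; omega)
      (fun w hw => by
        rw [SimpleGraph.Walk.support_reverse, List.mem_reverse] at hw
        have := hp2 w hw; rw [mem_box] at this; simp only; omega)
      (fun w hw => by
        rw [SimpleGraph.Walk.support_reverse, List.mem_reverse] at hw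
        have := hp2 w hw; rw [mem_box] at this; simp only; omega)
    rw [SimpleGraph.Walk.support_reverse, List.mem_reverse] at hw1
    have k1 : Joined (op κ (edgesIn (box a b c d)) S) (a, y) w :=
      walk_joined (q.takeUntil w hw2) (fun e he => hq1 e (q.edges_takeUntil_subset_edges hw2 he))
    have k2 : Joined (op κ (edgesIn (box a' b' c' d')) S) (x, c') w :=
      walk_joined (p.takeUntil w hw1) (fun e he => hp1 e (p.edges_takeUntil_subset_edges hw1 he))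
    exact joined_trans (joined_mono m1 k1) (joined_symm (joined_mono m2 k2))

lemma cb_sub_hb {m : ℤ} (hm : 1 ≤ m) (c : ℤ × ℤ) : cb m c ⊆ hb m c := by
  intro u hu
  unfold cb at hu
  unfold hb
  rw [mem_box] at hu ⊢
  omega

lemma cb_sub_vb {m : ℤ} (hm : 1 ≤ m) (c : ℤ × ℤ) : cb m c ⊆ vb m c := by
  intro u hu
  unfold cb at hu
  unfold vb
  rw [mem_box] at hu ⊢
  omega

lemma cb_sub_hb' {m : ℤ} (hm : 1 ≤ m) (c : ℤ × ℤ) : cb m (c.1 + 1, c.2) ⊆ hb m c := by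
  intro u hu
  unfold cb at hu
  unfold hb
  rw [mem_box] at hu ⊢
  simp only [mul_add, mul_one] at hu
  omega

lemma cb_sub_vb' {m : ℤ} (hm : 1 ≤ m) (c : ℤ × ℤ) : cb m (c.1, c.2 + 1) ⊆ vb m c := by
  intro u hu
  unfold cb at hu
  unfold vb
  rw [mem_box] at hu ⊢
  simp only [mul_add, mul_one] at hu
  omega

/-- hubs exist -/
theorem exists_hubV {κ m : ℤ} (hm : 1 ≤ m) {A S : Set (ℤ × ℤ)} (h : Net κ m A S) {c : ℤ × ℤ}
    (hc : c ∈ A) : ∃ u, HubV κ m c S u := by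
  obtain ⟨⟨y, y', h1, h2, h3, h4, h5⟩, ⟨x, x', g1, g2, g3, g4, g5⟩, _⟩ := h c hc
  have key := cross_joined (κ := κ) (S := S) (G := cb m c) (Finset.Subset.refl _)
    (Finset.Subset.refl _) h5 h1 h2 g5 g1 g2 le_rfl le_rfl le_rfl le_rfl (by omega) (by omega)
  refine ⟨(m * c.1, y), ?_, ⟨y, h1, h2, joined_refl _ _⟩, ⟨y', h3, h4, h5⟩,
    ⟨x, g1, g2, key⟩, ⟨x', g3, g4, joined_trans key g5⟩⟩
  unfold cb
  rw [mem_box]
  simp only
  omega

/-- the hubs of a cell are joined -/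
theorem hub_hub {κ m : ℤ} (hm : 1 ≤ m) {S : Set (ℤ × ℤ)} {c u v : ℤ × ℤ}
    (hu : HubV κ m c S u) (hv : HubV κ m c S v) :
    Joined (op κ (edgesIn (cb m c)) S) u v := by
  obtain ⟨_, ⟨l, l1, l2, l3⟩, ⟨r, r1, r2, r3⟩, _, _⟩ := hu
  obtain ⟨_, _, _, ⟨b, b1, b2, b3⟩, ⟨t, t1, t2, t3⟩⟩ := hv
  have key := cross_joined (κ := κ) (S := S) (G := cb m c) (Finset.Subset.refl _)
    (Finset.Subset.refl _) (joined_trans (joined_symm l3) r3) l1 l2
    (joined_trans (joined_symm b3) t3) b1 b2 le_rfl le_rfl le_rfl le_rfl (by omega) (by omega)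
  exact joined_trans l3 (joined_trans key (joined_symm b3))

/-- the hubs of horizontal neighbours are joined -/
theorem hub_right {κ m : ℤ} (hm : 1 ≤ m) {S : Set (ℤ × ℤ)} {c u v : ℤ × ℤ}
    (h : LR (m * c.1) (m * c.1 + 2 * m - 1) (m * c.2) (m * c.2 + m - 1)
        (op κ (edgesIn (hb m c)) S))
    (hu : HubV κ m c S u) (hv : HubV κ m (c.1 + 1, c.2) S v) :
    Joined (op κ (edgesIn (hb m c)) S) u v := by
  obtain ⟨_, _, _, ⟨b, b1, b2, b3⟩, ⟨t, t1, t2, t3⟩⟩ := hu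
  obtain ⟨_, _, _, ⟨b', b1', b2', b3'⟩, ⟨t', t1', t2', t3'⟩⟩ := hv
  obtain ⟨y, y', h1, h2, h3, h4, h5⟩ := h
  have s1 := op_mono (κ := κ) (edgesIn_mono (cb_sub_hb hm c)) S
  have s2 := op_mono (κ := κ) (edgesIn_mono (cb_sub_hb' hm c)) S
  have key := cross_joined (κ := κ) (S := S) (G := hb m c) (Finset.Subset.refl _)
    (cb_sub_hb hm c) h5 h1 h2
    (joined_trans (joined_symm b3) t3) b1 b2 le_rfl (by omega) le_rfl le_rfl (by omega) (by omega)
  simp only at b1' b2' t1' t2' b3' t3'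
  have e1 : m * (c.1 + 1) = m * c.1 + m := by ring
  have key' := cross_joined (κ := κ) (S := S) (G := hb m c) (Finset.Subset.refl _)
    (cb_sub_hb' hm c) h5 h1 h2
    (joined_trans (joined_symm b3') t3') b1' b2' (by simp only; omega) (by simp only; omega)
    le_rfl le_rfl (by omega) (by simp only; omega)
  exact joined_trans (joined_mono s1 b3) (joined_trans (joined_symm key)
    (joined_trans key' (joined_symm (joined_mono s2 b3'))))

/-- the hubs of vertical neighbours are joined -/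
theorem hub_up {κ m : ℤ} (hm : 1 ≤ m) {S : Set (ℤ × ℤ)} {c u v : ℤ × ℤ}
    (h : BT (m * c.1) (m * c.1 + m - 1) (m * c.2) (m * c.2 + 2 * m - 1)
        (op κ (edgesIn (vb m c)) S))
    (hu : HubV κ m c S u) (hv : HubV κ m (c.1, c.2 + 1) S v) :
    Joined (op κ (edgesIn (vb m c)) S) u v := by
  obtain ⟨_, ⟨b, b1, b2, b3⟩, ⟨t, t1, t2, t3⟩, _, _⟩ := hu
  obtain ⟨_, ⟨b', b1', b2', b3'⟩, ⟨t', t1', t2', t3'⟩, _, _⟩ := hv
  obtain ⟨y, y', h1, h2, h3, h4, h5⟩ := h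
  have s1 := op_mono (κ := κ) (edgesIn_mono (cb_sub_vb hm c)) S
  have s2 := op_mono (κ := κ) (edgesIn_mono (cb_sub_vb' hm c)) S
  have key := cross_joined (κ := κ) (S := S) (G := vb m c) (cb_sub_vb hm c)
    (Finset.Subset.refl _) (joined_trans (joined_symm b3) t3) b1 b2 h5 h1 h2
    le_rfl le_rfl le_rfl (by omega) (by omega) (by omega)
  simp only at b1' b2' t1' t2' b3' t3'
  have e1 : m * (c.2 + 1) = m * c.2 + m := by ring
  have key' := cross_joined (κ := κ) (S := S) (G := vb m c) (cb_sub_vb' hm c)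
    (Finset.Subset.refl _) (joined_trans (joined_symm b3') t3') b1' b2' h5 h1 h2
    le_rfl le_rfl (by simp only; omega) (by simp only; omega) (by simp only; omega) (by omega)
  exact joined_trans (joined_mono s1 b3) (joined_trans key
    (joined_trans (joined_symm key') (joined_symm (joined_mono s2 b3'))))

/-! ### faces -/

/-- the face `f` of colour `κ` in the cell `c` is joined to the four sides of the cell -/
def Hub (κ m : ℤ) (c : ℤ × ℤ) (S : Set (ℤ × ℤ)) (f : ℤ × ℤ) : Prop :=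
  ∃ u, f = fa κ u ∧ HubV κ m c S u

lemma Hub.mem {κ m : ℤ} (hκ : κ = 0 ∨ κ = 1) {c : ℤ × ℤ} {S : Set (ℤ × ℤ)} {f : ℤ × ℤ}
    (h : Hub κ m c S f) : 2 * m * c.1 ≤ f.1 ∧ f.1 < 2 * m * (c.1 + 1) ∧
      2 * m * c.2 ≤ f.2 ∧ f.2 < 2 * m * (c.2 + 1) ∧ (2 : ℤ) ∣ f.1 - κ ∧ (2 : ℤ) ∣ f.2 - κ := by
  obtain ⟨u, rfl, h1, _⟩ := h
  unfold cb at h1
  rw [mem_box] at h1
  unfold fa
  simp only
  have e1 : 2 * m * c.1 = 2 * (m * c.1) := by ring
  have e2 : 2 * m * (c.1 + 1) = 2 * (m * c.1 + m) := by ring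
  have e3 : 2 * m * c.2 = 2 * (m * c.2) := by ring
  have e4 : 2 * m * (c.2 + 1) = 2 * (m * c.2 + m) := by ring
  rw [e1, e2, e3, e4]
  refine ⟨by omega, by omega, by omega, by omega, ⟨u.1, by ring⟩, ⟨u.2, by ring⟩⟩

theorem exists_hub {κ m : ℤ} (hm : 1 ≤ m) {A S : Set (ℤ × ℤ)} (h : Net κ m A S) {c : ℤ × ℤ}
    (hc : c ∈ A) : ∃ f, Hub κ m c S f := by
  obtain ⟨u, hu⟩ := exists_hubV hm h hc
  exact ⟨fa κ u, u, rfl, hu⟩

lemma Reg_mono {m : ℤ} {A A' : Set (ℤ × ℤ)} (h : A ⊆ A') : Reg m A ⊆ Reg m A' := by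
  rintro t ⟨c, hc, h1⟩
  exact ⟨c, h hc, h1⟩

lemma Net.mono {κ m : ℤ} {A A' S : Set (ℤ × ℤ)} (h : Net κ m A' S) (hA : A ⊆ A') :
    Net κ m A S := by
  intro c hc
  obtain ⟨h1, h2, h3, h4⟩ := h c (hA hc)
  exact ⟨h1, h2, fun h => h3 (hA h), fun h => h4 (hA h)⟩

lemma tile_cb {κ m : ℤ} (hκ : κ = 0 ∨ κ = 1) {c : ℤ × ℤ} {e : Sym2 (ℤ × ℤ)}
    (he : e ∈ edgesIn (cb m c)) : tl κ e ∈ Reg m {c} := by
  refine ⟨c, rfl, ?_⟩
  have e1 : 2 * m * c.1 = 2 * (m * c.1) := by ring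
  have e2 : 2 * m * (c.1 + 1) = 2 * (m * c.1 + m) := by ring
  have e3 : 2 * m * c.2 = 2 * (m * c.2) := by ring
  have e4 : 2 * m * (c.2 + 1) = 2 * (m * c.2 + m) := by ring
  rw [e1, e2, e3, e4]
  have h := (mem_TB (κ := κ)).1 (Finset.mem_image_of_mem (tl κ) he)
  rcases h with ⟨x, y, h, h1, h2, h3, h4⟩ | ⟨x, y, h, h1, h2, h3, h4⟩
  · rw [h]; simp only; omega
  · rw [h]; simp only; omega

lemma tile_hb {κ m : ℤ} (hκ : κ = 0 ∨ κ = 1) {c : ℤ × ℤ} {e : Sym2 (ℤ × ℤ)}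
    (he : e ∈ edgesIn (hb m c)) : tl κ e ∈ Reg m {c, (c.1 + 1, c.2)} := by
  have e1 : 2 * m * c.1 = 2 * (m * c.1) := by ring
  have e2 : 2 * m * (c.1 + 1) = 2 * (m * c.1 + m) := by ring
  have e2' : 2 * m * (c.1 + 1 + 1) = 2 * (m * c.1 + 2 * m) := by ring
  have e3 : 2 * m * c.2 = 2 * (m * c.2) := by ring
  have e4 : 2 * m * (c.2 + 1) = 2 * (m * c.2 + m) := by ring
  have key : 2 * (m * c.1) ≤ (tl κ e).1 ∧ (tl κ e).1 < 2 * (m * c.1 + 2 * m) ∧
      2 * (m * c.2) ≤ (tl κ e).2 ∧ (tl κ e).2 < 2 * (m * c.2 + m) := by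
    have h := (mem_TB (κ := κ)).1 (Finset.mem_image_of_mem (tl κ) he)
    rcases h with ⟨x, y, h, h1, h2, h3, h4⟩ | ⟨x, y, h, h1, h2, h3, h4⟩
    · rw [h]; simp only; omega
    · rw [h]; simp only; omega
  rcases lt_or_ge (tl κ e).1 (2 * (m * c.1 + m)) with h | h
  · refine ⟨c, Or.inl rfl, ?_⟩
    rw [e1, e2, e3, e4]
    omega
  · refine ⟨(c.1 + 1, c.2), Or.inr rfl, ?_⟩
    simp only
    rw [e2, e2', e3, e4]
    omega

lemma tile_vb {κ m : ℤ} (hκ : κ = 0 ∨ κ = 1) {c : ℤ × ℤ} {e : Sym2 (ℤ × ℤ)}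
    (he : e ∈ edgesIn (vb m c)) : tl κ e ∈ Reg m {c, (c.1, c.2 + 1)} := by
  have e1 : 2 * m * c.1 = 2 * (m * c.1) := by ring
  have e2 : 2 * m * (c.1 + 1) = 2 * (m * c.1 + m) := by ring
  have e3 : 2 * m * c.2 = 2 * (m * c.2) := by ring
  have e4 : 2 * m * (c.2 + 1) = 2 * (m * c.2 + m) := by ring
  have e4' : 2 * m * (c.2 + 1 + 1) = 2 * (m * c.2 + 2 * m) := by ring
  have key : 2 * (m * c.1) ≤ (tl κ e).1 ∧ (tl κ e).1 < 2 * (m * c.1 + m) ∧
      2 * (m * c.2) ≤ (tl κ e).2 ∧ (tl κ e).2 < 2 * (m * c.2 + 2 * m) := by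
    have h := (mem_TB (κ := κ)).1 (Finset.mem_image_of_mem (tl κ) he)
    rcases h with ⟨x, y, h, h1, h2, h3, h4⟩ | ⟨x, y, h, h1, h2, h3, h4⟩
    · rw [h]; simp only; omega
    · rw [h]; simp only; omega
  rcases lt_or_ge (tl κ e).2 (2 * (m * c.2 + m)) with h | h
  · refine ⟨c, Or.inl rfl, ?_⟩
    rw [e1, e2, e3, e4]
    omega
  · refine ⟨(c.1, c.2 + 1), Or.inr rfl, ?_⟩
    simp only
    rw [e1, e2, e4, e4']
    omega

/-- neighbouring cells -/
def Nb (c c' : ℤ × ℤ) : Prop :=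
  c' = (c.1 + 1, c.2) ∨ c = (c'.1 + 1, c'.2) ∨ c' = (c.1, c.2 + 1) ∨ c = (c'.1, c'.2 + 1)

lemma cn_region {κ : ℤ} {G : Finset (ℤ × ℤ)} {S R : Set (ℤ × ℤ)} {u v : ℤ × ℤ}
    (h : H47Perc.Joined (op κ (edgesIn G) S) u v) (hR : ∀ e ∈ edgesIn G, tl κ e ∈ R) :
    Cn S R (fa κ u) (fa κ v) := by
  refine (cn_of_joined h).mono ?_
  intro t ht
  obtain ⟨e, he, rfl⟩ := Finset.mem_image.1 (Finset.mem_coe.1 ht)
  exact hR e he

theorem hub_same {κ m : ℤ} (hκ : κ = 0 ∨ κ = 1) (hm : 1 ≤ m) {S : Set (ℤ × ℤ)} {c f g : ℤ × ℤ}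
    (hf : Hub κ m c S f) (hg : Hub κ m c S g) : Cn S (Reg m {c}) f g := by
  obtain ⟨u, rfl, hu⟩ := hf
  obtain ⟨v, rfl, hv⟩ := hg
  exact cn_region (hub_hub hm hu hv) (fun e he => tile_cb hκ he)

theorem hub_nb {κ m : ℤ} (hκ : κ = 0 ∨ κ = 1) (hm : 1 ≤ m) {A S : Set (ℤ × ℤ)}
    (h : Net κ m A S) {c c' f g : ℤ × ℤ} (hc : c ∈ A) (hc' : c' ∈ A) (hn : Nb c c')
    (hf : Hub κ m c S f) (hg : Hub κ m c' S g) : Cn S (Reg m {c, c'}) f g := by
  obtain ⟨u, rfl, hu⟩ := hf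
  obtain ⟨v, rfl, hv⟩ := hg
  rcases hn with rfl | rfl | rfl | rfl
  · exact cn_region (hub_right hm ((h c hc).2.2.1 hc') hu hv) (fun e he => tile_hb hκ he)
  · rw [Set.pair_comm]
    exact (cn_region (hub_right hm ((h c' hc').2.2.1 hc) hv hu)
      (fun e he => tile_hb hκ he)).symm
  · exact cn_region (hub_up hm ((h c hc).2.2.2 hc') hu hv) (fun e he => tile_vb hκ he)
  · rw [Set.pair_comm]
    exact (cn_region (hub_up hm ((h c' hc').2.2.2 hc) hv hu)
      (fun e he => tile_vb hκ he)).symm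

/-- lattice paths of cells in `A` -/
def CP (A : Set (ℤ × ℤ)) : ℤ × ℤ → ℤ × ℤ → Prop :=
  Relation.ReflTransGen (fun c c' => c ∈ A ∧ c' ∈ A ∧ Nb c c')

/-- **The hubs of a connected net are joined in the region of the net.** -/
theorem net_conn {κ m : ℤ} (hκ : κ = 0 ∨ κ = 1) (hm : 1 ≤ m) {A S : Set (ℤ × ℤ)}
    (h : Net κ m A S) {c c' f g : ℤ × ℤ} (hc : c ∈ A) (hp : CP A c c')
    (hf : Hub κ m c S f) (hg : Hub κ m c' S g) : Cn S (Reg m A) f g := by
  unfold CP at hp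
  induction hp generalizing g with
  | refl =>
    refine (hub_same hκ hm hf hg).mono (Reg_mono ?_)
    intro x hx
    rw [Set.mem_singleton_iff] at hx
    rw [hx]
    exact hc
  | tail _ h1 ih =>
    obtain ⟨a1, a2, a3⟩ := h1
    obtain ⟨k, hk⟩ := exists_hub hm h a1
    refine (ih hk).trans ?_
    refine (hub_nb hκ hm h a1 a2 a3 hk hg).mono (Reg_mono ?_)
    intro x hx
    rcases hx with rfl | hx
    · exact a1
    · rw [Set.mem_singleton_iff] at hx
      rw [hx]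
      exact a2

/-- nets depend only on the configuration in their region -/
theorem Net.congr {κ m : ℤ} (hκ : κ = 0 ∨ κ = 1) {A S S' : Set (ℤ × ℤ)}
    (hS : ∀ t ∈ Reg m A, (t ∈ S ↔ t ∈ S')) (h : Net κ m A S) : Net κ m A S' := by
  intro c hc
  obtain ⟨h1, h2, h3, h4⟩ := h c hc
  have e1 : op κ (edgesIn (cb m c)) S' = op κ (edgesIn (cb m c)) S := by
    refine op_congr fun e he => (hS _ ?_).symm
    exact Reg_mono (Set.singleton_subset_iff.2 hc) (tile_cb hκ he)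
  rw [e1]
  refine ⟨h1, h2, fun h => ?_, fun h => ?_⟩
  · have e2 : op κ (edgesIn (hb m c)) S' = op κ (edgesIn (hb m c)) S := by
      refine op_congr fun e he => (hS _ ?_).symm
      exact Reg_mono (Set.insert_subset hc (Set.singleton_subset_iff.2 h)) (tile_hb hκ he)
    rw [e2]
    exact h3 h
  · have e2 : op κ (edgesIn (vb m c)) S' = op κ (edgesIn (vb m c)) S := by
      refine op_congr fun e he => (hS _ ?_).symm
      exact Reg_mono (Set.insert_subset hc (Set.singleton_subset_iff.2 h)) (tile_vb hκ he)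
    rw [e2]
    exact h4 h

theorem Hub.congr {κ m : ℤ} (hκ : κ = 0 ∨ κ = 1) {c : ℤ × ℤ} {S S' : Set (ℤ × ℤ)}
    (hS : ∀ t ∈ Reg m {c}, (t ∈ S ↔ t ∈ S')) {f : ℤ × ℤ} (h : Hub κ m c S f) :
    Hub κ m c S' f := by
  obtain ⟨u, rfl, hu⟩ := h
  refine ⟨u, rfl, ?_⟩
  have e1 : op κ (edgesIn (cb m c)) S' = op κ (edgesIn (cb m c)) S := by
    refine op_congr fun e he => (hS _ ?_).symm
    exact tile_cb hκ he
  unfold HubV at *
  rw [e1]
  exact hu

end CB
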