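import Pool.Agent.Helper8.CB.Net

/-!
Nets have positive probability.
-/

namespace CB
open Finset H47Perc
open Pool.Agent.Helper69.RSW

lemma exists_xc : ∃ c : ℝ, 0 < c ∧ c ≤ 1 ∧ ∀ m : ℤ, 1 ≤ m →
    c ≤ pLR (m - 1) (m - 1) ∧ c ≤ pLR (2 * m - 1) (m - 1) := by
  obtain ⟨c, hc, h⟩ := H46.rsw_pLR 3
  have hp : 0 < pLR 1 0 := H46.pLR_pos (by norm_num) (by norm_num)
  refine ⟨min 1 (min c (pLR 1 0)), lt_min one_pos (lt_min hc hp), min_le_left _ _, ?_⟩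
  intro m hm
  rcases eq_or_lt_of_le hm with h1 | h1
  · subst h1
    have e1 : (2 : ℤ) * 1 - 1 = 1 := by norm_num
    have e2 : (1 : ℤ) - 1 = 0 := by norm_num
    rw [e1, e2]
    have h2 : pLR 1 0 ≤ pLR 0 0 := pLR_anti (by norm_num) (by norm_num) 0
    exact ⟨(min_le_right _ _).trans ((min_le_right _ _).trans h2),
      (min_le_right _ _).trans (min_le_right _ _)⟩
  · obtain ⟨n, hn⟩ : ∃ n : ℕ, m = n + 1 := ⟨(m - 1).toNat, by omega⟩
    subst hn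
    have h3 := h n (by omega)
    have e1 : ((n : ℤ) + 1) - 1 = n := by ring
    have h4 : pLR (3 * n) n ≤ pLR n n := pLR_anti (by omega) (by omega) _
    have h5 : pLR (3 * n) n ≤ pLR (2 * ((n : ℤ) + 1) - 1) n :=
      pLR_anti (by omega) (by omega) _
    rw [e1]
    have h6 : min 1 (min c (pLR 1 0)) ≤ c := (min_le_right _ _).trans (min_le_left _ _)
    push_cast at h3
    exact ⟨h6.trans (h3.trans h4), h6.trans (h3.trans h5)⟩

/-- the constant of the crossings -/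
noncomputable def xc : ℝ := exists_xc.choose

lemma xc_pos : 0 < xc := exists_xc.choose_spec.1
lemma xc_le_one : xc ≤ 1 := exists_xc.choose_spec.2.1
lemma xc_cell {m : ℤ} (hm : 1 ≤ m) : xc ≤ pLR (m - 1) (m - 1) :=
  (exists_xc.choose_spec.2.2 m hm).1
lemma xc_long {m : ℤ} (hm : 1 ≤ m) : xc ≤ pLR (2 * m - 1) (m - 1) :=
  (exists_xc.choose_spec.2.2 m hm).2

/-- the constant of the nets -/
noncomputable def nc : ℝ := xc ^ 4

lemma nc_pos : 0 < nc := pow_pos xc_pos 4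
lemma nc_le_one : nc ≤ 1 := pow_le_one₀ xc_pos.le xc_le_one

lemma P_LR (a b c d : ℤ) : P (edgesIn (box a b c d)) (LR a b c d) = pLR (b - a) (d - c) := by
  rw [← perc_LR, Pool.Agent.Helper69.RSW.perc_half_eq]

lemma P_BT (a b c d : ℤ) : P (edgesIn (box a b c d)) (BT a b c d) = pLR (d - c) (b - a) := by
  rw [← perc_BT, Pool.Agent.Helper69.RSW.perc_half_eq]

/-- the four types of crossings -/
noncomputable def Gi (m : ℤ) (j : (ℤ × ℤ) × Fin 4) : Finset (ℤ × ℤ) :=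
  if j.2 = 2 then hb m j.1 else if j.2 = 3 then vb m j.1 else cb m j.1

def Ai (m : ℤ) (j : (ℤ × ℤ) × Fin 4) (w : Finset (Sym2 (ℤ × ℤ))) : Prop :=
  if j.2 = 0 then
    LR (m * j.1.1) (m * j.1.1 + m - 1) (m * j.1.2) (m * j.1.2 + m - 1) w
  else if j.2 = 1 then
    BT (m * j.1.1) (m * j.1.1 + m - 1) (m * j.1.2) (m * j.1.2 + m - 1) w
  else if j.2 = 2 then
    LR (m * j.1.1) (m * j.1.1 + 2 * m - 1) (m * j.1.2) (m * j.1.2 + m - 1) w
  else
    BT (m * j.1.1) (m * j.1.1 + m - 1) (m * j.1.2) (m * j.1.2 + 2 * m - 1) w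

lemma Ai_up (m : ℤ) (j : (ℤ × ℤ) × Fin 4) : Up (Ai m j) := by
  intro S T hST h
  unfold Ai at *
  split_ifs at * with h1 h2 h3
  · exact H46.LR_up _ _ _ _ S T hST h
  · exact H46.BT_up _ _ _ _ S T hST h
  · exact H46.LR_up _ _ _ _ S T hST h
  · exact H46.BT_up _ _ _ _ S T hST h

lemma Ai_P {m : ℤ} (hm : 1 ≤ m) (j : (ℤ × ℤ) × Fin 4) : xc ≤ P (edgesIn (Gi m j)) (Ai m j) := by
  obtain ⟨c, i⟩ := j
  have e1 : m * c.1 + m - 1 - m * c.1 = m - 1 := by ring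
  have e2 : m * c.2 + m - 1 - m * c.2 = m - 1 := by ring
  have e3 : m * c.1 + 2 * m - 1 - m * c.1 = 2 * m - 1 := by ring
  have e4 : m * c.2 + 2 * m - 1 - m * c.2 = 2 * m - 1 := by ring
  fin_cases i
  · have : P (edgesIn (Gi m (c, 0))) (Ai m (c, 0)) = pLR (m - 1) (m - 1) := by
      have h := P_LR (m * c.1) (m * c.1 + m - 1) (m * c.2) (m * c.2 + m - 1)
      rw [e1, e2] at h
      exact h
    exact this ▸ xc_cell hm
  · have : P (edgesIn (Gi m (c, 1))) (Ai m (c, 1)) = pLR (m - 1) (m - 1) := by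
      have h := P_BT (m * c.1) (m * c.1 + m - 1) (m * c.2) (m * c.2 + m - 1)
      rw [e1, e2] at h
      exact h
    exact this ▸ xc_cell hm
  · have : P (edgesIn (Gi m (c, 2))) (Ai m (c, 2)) = pLR (2 * m - 1) (m - 1) := by
      have h := P_LR (m * c.1) (m * c.1 + 2 * m - 1) (m * c.2) (m * c.2 + m - 1)
      rw [e3, e2] at h
      exact h
    exact this ▸ xc_long hm
  · have : P (edgesIn (Gi m (c, 3))) (Ai m (c, 3)) = pLR (2 * m - 1) (m - 1) := by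
      have h := P_BT (m * c.1) (m * c.1 + m - 1) (m * c.2) (m * c.2 + 2 * m - 1)
      rw [e1, e4] at h
      exact h
    exact this ▸ xc_long hm

/-! ### translations -/

lemma emb_hE (s : ℤ × ℤ) (x y : ℤ) : emb (transl s) (hE x y) = hE (x + s.1) (y + s.2) := by
  unfold hE
  rw [emb_mk]
  congr 1
  simp only [transl, Equiv.coe_addRight, Prod.add_def]
  have : x + 1 + s.1 = x + s.1 + 1 := by ring
  rw [this]

lemma emb_vE (s : ℤ × ℤ) (x y : ℤ) : emb (transl s) (vE x y) = vE (x + s.1) (y + s.2) := by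
  unfold vE
  rw [emb_mk]
  congr 1
  simp only [transl, Equiv.coe_addRight, Prod.add_def]
  have : y + 1 + s.2 = y + s.2 + 1 := by ring
  rw [this]

lemma op_transl {κ : ℤ} {G : Finset (ℤ × ℤ)} {S : Set (ℤ × ℤ)} {s : ℤ × ℤ}
    (hS : ∀ t : ℤ × ℤ, (t.1 + 2 * s.1, t.2 + 2 * s.2) ∈ S ↔ t ∈ S) :
    op κ (edgesIn (G.map (transl s).toEmbedding)) S
      = (op κ (edgesIn G) S).map (emb (transl s)) := by
  rw [edgesIn_map (transl_iso s)]
  have key : ∀ e ∈ edgesIn G, ((IsH (emb (transl s) e) ↔ tl κ (emb (transl s) e) ∈ S) ↔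
      (IsH e ↔ tl κ e ∈ S)) := by
    intro e he
    rcases edgesIn_cases he with ⟨x, y, rfl⟩ | ⟨x, y, rfl⟩
    · rw [emb_hE, tl_hE, tl_hE]
      have h1 : IsH (hE (x + s.1) (y + s.2)) ↔ IsH (hE x y) :=
        iff_of_true (isH_hE _ _) (isH_hE _ _)
      have h2 := hS (2 * x + 1 + κ, 2 * y + κ)
      simp only at h2
      have h3 : (2 * (x + s.1) + 1 + κ, 2 * (y + s.2) + κ)
          = (2 * x + 1 + κ + 2 * s.1, 2 * y + κ + 2 * s.2) := by
        ext <;> simp only <;> ring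
      rw [h1, h3, h2]
    · rw [emb_vE, tl_vE, tl_vE]
      have h1 : IsH (vE (x + s.1) (y + s.2)) ↔ IsH (vE x y) :=
        iff_of_false (not_isH_vE _ _) (not_isH_vE _ _)
      have h2 := hS (2 * x + κ, 2 * y + 1 + κ)
      simp only at h2
      have h3 : (2 * (x + s.1) + κ, 2 * (y + s.2) + 1 + κ)
          = (2 * x + κ + 2 * s.1, 2 * y + 1 + κ + 2 * s.2) := by
        ext <;> simp only <;> ring
      rw [h1, h3, h2]
  ext e
  rw [mem_op, Finset.mem_map, Finset.mem_map]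
  constructor
  · rintro ⟨⟨e0, he0, rfl⟩, h⟩
    exact ⟨e0, mem_op.2 ⟨he0, (key e0 he0).1 h⟩, rfl⟩
  · rintro ⟨e0, he0, rfl⟩
    rw [mem_op] at he0
    exact ⟨⟨e0, he0.1, rfl⟩, (key e0 he0.1).2 he0.2⟩

lemma BT_transl {a b c d x y : ℤ} {ω : Finset (Sym2 (ℤ × ℤ))} :
    BT (a+x) (b+x) (c+y) (d+y) (ω.map (emb (transl (x, y)))) ↔ BT a b c d ω := by
  unfold BT
  constructor
  · rintro ⟨z, z', h1, h2, h3, h4, h5⟩
    refine ⟨z - x, z' - x, by omega, by omega, by omega, by omega, ?_⟩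
    rw [← joined_map (f := transl (x, y))]
    simpa [transl] using h5
  · rintro ⟨z, z', h1, h2, h3, h4, h5⟩
    refine ⟨z + x, z' + x, by omega, by omega, by omega, by omega, ?_⟩
    rw [← joined_map (f := transl (x, y))] at h5
    simpa [transl] using h5

lemma cb_transl (m : ℤ) (c τ : ℤ × ℤ) :
    cb m (c + τ) = (cb m c).map (transl (m * τ.1, m * τ.2)).toEmbedding := by
  unfold cb
  rw [box_transl]
  simp only [Prod.fst_add, Prod.snd_add]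
  congr 1 <;> ring

lemma hb_transl (m : ℤ) (c τ : ℤ × ℤ) :
    hb m (c + τ) = (hb m c).map (transl (m * τ.1, m * τ.2)).toEmbedding := by
  unfold hb
  rw [box_transl]
  simp only [Prod.fst_add, Prod.snd_add]
  congr 1 <;> ring

lemma vb_transl (m : ℤ) (c τ : ℤ × ℤ) :
    vb m (c + τ) = (vb m c).map (transl (m * τ.1, m * τ.2)).toEmbedding := by
  unfold vb
  rw [box_transl]
  simp only [Prod.fst_add, Prod.snd_add]
  congr 1 <;> ring

/-- the crossings of the cell `c` in the net of `A` -/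
def NetC (κ m : ℤ) (A : Set (ℤ × ℤ)) (S : Set (ℤ × ℤ)) (c : ℤ × ℤ) : Prop :=
    LR (m * c.1) (m * c.1 + m - 1) (m * c.2) (m * c.2 + m - 1) (op κ (edgesIn (cb m c)) S) ∧
    BT (m * c.1) (m * c.1 + m - 1) (m * c.2) (m * c.2 + m - 1) (op κ (edgesIn (cb m c)) S) ∧
    ((c.1 + 1, c.2) ∈ A →
      LR (m * c.1) (m * c.1 + 2 * m - 1) (m * c.2) (m * c.2 + m - 1)
        (op κ (edgesIn (hb m c)) S)) ∧
    ((c.1, c.2 + 1) ∈ A →
      BT (m * c.1) (m * c.1 + m - 1) (m * c.2) (m * c.2 + 2 * m - 1)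
        (op κ (edgesIn (vb m c)) S))

lemma net_iff {κ m : ℤ} {A S : Set (ℤ × ℤ)} : Net κ m A S ↔ ∀ c ∈ A, NetC κ m A S c := Iff.rfl

lemma NetC_transl {κ m : ℤ} {A S : Set (ℤ × ℤ)} {c τ : ℤ × ℤ}
    (hA : ∀ x, x + τ ∈ A → x ∈ A)
    (hS : ∀ t : ℤ × ℤ, (t.1 + 2 * m * τ.1, t.2 + 2 * m * τ.2) ∈ S ↔ t ∈ S)
    (h : NetC κ m A S c) : NetC κ m A S (c + τ) := by
  have hS' : ∀ t : ℤ × ℤ, (t.1 + 2 * (m * τ.1, m * τ.2).1, t.2 + 2 * (m * τ.1, m * τ.2).2) ∈ S ↔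
      t ∈ S := by
    intro t
    rw [← hS t]
    simp only
    have e1 : 2 * (m * τ.1) = 2 * m * τ.1 := by ring
    have e2 : 2 * (m * τ.2) = 2 * m * τ.2 := by ring
    rw [e1, e2]
  obtain ⟨h1, h2, h3, h4⟩ := h
  have e1 : m * (c + τ).1 = m * c.1 + m * τ.1 := by rw [Prod.fst_add]; ring
  have e2 : m * (c + τ).2 = m * c.2 + m * τ.2 := by rw [Prod.snd_add]; ring
  unfold NetC
  rw [cb_transl, hb_transl, vb_transl, op_transl hS', op_transl hS', op_transl hS', e1, e2]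
  have f1 : m * c.1 + m * τ.1 + m - 1 = (m * c.1 + m - 1) + m * τ.1 := by ring
  have f2 : m * c.2 + m * τ.2 + m - 1 = (m * c.2 + m - 1) + m * τ.2 := by ring
  have f3 : m * c.1 + m * τ.1 + 2 * m - 1 = (m * c.1 + 2 * m - 1) + m * τ.1 := by ring
  have f4 : m * c.2 + m * τ.2 + 2 * m - 1 = (m * c.2 + 2 * m - 1) + m * τ.2 := by ring
  rw [f1, f2, f3, f4]
  refine ⟨LR_transl.2 h1, BT_transl.2 h2, fun h => LR_transl.2 (h3 (hA _ ?_)),
    fun h => BT_transl.2 (h4 (hA _ ?_))⟩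
  · have : ((c.1 + 1, c.2) : ℤ × ℤ) + τ = ((c + τ).1 + 1, (c + τ).2) := by
      ext <;> simp only [Prod.fst_add, Prod.snd_add] ; ring
    rw [this]
    exact h
  · have : ((c.1, c.2 + 1) : ℤ × ℤ) + τ = ((c + τ).1, (c + τ).2 + 1) := by
      ext <;> simp only [Prod.fst_add, Prod.snd_add] ; ring
    rw [this]
    exact h

/-- `A0` represents the cells of `A` modulo the periods of `π` (and of `A`) -/
def Reps {ι : Type*} (π : ℤ × ℤ → ι) (m : ℤ) (A : Set (ℤ × ℤ)) (A0 : Finset (ℤ × ℤ)) : Prop :=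
  (∀ c ∈ A0, c ∈ A) ∧ ∀ c ∈ A, ∃ c0 ∈ A0, ∃ τ : ℤ × ℤ, c = c0 + τ ∧
    (∀ x, x + τ ∈ A → x ∈ A) ∧ (∀ t : ℤ × ℤ, π (t.1 + 2 * m * τ.1, t.2 + 2 * m * τ.2) = π t)

lemma reps_finset {ι : Type*} (π : ℤ × ℤ → ι) (m : ℤ) (A : Finset (ℤ × ℤ)) :
    Reps π m (A : Set (ℤ × ℤ)) A := by
  refine ⟨fun c hc => hc, fun c hc => ⟨c, hc, (0, 0), ?_, ?_, ?_⟩⟩
  · ext <;> simp
  · intro x hx
    have : x + ((0, 0) : ℤ × ℤ) = x := by ext <;> simp
    rwa [this] at hx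
  · intro t
    simp

open Classical in
/-- the list of crossings -/
noncomputable def Items (A : Set (ℤ × ℤ)) (A0 : Finset (ℤ × ℤ)) : Finset ((ℤ × ℤ) × Fin 4) :=
  (A0 ×ˢ Finset.univ).filter (fun j => (j.2 = 2 → (j.1.1 + 1, j.1.2) ∈ A) ∧
    (j.2 = 3 → (j.1.1, j.1.2 + 1) ∈ A))

lemma items_card (A : Set (ℤ × ℤ)) (A0 : Finset (ℤ × ℤ)) : (Items A A0).card ≤ 4 * A0.card := by
  classical
  unfold Items
  refine (Finset.card_filter_le _ _).trans ?_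
  rw [Finset.card_product, Finset.card_univ, Fintype.card_fin, mul_comm]

lemma items_net {ι : Type*} {π : ℤ × ℤ → ι} {κ m : ℤ} {A : Set (ℤ × ℤ)} {A0 : Finset (ℤ × ℤ)}
    (hA : Reps π m A A0) {ω : Finset ι}
    (h : ∀ j ∈ Items A A0, Ai m j (op κ (edgesIn (Gi m j)) (pull π ω))) :
    Net κ m A (pull π ω) := by
  classical
  have h0 : ∀ c ∈ A0, NetC κ m A (pull π ω) c := by
    intro c hc
    have hmem : ∀ i : Fin 4, (i = 2 → (c.1 + 1, c.2) ∈ A) → (i = 3 → (c.1, c.2 + 1) ∈ A) →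
        (c, i) ∈ Items A A0 := by
      intro i h1 h2
      unfold Items
      rw [Finset.mem_filter, Finset.mem_product]
      exact ⟨⟨hc, Finset.mem_univ _⟩, h1, h2⟩
    refine ⟨?_, ?_, ?_, ?_⟩
    · have := h _ (hmem 0 (fun h => absurd h (by decide)) (fun h => absurd h (by decide)))
      simpa [Ai, Gi] using this
    · have := h _ (hmem 1 (fun h => absurd h (by decide)) (fun h => absurd h (by decide)))
      simpa [Ai, Gi] using this
    · intro h3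
      have := h _ (hmem 2 (fun _ => h3) (fun h => absurd h (by decide)))
      simpa [Ai, Gi] using this
    · intro h3
      have := h _ (hmem 3 (fun h => absurd h (by decide)) (fun _ => h3))
      simpa [Ai, Gi] using this
  rw [net_iff]
  intro c hc
  obtain ⟨c0, hc0, τ, rfl, h1, h2⟩ := hA.2 c hc
  refine NetC_transl h1 (fun t => ?_) (h0 c0 hc0)
  rw [mem_pull, mem_pull, h2 t]

lemma item_tile {κ m : ℤ} (hκ : κ = 0 ∨ κ = 1) {A : Set (ℤ × ℤ)} {A0 : Finset (ℤ × ℤ)}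
    (hA : ∀ c ∈ A0, c ∈ A) {j : (ℤ × ℤ) × Fin 4} (hj : j ∈ Items A A0) {e : Sym2 (ℤ × ℤ)}
    (he : e ∈ edgesIn (Gi m j)) : tl κ e ∈ Reg m A := by
  classical
  obtain ⟨c, i⟩ := j
  unfold Items at hj
  rw [Finset.mem_filter, Finset.mem_product] at hj
  obtain ⟨⟨h1, _⟩, h2, h3⟩ := hj
  simp only at h1 h2 h3
  have hc := hA c h1
  fin_cases i
  · exact Reg_mono (Set.singleton_subset_iff.2 hc) (tile_cb hκ he)
  · exact Reg_mono (Set.singleton_subset_iff.2 hc) (tile_cb hκ he)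
  · exact Reg_mono (Set.insert_subset hc (Set.singleton_subset_iff.2 (h2 rfl))) (tile_hb hκ he)
  · exact Reg_mono (Set.insert_subset hc (Set.singleton_subset_iff.2 (h3 rfl))) (tile_vb hκ he)

lemma item_inj {ι : Type*} {π : ℤ × ℤ → ι} {κ m : ℤ} (hκ : κ = 0 ∨ κ = 1)
    (hπ : ∀ t t', π t = π t' → |t.1 - t'.1| < 4 * m → |t.2 - t'.2| < 4 * m → t = t')
    (j : (ℤ × ℤ) × Fin 4) :
    Set.InjOn (fun e => π (tl κ e)) (edgesIn (Gi m j) : Set (Sym2 (ℤ × ℤ))) := by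
  have hm : 0 ≤ m ∨ m < 0 := by omega
  intro e he e' he' h
  refine tl_inj κ (Gi m j) he he' (hπ _ _ h ?_ ?_) <;>
  · rw [Finset.mem_coe] at he he'
    have key : ∀ f ∈ edgesIn (Gi m j), 2 * m * j.1.1 ≤ (tl κ f).1 ∧
        (tl κ f).1 < 2 * m * j.1.1 + 4 * m ∧ 2 * m * j.1.2 ≤ (tl κ f).2 ∧
        (tl κ f).2 < 2 * m * j.1.2 + 4 * m := by
      intro f hf
      obtain ⟨c, i⟩ := j
      have hr : tl κ f ∈ Reg m {c, (c.1 + 1, c.2), (c.1, c.2 + 1)} := by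
        fin_cases i
        · exact Reg_mono (by intro x hx; simp only [Set.mem_singleton_iff] at hx; simp [hx])
            (tile_cb hκ hf)
        · exact Reg_mono (by intro x hx; simp only [Set.mem_singleton_iff] at hx; simp [hx])
            (tile_cb hκ hf)
        · exact Reg_mono (by
            intro x hx
            simp only [Set.mem_insert_iff, Set.mem_singleton_iff] at hx ⊢
            tauto) (tile_hb hκ hf)
        · exact Reg_mono (by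
            intro x hx
            simp only [Set.mem_insert_iff, Set.mem_singleton_iff] at hx ⊢
            tauto) (tile_vb hκ hf)
      have e1 : 2 * m * (c.1 + 1) = 2 * m * c.1 + 2 * m := by ring
      have e2 : 2 * m * (c.2 + 1) = 2 * m * c.2 + 2 * m := by ring
      have e3 : 2 * m * (c.1 + 1 + 1) = 2 * m * c.1 + 4 * m := by ring
      have e4 : 2 * m * (c.2 + 1 + 1) = 2 * m * c.2 + 4 * m := by ring
      obtain ⟨c', hc', g1, g2, g3, g4⟩ := hr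
      rcases hc' with rfl | rfl | hc'
      · simp only at *
        omega
      · simp only at *
        omega
      · rw [Set.mem_singleton_iff] at hc'
        subst hc'
        simp only at *
        omega
    have k1 := key e he
    have k2 := key e' he'
    rw [abs_lt]
    constructor <;> omega

lemma tl_odd {κ : ℤ} {G : Finset (ℤ × ℤ)} {e : Sym2 (ℤ × ℤ)} (he : e ∈ edgesIn G) :
    ¬ (2 : ℤ) ∣ (tl κ e).1 + (tl κ e).2 := by
  rcases edgesIn_cases he with ⟨x, y, rfl⟩ | ⟨x, y, rfl⟩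
  · rw [tl_hE]
    simp only
    omega
  · rw [tl_vE]
    simp only
    omega

/-- **Nets of two colours in disjoint regions have positive probability.** -/
theorem net_probT {ι : Type*} [DecidableEq ι] (Λ : Finset ι) (π : ℤ × ℤ → ι) {m : ℤ} (hm : 1 ≤ m)
    (hpar : ∀ t t', π t = π t' → (2 : ℤ) ∣ t.1 - t'.1)
    (hπ : ∀ t t', π t = π t' → |t.1 - t'.1| < 4 * m → |t.2 - t'.2| < 4 * m → t = t')
    {κ κ' : ℤ} (hκ : κ = 0 ∨ κ = 1) (hκ' : κ' = 0 ∨ κ' = 1) (A B : Set (ℤ × ℤ))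
    (A0 B0 : Finset (ℤ × ℤ)) (hA : Reps π m A A0) (hB : Reps π m B B0)
    (hΛA : ∀ t ∈ Reg m A, ¬ (2 : ℤ) ∣ t.1 + t.2 → π t ∈ Λ)
    (hΛB : ∀ t ∈ Reg m B, ¬ (2 : ℤ) ∣ t.1 + t.2 → π t ∈ Λ)
    (hAB : ∀ t ∈ Reg m A, ∀ t' ∈ Reg m B, π t ≠ π t') :
    nc ^ (A0.card + B0.card) ≤
      P Λ (fun ω => Net κ m A (pull π ω) ∧ Net κ' m B (pull π ω)) := by
  have h := P_items2 Λ π κ κ' hpar (Items A A0) (Items B B0) (Gi m) (Gi m) (Ai m) (Ai m)
    (Ai_up m) (Ai_up m) xc xc_pos.le (fun j _ => Ai_P hm j) (fun j _ => Ai_P hm j)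
    (fun j _ => item_inj hκ hπ j) (fun j _ => item_inj hκ' hπ j)
    (fun j hj e he => hΛA _ (item_tile hκ hA.1 hj he) (tl_odd he))
    (fun j hj e he => hΛB _ (item_tile hκ' hB.1 hj he) (tl_odd he))
    (fun j hj j' hj' e he e' he' =>
      hAB _ (item_tile hκ hA.1 hj he) _ (item_tile hκ' hB.1 hj' he'))
  refine le_trans ?_ (h.trans ?_)
  · unfold nc
    rw [← pow_mul]
    apply pow_le_pow_of_le_one xc_pos.le xc_le_one
    have h1 := items_card A A0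
    have h2 := items_card B B0
    omega
  · apply P_mono
    rintro ω _ ⟨h1, h2⟩
    exact ⟨items_net hA h1, items_net hB h2⟩

theorem net_prob {ι : Type*} [DecidableEq ι] (Λ : Finset ι) (π : ℤ × ℤ → ι) {m : ℤ} (hm : 1 ≤ m)
    (hpar : ∀ t t', π t = π t' → (2 : ℤ) ∣ t.1 - t'.1)
    (hπ : ∀ t t', π t = π t' → |t.1 - t'.1| < 4 * m → |t.2 - t'.2| < 4 * m → t = t')
    {κ κ' : ℤ} (hκ : κ = 0 ∨ κ = 1) (hκ' : κ' = 0 ∨ κ' = 1) (A B : Set (ℤ × ℤ))
    (A0 B0 : Finset (ℤ × ℤ)) (hA : Reps π m A A0) (hB : Reps π m B B0)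
    (hΛA : ∀ t ∈ Reg m A, π t ∈ Λ) (hΛB : ∀ t ∈ Reg m B, π t ∈ Λ)
    (hAB : ∀ t ∈ Reg m A, ∀ t' ∈ Reg m B, π t ≠ π t') :
    nc ^ (A0.card + B0.card) ≤
      P Λ (fun ω => Net κ m A (pull π ω) ∧ Net κ' m B (pull π ω)) :=
  net_probT Λ π hm hpar hπ hκ hκ' A B A0 B0 hA hB (fun t ht _ => hΛA t ht)
    (fun t ht _ => hΛB t ht) hAB

/-- the same for one colour -/
theorem net_prob1T {ι : Type*} [DecidableEq ι] (Λ : Finset ι) (π : ℤ × ℤ → ι) {m : ℤ} (hm : 1 ≤ m)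
    (hpar : ∀ t t', π t = π t' → (2 : ℤ) ∣ t.1 - t'.1)
    (hπ : ∀ t t', π t = π t' → |t.1 - t'.1| < 4 * m → |t.2 - t'.2| < 4 * m → t = t')
    {κ : ℤ} (hκ : κ = 0 ∨ κ = 1) (A : Set (ℤ × ℤ)) (A0 : Finset (ℤ × ℤ)) (hA : Reps π m A A0)
    (hΛA : ∀ t ∈ Reg m A, ¬ (2 : ℤ) ∣ t.1 + t.2 → π t ∈ Λ) :
    nc ^ A0.card ≤ P Λ (fun ω => Net κ m A (pull π ω)) := by
  have hB : Reps π m (∅ : Set (ℤ × ℤ)) ∅ :=
    ⟨fun c hc => by simp at hc, fun c hc => by simp at hc⟩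
  have h := net_probT Λ π hm hpar hπ hκ hκ A ∅ A0 ∅ hA hB hΛA
    (by rintro t ⟨c, hc, _⟩; simp at hc) (by rintro t _ t' ⟨c, hc, _⟩; simp at hc)
  rw [Finset.card_empty, add_zero] at h
  exact h.trans (P_mono (fun ω _ h => h.1))

theorem net_prob1 {ι : Type*} [DecidableEq ι] (Λ : Finset ι) (π : ℤ × ℤ → ι) {m : ℤ} (hm : 1 ≤ m)
    (hpar : ∀ t t', π t = π t' → (2 : ℤ) ∣ t.1 - t'.1)
    (hπ : ∀ t t', π t = π t' → |t.1 - t'.1| < 4 * m → |t.2 - t'.2| < 4 * m → t = t')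
    {κ : ℤ} (hκ : κ = 0 ∨ κ = 1) (A : Set (ℤ × ℤ)) (A0 : Finset (ℤ × ℤ)) (hA : Reps π m A A0)
    (hΛA : ∀ t ∈ Reg m A, π t ∈ Λ) :
    nc ^ A0.card ≤ P Λ (fun ω => Net κ m A (pull π ω)) :=
  net_prob1T Λ π hm hpar hπ hκ A A0 hA (fun t ht _ => hΛA t ht)

end CB
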