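import Pool.Agent.Helper8.CB.Base

/-!
Probabilities of families of increasing events of the colours, on the plane or on a quotient.
-/

namespace CB
open Finset H47Perc
open Pool.Agent.Helper69.RSW

/-- image of the percolation measure under an injective map of the edges -/
lemma P_image' {E E' : Type*} [DecidableEq E] [DecidableEq E'] (F : Finset E) (φ : E → E')
    (hφ : Set.InjOn φ (F : Set E)) (A : Finset E' → Prop) :
    P (F.image φ) A = P F (fun S => A (S.image φ)) := by
  classical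
  unfold P
  rw [Finset.card_image_of_injOn hφ]
  congr 2
  symm
  apply Finset.card_bij (i := fun S _ => S.image φ)
  · intro S h
    simp only [Finset.mem_filter, Finset.mem_powerset] at h ⊢
    exact ⟨Finset.image_subset_image h.1, h.2⟩
  · intro S hS T hT h
    simp only [Finset.mem_filter, Finset.mem_powerset] at hS hT
    ext x
    constructor
    · intro hx
      have h1 : φ x ∈ T.image φ := by rw [← h]; exact Finset.mem_image_of_mem φ hx
      obtain ⟨y, hy, hxy⟩ := Finset.mem_image.1 h1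
      rw [← hφ (Finset.mem_coe.2 (hT.1 hy)) (Finset.mem_coe.2 (hS.1 hx)) hxy]
      exact hy
    · intro hx
      have h1 : φ x ∈ S.image φ := by rw [h]; exact Finset.mem_image_of_mem φ hx
      obtain ⟨y, hy, hxy⟩ := Finset.mem_image.1 h1
      rw [← hφ (Finset.mem_coe.2 (hS.1 hy)) (Finset.mem_coe.2 (hT.1 hx)) hxy]
      exact hy
  · intro T h
    simp only [Finset.mem_filter, Finset.mem_powerset] at h
    obtain ⟨S, hS, rfl⟩ := Finset.subset_image_iff.1 h.1
    refine ⟨S, ?_, rfl⟩
    simp only [Finset.mem_filter, Finset.mem_powerset]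
    exact ⟨by exact_mod_cast hS, h.2⟩

open Classical in
/-- flipping the edges outside `H` preserves the measure -/
lemma P_xnor {E : Type*} [DecidableEq E] (F : Finset E) (H : E → Prop) (A : Finset E → Prop) :
    P F (fun S => A (F.filter (fun e => (H e ↔ e ∈ S)))) = P F A := by
  unfold P
  congr 2
  apply Finset.card_nbij' (i := fun S => F.filter (fun e => (H e ↔ e ∈ S)))
    (j := fun S => F.filter (fun e => (H e ↔ e ∈ S)))
  · intro S h
    simp only [Finset.coe_filter, Finset.mem_powerset, Set.mem_setOf_eq] at h ⊢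
    exact ⟨Finset.filter_subset _ _, h.2⟩
  · intro S h
    simp only [Finset.coe_filter, Finset.mem_powerset, Set.mem_setOf_eq] at h ⊢
    refine ⟨Finset.filter_subset _ _, ?_⟩
    convert h.2 using 1
    ext e
    simp only [Finset.mem_filter]
    constructor
    · rintro ⟨h1, h2⟩
      by_contra h3
      tauto
    · intro h1
      have := h.1 h1
      tauto
  · intro S h
    simp only [Finset.coe_filter, Finset.mem_powerset, Set.mem_setOf_eq] at h
    ext e
    simp only [Finset.mem_filter]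
    constructor
    · rintro ⟨h1, h2⟩
      by_contra h3
      tauto
    · intro h1
      have := h.1 h1
      tauto
  · intro S h
    simp only [Finset.coe_filter, Finset.mem_powerset, Set.mem_setOf_eq] at h
    ext e
    simp only [Finset.mem_filter]
    constructor
    · rintro ⟨h1, h2⟩
      by_contra h3
      tauto
    · intro h1
      have := h.1 h1
      tauto

/-- pull back of a configuration -/
def pull {ι : Type*} (π : ℤ × ℤ → ι) (ω : Finset ι) : Set (ℤ × ℤ) := {t | π t ∈ ω}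

lemma mem_pull {ι : Type*} {π : ℤ × ℤ → ι} {ω : Finset ι} {t : ℤ × ℤ} :
    t ∈ pull π ω ↔ π t ∈ ω := Iff.rfl

lemma isH_iff (κ : ℤ) {G : Finset (ℤ × ℤ)} {e : Sym2 (ℤ × ℤ)} (he : e ∈ edgesIn G) :
    IsH e ↔ (2 : ℤ) ∣ ((tl κ e).1 - κ - 1) := by
  rcases edgesIn_cases he with ⟨x, y, rfl⟩ | ⟨x, y, rfl⟩
  · refine ⟨fun _ => ?_, fun _ => isH_hE x y⟩
    rw [tl_hE]
    simp only
    omega
  · refine ⟨fun h => absurd h (not_isH_vE x y), fun h => ?_⟩
    rw [tl_vE] at h
    simp only at h
    omega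

lemma P_forall_ge {ι J : Type*} [DecidableEq ι] (Λ : Finset ι) (I : Finset J)
    (B : J → Finset ι → Prop) (hB : ∀ j, Up (B j)) (c : ℝ) (hc : 0 ≤ c)
    (h : ∀ j ∈ I, c ≤ P Λ (B j)) : c ^ I.card ≤ P Λ (fun ω => ∀ j ∈ I, B j ω) := by
  classical
  induction I using Finset.induction_on with
  | empty =>
    have : (fun ω : Finset ι => ∀ j ∈ (∅ : Finset J), B j ω) = fun _ => True := by
      funext ω
      simp
    rw [this, P_true]
    simp
  | @insert a I ha ih =>
    have h1 := ih (fun j hj => h j (Finset.mem_insert_of_mem hj))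
    have h2 := h a (Finset.mem_insert_self a I)
    have h3 : Up (fun ω => ∀ j ∈ I, B j ω) := fun S T hST hS j hj => hB j S T hST (hS j hj)
    have h4 := harris Λ (hB a) h3
    have h5 : P Λ (fun ω => ∀ j ∈ insert a I, B j ω) =
        P Λ (fun ω => B a ω ∧ ∀ j ∈ I, B j ω) := by
      apply P_congr
      intro S _
      rw [Finset.forall_mem_insert]
    rw [h5, Finset.card_insert_of_notMem ha, pow_succ, mul_comm]
    refine le_trans ?_ h4
    exact mul_le_mul h2 h1 (pow_nonneg hc _) (hc.trans h2)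

lemma dep_op {ι : Type*} [DecidableEq ι] (κ : ℤ) (π : ℤ × ℤ → ι) (F : Finset (Sym2 (ℤ × ℤ)))
    (A : Finset (Sym2 (ℤ × ℤ)) → Prop) :
    Dep (F.image (fun e => π (tl κ e))) (fun ω => A (op κ F (pull π ω))) := by
  intro ω
  have : op κ F (pull π (ω ∩ F.image (fun e => π (tl κ e)))) = op κ F (pull π ω) := by
    apply op_congr
    intro e he
    rw [mem_pull, mem_pull, Finset.mem_inter]
    have := Finset.mem_image_of_mem (fun e => π (tl κ e)) he
    tauto
  simp only [this]

/-- families of increasing events of one colour -/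
theorem P_items {ι : Type*} [DecidableEq ι] (Λ : Finset ι) (π : ℤ × ℤ → ι) (κ : ℤ)
    (hpar : ∀ t t', π t = π t' → (2 : ℤ) ∣ t.1 - t'.1)
    {J : Type*} (I : Finset J) (G : J → Finset (ℤ × ℤ)) (A : J → Finset (Sym2 (ℤ × ℤ)) → Prop)
    (hA : ∀ j, Up (A j)) (c : ℝ) (hc : 0 ≤ c) (hP : ∀ j ∈ I, c ≤ P (edgesIn (G j)) (A j))
    (hinj : ∀ j ∈ I, Set.InjOn (fun e => π (tl κ e)) (edgesIn (G j) : Set (Sym2 (ℤ × ℤ))))
    (hΛ : ∀ j ∈ I, ∀ e ∈ edgesIn (G j), π (tl κ e) ∈ Λ) :
    c ^ I.card ≤ P Λ (fun ω => ∀ j ∈ I, A j (op κ (edgesIn (G j)) (pull π ω))) := by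
  classical
  set h : ι → Prop := fun i => ∃ t, π t = i ∧ (2 : ℤ) ∣ (t.1 - κ - 1) with hh
  set B : J → Finset ι → Prop := fun j Y =>
    A j ((edgesIn (G j)).filter (fun e => π (tl κ e) ∈ Y)) with hB
  have hBup : ∀ j, Up (B j) := by
    intro j S T hST hS
    refine hA j _ _ ?_ hS
    intro e he
    rw [Finset.mem_filter] at he ⊢
    exact ⟨he.1, hST he.2⟩
  have hBc : ∀ j ∈ I, c ≤ P Λ (B j) := by
    intro j hj
    have hdep : Dep ((edgesIn (G j)).image (fun e => π (tl κ e))) (B j) := by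
      intro S
      have : (edgesIn (G j)).filter (fun e => π (tl κ e) ∈
          S ∩ (edgesIn (G j)).image (fun e => π (tl κ e))) =
          (edgesIn (G j)).filter (fun e => π (tl κ e) ∈ S) := by
        ext e
        rw [Finset.mem_filter, Finset.mem_filter, Finset.mem_inter]
        constructor
        · rintro ⟨h1, h2, _⟩
          exact ⟨h1, h2⟩
        · rintro ⟨h1, h2⟩
          exact ⟨h1, h2, Finset.mem_image_of_mem (fun e => π (tl κ e)) h1⟩
      simp only [hB, this]
    have hsub : (edgesIn (G j)).image (fun e => π (tl κ e)) ⊆ Λ := by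
      intro i hi
      obtain ⟨e, he, rfl⟩ := Finset.mem_image.1 hi
      exact hΛ j hj e he
    rw [P_restrict hsub hdep, P_image' _ _ (hinj j hj)]
    refine (hP j hj).trans (le_of_eq ?_)
    apply P_congr
    intro S hS
    have : (edgesIn (G j)).filter (fun e => π (tl κ e) ∈ S.image (fun e => π (tl κ e))) = S := by
      ext e
      rw [Finset.mem_filter]
      constructor
      · rintro ⟨h1, h2⟩
        obtain ⟨e', he', h3⟩ := Finset.mem_image.1 h2
        rw [← hinj j hj (Finset.mem_coe.2 (hS he')) (Finset.mem_coe.2 h1) h3]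
        exact he'
      · intro h1
        exact ⟨hS h1, Finset.mem_image_of_mem (fun e => π (tl κ e)) h1⟩
    simp only [hB, this]
  refine (P_forall_ge Λ I B hBup c hc hBc).trans (le_of_eq ?_)
  rw [← P_xnor Λ h]
  apply P_congr
  intro ω _
  have key : ∀ j ∈ I, (B j (Λ.filter (fun e => (h e ↔ e ∈ ω))) ↔
      A j (op κ (edgesIn (G j)) (pull π ω))) := by
    intro j hj
    have : (edgesIn (G j)).filter (fun e => π (tl κ e) ∈ Λ.filter (fun e => (h e ↔ e ∈ ω))) =
        op κ (edgesIn (G j)) (pull π ω) := by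
      ext e
      rw [mem_op, Finset.mem_filter]
      refine and_congr_right fun he => ?_
      have h1 : h (π (tl κ e)) ↔ IsH e := by
        rw [isH_iff κ he]
        constructor
        · rintro ⟨t, ht, h2⟩
          have := hpar _ _ ht
          omega
        · intro h2
          exact ⟨tl κ e, rfl, h2⟩
      rw [Finset.mem_filter, h1, mem_pull]
      have := hΛ j hj e he
      tauto
    simp only [hB, this]
  constructor
  · intro h1 j hj
    exact (key j hj).1 (h1 j hj)
  · intro h1 j hj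
    exact (key j hj).2 (h1 j hj)

/-- families of increasing events of the two colours in disjoint regions -/
theorem P_items2 {ι : Type*} [DecidableEq ι] (Λ : Finset ι) (π : ℤ × ℤ → ι) (κ κ' : ℤ)
    (hpar : ∀ t t', π t = π t' → (2 : ℤ) ∣ t.1 - t'.1)
    {J J' : Type*} (I : Finset J) (I' : Finset J') (G : J → Finset (ℤ × ℤ))
    (G' : J' → Finset (ℤ × ℤ)) (A : J → Finset (Sym2 (ℤ × ℤ)) → Prop)
    (A' : J' → Finset (Sym2 (ℤ × ℤ)) → Prop)
    (hA : ∀ j, Up (A j)) (hA' : ∀ j, Up (A' j)) (c : ℝ) (hc : 0 ≤ c)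
    (hP : ∀ j ∈ I, c ≤ P (edgesIn (G j)) (A j)) (hP' : ∀ j ∈ I', c ≤ P (edgesIn (G' j)) (A' j))
    (hinj : ∀ j ∈ I, Set.InjOn (fun e => π (tl κ e)) (edgesIn (G j) : Set (Sym2 (ℤ × ℤ))))
    (hinj' : ∀ j ∈ I', Set.InjOn (fun e => π (tl κ' e)) (edgesIn (G' j) : Set (Sym2 (ℤ × ℤ))))
    (hΛ : ∀ j ∈ I, ∀ e ∈ edgesIn (G j), π (tl κ e) ∈ Λ)
    (hΛ' : ∀ j ∈ I', ∀ e ∈ edgesIn (G' j), π (tl κ' e) ∈ Λ)
    (hdisj : ∀ j ∈ I, ∀ j' ∈ I', ∀ e ∈ edgesIn (G j), ∀ e' ∈ edgesIn (G' j'),
      π (tl κ e) ≠ π (tl κ' e')) :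
    c ^ (I.card + I'.card) ≤ P Λ (fun ω =>
      (∀ j ∈ I, A j (op κ (edgesIn (G j)) (pull π ω))) ∧
      (∀ j ∈ I', A' j (op κ' (edgesIn (G' j)) (pull π ω)))) := by
  classical
  set D := I.biUnion (fun j => (edgesIn (G j)).image (fun e => π (tl κ e))) with hD
  set D' := I'.biUnion (fun j => (edgesIn (G' j)).image (fun e => π (tl κ' e))) with hD'
  have d1 : Dep D (fun ω => ∀ j ∈ I, A j (op κ (edgesIn (G j)) (pull π ω))) := by
    intro ω
    have : ∀ j ∈ I, (A j (op κ (edgesIn (G j)) (pull π ω)) ↔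
        A j (op κ (edgesIn (G j)) (pull π (ω ∩ D)))) := by
      intro j hj
      exact ((dep_op κ π (edgesIn (G j)) (A j)).mono
        (Finset.subset_biUnion_of_mem (fun j => (edgesIn (G j)).image (fun e => π (tl κ e))) hj)) ω
    exact forall₂_congr this
  have d2 : Dep D' (fun ω => ∀ j ∈ I', A' j (op κ' (edgesIn (G' j)) (pull π ω))) := by
    intro ω
    have : ∀ j ∈ I', (A' j (op κ' (edgesIn (G' j)) (pull π ω)) ↔
        A' j (op κ' (edgesIn (G' j)) (pull π (ω ∩ D')))) := by
      intro j hj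
      exact ((dep_op κ' π (edgesIn (G' j)) (A' j)).mono
        (Finset.subset_biUnion_of_mem (fun j => (edgesIn (G' j)).image (fun e => π (tl κ' e))) hj)) ω
    exact forall₂_congr this
  have s1 : D ⊆ Λ := by
    intro i hi
    obtain ⟨j, hj, h⟩ := Finset.mem_biUnion.1 hi
    obtain ⟨e, he, rfl⟩ := Finset.mem_image.1 h
    exact hΛ j hj e he
  have s2 : D' ⊆ Λ := by
    intro i hi
    obtain ⟨j, hj, h⟩ := Finset.mem_biUnion.1 hi
    obtain ⟨e, he, rfl⟩ := Finset.mem_image.1 h
    exact hΛ' j hj e he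
  have s3 : Disjoint D D' := by
    rw [Finset.disjoint_left]
    intro i hi hi'
    obtain ⟨j, hj, h⟩ := Finset.mem_biUnion.1 hi
    obtain ⟨e, he, rfl⟩ := Finset.mem_image.1 h
    obtain ⟨j', hj', h'⟩ := Finset.mem_biUnion.1 hi'
    obtain ⟨e', he', h2⟩ := Finset.mem_image.1 h'
    exact hdisj j hj j' hj' e he e' he' h2.symm
  rw [P_indep s1 s2 s3 d1 d2, pow_add]
  exact mul_le_mul (P_items Λ π κ hpar I G A hA c hc hP hinj hΛ)
    (P_items Λ π κ' hpar I' G' A' hA' c hc hP' hinj' hΛ') (pow_nonneg hc _) (P_nonneg _ _)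

end CB
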