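import Pool.Agent.Helper8.CB.LaneEv

/-!
Rings around exits and vertical bands.
-/

namespace CB
open Finset H47Perc
open Pool.Agent.Helper69.RSW

/-! ### rings -/

/-- lower half of the ring with legs in the columns `u < u'`, around the top (`up = true`) or the
bottom side of the slab of half-height `h` -/
def RLo (u u' h : ℤ) (up : Bool) (c : ℤ × ℤ) : Prop :=
  if up then Rc u u (h - 3) (h + 1) c ∨ Rc u u' (h - 3) (h - 3) c ∨ Rc u' u' (h - 3) (h + 1) c
  else Rc u u (-h - 2) (-h + 2) c ∨ Rc u u' (-h + 2) (-h + 2) c ∨ Rc u' u' (-h - 2) (-h + 2) c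

/-- the other half, beyond the slab -/
def RUp (u u' h : ℤ) (up : Bool) (c : ℤ × ℤ) : Prop :=
  if up then Rc u u (h + 1) (h + 2) c ∨ Rc u u' (h + 2) (h + 2) c ∨ Rc u' u' (h + 1) (h + 2) c
  else Rc u u (-h - 3) (-h - 2) c ∨ Rc u u' (-h - 3) (-h - 3) c ∨ Rc u' u' (-h - 3) (-h - 2) c

/-- row of the feet of the ring -/
def ry (h : ℤ) (up : Bool) : ℤ := if up then h + 1 else -h - 2

/-- the ring event of colour `κ` -/
def RingEv (κ m u u' h : ℤ) (up : Bool) (S : Set (ℤ × ℤ)) : Prop :=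
  ∃ a b : ℤ × ℤ, InC m (u, ry h up) a ∧ InC m (u', ry h up) b ∧ Col κ a ∧ Col κ b ∧
    TA.Conn (fun v => v ∈ S) (Reg m {c | RLo u u' h up c}) a b ∧
    TA.Conn (fun v => v ∈ S) (Reg m {c | RUp u u' h up c}) a b

lemma rlo_cp {u u' h : ℤ} (hu : u ≤ u') (up : Bool) :
    CP {c | RLo u u' h up c} (u, ry h up) (u', ry h up) := by
  cases up
  · have s1 : CP {c | RLo u u' h false c} (u, -h - 2) (u, -h + 2) := by
      apply cp_v
      intro z z1 z2
      left
      unfold Rc
      simp only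
      omega
    have s2 : CP {c | RLo u u' h false c} (u, -h + 2) (u', -h + 2) := by
      apply cp_h
      intro z z1 z2
      right; left
      unfold Rc
      simp only
      omega
    have s3 : CP {c | RLo u u' h false c} (u', -h + 2) (u', -h - 2) := by
      apply cp_v
      intro z z1 z2
      right; right
      unfold Rc
      simp only
      omega
    exact s1.trans (s2.trans s3)
  · have s1 : CP {c | RLo u u' h true c} (u, h + 1) (u, h - 3) := by
      apply cp_v
      intro z z1 z2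
      left
      unfold Rc
      simp only
      omega
    have s2 : CP {c | RLo u u' h true c} (u, h - 3) (u', h - 3) := by
      apply cp_h
      intro z z1 z2
      right; left
      unfold Rc
      simp only
      omega
    have s3 : CP {c | RLo u u' h true c} (u', h - 3) (u', h + 1) := by
      apply cp_v
      intro z z1 z2
      right; right
      unfold Rc
      simp only
      omega
    exact s1.trans (s2.trans s3)

lemma rup_cp {u u' h : ℤ} (hu : u ≤ u') (up : Bool) :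
    CP {c | RUp u u' h up c} (u, ry h up) (u', ry h up) := by
  cases up
  · have s1 : CP {c | RUp u u' h false c} (u, -h - 2) (u, -h - 3) := by
      apply cp_v
      intro z z1 z2
      left
      unfold Rc
      simp only
      omega
    have s2 : CP {c | RUp u u' h false c} (u, -h - 3) (u', -h - 3) := by
      apply cp_h
      intro z z1 z2
      right; left
      unfold Rc
      simp only
      omega
    have s3 : CP {c | RUp u u' h false c} (u', -h - 3) (u', -h - 2) := by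
      apply cp_v
      intro z z1 z2
      right; right
      unfold Rc
      simp only
      omega
    exact s1.trans (s2.trans s3)
  · have s1 : CP {c | RUp u u' h true c} (u, h + 1) (u, h + 2) := by
      apply cp_v
      intro z z1 z2
      left
      unfold Rc
      simp only
      omega
    have s2 : CP {c | RUp u u' h true c} (u, h + 2) (u', h + 2) := by
      apply cp_h
      intro z z1 z2
      right; left
      unfold Rc
      simp only
      omega
    have s3 : CP {c | RUp u u' h true c} (u', h + 2) (u', h + 1) := by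
      apply cp_v
      intro z z1 z2
      right; right
      unfold Rc
      simp only
      omega
    exact s1.trans (s2.trans s3)

/-- the cells of the ring -/
def RAll (u u' h : ℤ) (up : Bool) : Set (ℤ × ℤ) := {c | RLo u u' h up c ∨ RUp u u' h up c}

lemma rlo_bounds {u u' h : ℤ} (hu : u ≤ u') {up : Bool} {c : ℤ × ℤ} (hc : RLo u u' h up c) :
    u ≤ c.1 ∧ c.1 ≤ u' ∧ (if up then h - 3 ≤ c.2 ∧ c.2 ≤ h + 1 else -h - 2 ≤ c.2 ∧ c.2 ≤ -h + 2) ∧
    (c.1 = u ∨ c.1 = u' ∨ (if up then c.2 = h - 3 else c.2 = -h + 2)) := by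
  cases up
  · simp only [RLo, Rc, Bool.false_eq_true, if_false] at hc ⊢
    omega
  · simp only [RLo, Rc, if_true] at hc ⊢
    omega

lemma rup_bounds {u u' h : ℤ} (hu : u ≤ u') {up : Bool} {c : ℤ × ℤ} (hc : RUp u u' h up c) :
    u ≤ c.1 ∧ c.1 ≤ u' ∧
    (if up then h + 1 ≤ c.2 ∧ c.2 ≤ h + 2 else -h - 3 ≤ c.2 ∧ c.2 ≤ -h - 2) := by
  cases up
  · simp only [RUp, Rc, Bool.false_eq_true, if_false] at hc ⊢
    omega
  · simp only [RUp, Rc, if_true] at hc ⊢
    omega

/-- deterministic part -/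
theorem ring_of_net {κ m u u' h : ℤ} (hκ : κ = 0 ∨ κ = 1) (hm : 1 ≤ m) (hu : u ≤ u') {up : Bool}
    {S : Set (ℤ × ℤ)} (hN : Net κ m (RAll u u' h up) S) : RingEv κ m u u' h up S := by
  have hlo : {c | RLo u u' h up c} ⊆ RAll u u' h up := fun c hc => Or.inl hc
  have hup : {c | RUp u u' h up c} ⊆ RAll u u' h up := fun c hc => Or.inr hc
  have m1 : RLo u u' h up (u, ry h up) ∧ RLo u u' h up (u', ry h up) ∧
      RUp u u' h up (u, ry h up) := by
    cases up
    · simp only [RLo, RUp, Rc, ry, Bool.false_eq_true, if_false]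
      omega
    · simp only [RLo, RUp, Rc, ry, if_true]
      omega
  obtain ⟨a, ha⟩ := exists_hub hm hN (hlo m1.1)
  obtain ⟨b, hb⟩ := exists_hub hm hN (hlo m1.2.1)
  have a1 := ha.mem hκ
  have b1 := hb.mem hκ
  exact ⟨a, b, ⟨a1.1, a1.2.1, a1.2.2.1, a1.2.2.2.1⟩, ⟨b1.1, b1.2.1, b1.2.2.1, b1.2.2.2.1⟩,
    ⟨by omega, by omega⟩, ⟨by omega, by omega⟩,
    net_conn' hκ hm (hN.mono hlo) m1.1 (rlo_cp hu up) ha hb,
    net_conn' hκ hm (hN.mono hup) m1.2.2 (rup_cp hu up) ha hb⟩

open Classical in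
/-- the cells of the ring as a finite set -/
noncomputable def rfin (u u' h : ℤ) (up : Bool) : Finset (ℤ × ℤ) :=
  (Finset.Icc ((u, if up then h - 3 else -h - 3) : ℤ × ℤ) (u', if up then h + 2 else -h + 2)).filter
    (fun c => c ∈ RAll u u' h up)

lemma coe_rfin {u u' h : ℤ} (hu : u ≤ u') (up : Bool) :
    (rfin u u' h up : Set (ℤ × ℤ)) = RAll u u' h up := by
  classical
  ext c
  unfold rfin
  rw [Finset.mem_coe, Finset.mem_filter, Finset.mem_Icc, Prod.le_def, Prod.le_def]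
  refine ⟨fun h => h.2, fun hc => ⟨?_, hc⟩⟩
  rcases hc with h1 | h1
  · have := rlo_bounds hu h1
    cases up
    · simp only [Bool.false_eq_true, if_false] at this ⊢
      omega
    · simp only [if_true] at this ⊢
      omega
  · have := rup_bounds hu h1
    cases up
    · simp only [Bool.false_eq_true, if_false] at this ⊢
      omega
    · simp only [if_true] at this ⊢
      omega

lemma rfin_card {u u' h : ℤ} (up : Bool) : (rfin u u' h up).card ≤ (u' - u + 1).toNat * 6 := by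
  classical
  unfold rfin
  refine (Finset.card_filter_le _ _).trans ?_
  have h1 : ∀ x y x' y' : ℤ, (Finset.Icc ((x, y) : ℤ × ℤ) (x', y')).card
      = (x' + 1 - x).toNat * (y' + 1 - y).toNat := by
    intro x y x' y'
    have h : Finset.Icc ((x, y) : ℤ × ℤ) (x', y')
        = Finset.Icc x x' ×ˢ Finset.Icc y y' := by
      ext c
      rw [Finset.mem_Icc, Finset.mem_product, Finset.mem_Icc, Finset.mem_Icc, Prod.le_def,
        Prod.le_def]
      tauto
    rw [h, Finset.card_product, Int.card_Icc, Int.card_Icc]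
  rw [h1]
  apply Nat.mul_le_mul
  · omega
  · cases up
    · simp only [Bool.false_eq_true, if_false]
      omega
    · simp only [if_true]
      omega

/-- **Rings have positive probability.** -/
theorem ring_prob {ι : Type*} [DecidableEq ι] (Λ : Finset ι) (π : ℤ × ℤ → ι) {m : ℤ} (hm : 1 ≤ m)
    (hpar : ∀ t t', π t = π t' → (2 : ℤ) ∣ t.1 - t'.1)
    (hπ : ∀ t t', π t = π t' → |t.1 - t'.1| < 4 * m → |t.2 - t'.2| < 4 * m → t = t')
    {κ : ℤ} (hκ : κ = 0 ∨ κ = 1) {u u' h : ℤ} (hu : u ≤ u') (up : Bool)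
    (hΛ : ∀ t ∈ Reg m (RAll u u' h up), ¬ (2 : ℤ) ∣ t.1 + t.2 → π t ∈ Λ) :
    nc ^ ((u' - u + 1).toNat * 6) ≤ P Λ (fun ω => RingEv κ m u u' h up (pull π ω)) := by
  have hrep := reps_finset π m (rfin u u' h up)
  rw [coe_rfin hu] at hrep
  have h := net_prob1T Λ π hm hpar hπ hκ (RAll u u' h up) (rfin u u' h up) hrep hΛ
  refine le_trans ?_ (h.trans (P_mono (fun ω _ hω => ring_of_net hκ hm hu hω)))
  exact pow_le_pow_of_le_one nc_pos.le nc_le_one (rfin_card up)

/-! ### bands -/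

/-- vertical crossing of the band `[2mu, 2m(u+1))` between the heights `-2m` and `2m-2` -/
def BandEv (κ m u : ℤ) (S : Set (ℤ × ℤ)) : Prop :=
  ∃ a b : ℤ × ℤ, a.2 = -2 * m + κ ∧ b.2 = 2 * m - 2 + κ ∧ Col κ a ∧ Col κ b ∧
    2 * m * u ≤ a.1 ∧ a.1 < 2 * m * (u + 1) ∧ 2 * m * u ≤ b.1 ∧ b.1 < 2 * m * (u + 1) ∧
    TA.Conn (fun v => v ∈ S) {v | 2 * m * u ≤ v.1 ∧ v.1 < 2 * m * (u + 1) ∧
      -2 * m ≤ v.2 ∧ v.2 < 2 * m} a b

theorem band_of_net {κ m u : ℤ} (hκ : κ = 0 ∨ κ = 1) (hm : 1 ≤ m) {S : Set (ℤ × ℤ)}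
    (hN : Net κ m {(u, -1), (u, 0)} S) : BandEv κ m u S := by
  have h := (hN (u, -1) (by simp)).2.2.2 (by simp)
  obtain ⟨x, x', h1, h2, h3, h4, h5⟩ := h
  simp only at h1 h2 h3 h4 h5
  have h6 := conn_of_cn (cn_region h5 (R := Reg m {(u, -1), (u, -1 + 1)})
    (fun e he => tile_vb hκ he))
  have e1 : 2 * m * u = 2 * (m * u) := by ring
  have e2 : 2 * m * (u + 1) = 2 * (m * u + m) := by ring
  refine ⟨_, _, ?_, ?_, ?_, ?_, ?_, ?_, ?_, ?_, conn_mono h6 ?_⟩
  · unfold fa
    simp only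
    ring
  · unfold fa
    simp only
    ring
  · unfold fa Col
    simp only
    exact ⟨⟨x, by ring⟩, ⟨m * -1, by ring⟩⟩
  · unfold fa Col
    simp only
    exact ⟨⟨x', by ring⟩, ⟨m * -1 + 2 * m - 1, by ring⟩⟩
  · unfold fa
    simp only
    omega
  · unfold fa
    simp only
    omega
  · unfold fa
    simp only
    omega
  · unfold fa
    simp only
    omega
  · rintro t ⟨c, hc, g1, g2, g3, g4⟩
    simp only [Set.mem_insert_iff, Set.mem_singleton_iff] at hc
    rcases hc with rfl | rfl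
    · simp only [Set.mem_ofPred_eq] at *
      refine ⟨g1, g2, by linarith, by nlinarith⟩
    · simp only [Set.mem_ofPred_eq] at *
      refine ⟨g1, g2, by nlinarith, by nlinarith⟩

/-- only the tiles (odd sum) matter -/
lemma conn_tiles {M : ℤ × ℤ → Prop} {R : Set (ℤ × ℤ)} {a b : ℤ × ℤ} (h : TA.Conn M R a b)
    (ha : (2 : ℤ) ∣ a.1 + a.2) :
    TA.Conn M {v | v ∈ R ∧ ¬ (2 : ℤ) ∣ v.1 + v.2} a b ∧ (2 : ℤ) ∣ b.1 + b.2 := by
  unfold TA.Conn at *
  induction h with
  | refl => exact ⟨Relation.ReflTransGen.refl, ha⟩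
  | tail _ h ih =>
    obtain ⟨v, hv, h⟩ := h
    have h1 := h.1
    unfold TA.Opp at h1
    have h2 := ih.2
    refine ⟨Relation.ReflTransGen.tail ih.1 ⟨v, ⟨hv, ?_⟩, h⟩, ?_⟩
    · omega
    · omega

lemma conn_congr {M M' : ℤ × ℤ → Prop} {R : Set (ℤ × ℤ)} {a b : ℤ × ℤ} (h : TA.Conn M R a b)
    (hM : ∀ v ∈ R, (M v ↔ M' v)) : TA.Conn M' R a b := by
  unfold TA.Conn at *
  induction h with
  | refl => exact Relation.ReflTransGen.refl
  | tail _ h ih =>
    obtain ⟨v, hv, h⟩ := h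
    refine Relation.ReflTransGen.tail ih ⟨v, hv, h.1, ?_⟩
    rw [← hM v hv]
    exact h.2

/-- connections depend only on the tiles of the region -/
lemma conn_congr_tiles {M M' : ℤ × ℤ → Prop} {R : Set (ℤ × ℤ)} {a b : ℤ × ℤ}
    (h : TA.Conn M R a b) (ha : (2 : ℤ) ∣ a.1 + a.2)
    (hM : ∀ v ∈ R, ¬ (2 : ℤ) ∣ v.1 + v.2 → (M v ↔ M' v)) : TA.Conn M' R a b :=
  conn_mono (conn_congr (conn_tiles h ha).1 (fun v hv => hM v hv.1 hv.2)) (fun v hv => hv.1)

lemma BandEv.congr {κ m u : ℤ} {S S' : Set (ℤ × ℤ)} (h : BandEv κ m u S)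
    (hS : ∀ v : ℤ × ℤ, 2 * m * u ≤ v.1 → v.1 < 2 * m * (u + 1) → -2 * m ≤ v.2 → v.2 < 2 * m →
      ¬ (2 : ℤ) ∣ v.1 + v.2 → (v ∈ S ↔ v ∈ S')) : BandEv κ m u S' := by
  obtain ⟨a, b, h1, h2, h3, h4, h5, h6, h7, h8, h9⟩ := h
  refine ⟨a, b, h1, h2, h3, h4, h5, h6, h7, h8, conn_congr_tiles h9 ?_ ?_⟩
  · unfold Col at h3
    omega
  · rintro v ⟨g1, g2, g3, g4⟩ g5
    exact hS v g1 g2 g3 g4 g5

lemma RingEv.congr {κ m u u' h : ℤ} {up : Bool} {S S' : Set (ℤ × ℤ)}
    (hR : RingEv κ m u u' h up S)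
    (hS : ∀ v ∈ Reg m (RAll u u' h up), ¬ (2 : ℤ) ∣ v.1 + v.2 → (v ∈ S ↔ v ∈ S')) :
    RingEv κ m u u' h up S' := by
  obtain ⟨a, b, h1, h2, h3, h4, h5, h6⟩ := hR
  have ha : (2 : ℤ) ∣ a.1 + a.2 := by
    unfold Col at h3
    omega
  refine ⟨a, b, h1, h2, h3, h4, conn_congr_tiles h5 ha ?_, conn_congr_tiles h6 ha ?_⟩
  · intro v hv
    exact hS v (Reg_mono (fun c hc => Or.inl hc) hv)
  · intro v hv
    exact hS v (Reg_mono (fun c hc => Or.inr hc) hv)

/-- **Bands are crossed with positive probability.** -/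
theorem band_prob {ι : Type*} [DecidableEq ι] (Λ : Finset ι) (π : ℤ × ℤ → ι) {m : ℤ} (hm : 1 ≤ m)
    (hpar : ∀ t t', π t = π t' → (2 : ℤ) ∣ t.1 - t'.1)
    (hπ : ∀ t t', π t = π t' → |t.1 - t'.1| < 4 * m → |t.2 - t'.2| < 4 * m → t = t')
    {κ : ℤ} (hκ : κ = 0 ∨ κ = 1) (u : ℤ)
    (hΛ : ∀ t : ℤ × ℤ, 2 * m * u ≤ t.1 → t.1 < 2 * m * (u + 1) → -2 * m ≤ t.2 → t.2 < 2 * m →
      ¬ (2 : ℤ) ∣ t.1 + t.2 → π t ∈ Λ) :
    nc ^ 2 ≤ P Λ (fun ω => BandEv κ m u (pull π ω)) := by
  have hrep := reps_finset π m ({(u, -1), (u, 0)} : Finset (ℤ × ℤ))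
  rw [Finset.coe_insert, Finset.coe_singleton] at hrep
  have h := net_prob1T Λ π hm hpar hπ hκ {(u, -1), (u, 0)} _ hrep (by
    rintro t ⟨c, hc, g1, g2, g3, g4⟩ ht
    simp only [Set.mem_insert_iff, Set.mem_singleton_iff] at hc
    rcases hc with rfl | rfl
    · simp only at *
      exact hΛ t g1 g2 (by linarith) (by nlinarith) ht
    · simp only at *
      exact hΛ t g1 g2 (by nlinarith) (by nlinarith) ht)
  refine le_trans ?_ (h.trans (P_mono (fun ω _ hω => band_of_net hκ hm hω)))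
  exact pow_le_pow_of_le_one nc_pos.le nc_le_one (Finset.card_le_two)

/-- independence: none of the bands is crossed -/
theorem forall_not_le {ι J : Type*} [DecidableEq ι] (Λ : Finset ι) (I : Finset J)
    (D : J → Finset ι) (B : J → Finset ι → Prop) (hD : ∀ j ∈ I, D j ⊆ Λ)
    (hB : ∀ j ∈ I, Dep (D j) (B j)) (hdis : ∀ i ∈ I, ∀ j ∈ I, i ≠ j → Disjoint (D i) (D j))
    {E : Finset ι} (hE : E ⊆ Λ) {A : Finset ι → Prop} (hA : Dep E A)
    (hEdis : ∀ j ∈ I, Disjoint (D j) E) (c : ℝ) (hc1 : c ≤ 1) (h : ∀ j ∈ I, c ≤ P Λ (B j)) :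
    P Λ (fun ω => A ω ∧ ∀ j ∈ I, ¬ B j ω) ≤ (1 - c) ^ I.card * P Λ A := by
  classical
  induction I using Finset.induction_on with
  | empty =>
    simp only [Finset.card_empty, pow_zero, one_mul]
    exact P_mono (fun ω _ h => h.1)
  | @insert a I ha ih =>
    have h1 := ih (fun j hj => hD j (Finset.mem_insert_of_mem hj))
      (fun j hj => hB j (Finset.mem_insert_of_mem hj))
      (fun i hi j hj => hdis i (Finset.mem_insert_of_mem hi) j (Finset.mem_insert_of_mem hj))
      (fun j hj => hEdis j (Finset.mem_insert_of_mem hj))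
      (fun j hj => h j (Finset.mem_insert_of_mem hj))
    have ha' := Finset.mem_insert_self a I
    set F := E ∪ I.biUnion D with hF
    have hFΛ : F ⊆ Λ := by
      intro x hx
      rcases Finset.mem_union.1 hx with hx | hx
      · exact hE hx
      · obtain ⟨j, hj, hx⟩ := Finset.mem_biUnion.1 hx
        exact hD j (Finset.mem_insert_of_mem hj) hx
    have hdep : Dep F (fun ω => A ω ∧ ∀ j ∈ I, ¬ B j ω) := by
      intro ω
      refine and_congr ((hA.mono Finset.subset_union_left) ω) (forall₂_congr fun j hj => ?_)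
      refine not_congr ((hB j (Finset.mem_insert_of_mem hj)).mono ?_ ω)
      exact (Finset.subset_biUnion_of_mem D hj).trans Finset.subset_union_right
    have hdisj : Disjoint F (D a) := by
      rw [Finset.disjoint_left]
      intro x hx hxa
      rcases Finset.mem_union.1 hx with hx | hx
      · exact Finset.disjoint_left.1 (hEdis a ha') hxa hx
      · obtain ⟨j, hj, hx⟩ := Finset.mem_biUnion.1 hx
        refine Finset.disjoint_left.1 (hdis j (Finset.mem_insert_of_mem hj) a ha' ?_) hx hxa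
        rintro rfl
        exact ha hj
    have h2 := P_indep hFΛ (hD a ha') hdisj hdep (hB a ha').not
    have h3 : P Λ (fun ω => A ω ∧ ∀ j ∈ insert a I, ¬ B j ω) =
        P Λ (fun ω => (A ω ∧ ∀ j ∈ I, ¬ B j ω) ∧ ¬ B a ω) := by
      apply P_congr
      intro S _
      rw [Finset.forall_mem_insert]
      tauto
    have h4 : P Λ (fun ω => ¬ B a ω) ≤ 1 - c := by
      have := P_compl Λ (B a)
      have h5 := h a ha'
      linarith
    rw [h3, h2, Finset.card_insert_of_notMem ha, pow_succ]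
    calc _ ≤ ((1 - c) ^ I.card * P Λ A) * (1 - c) :=
          mul_le_mul h1 h4 (P_nonneg _ _) (mul_nonneg (pow_nonneg (by linarith) _) (P_nonneg _ _))
      _ = _ := by ring

end CB
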